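import Pool.Agent.H857.EF.Core2
import Pool.Graph.R_pool_sql_team_seeded_2aa45f1a.Q70.CT.PoleMain

/-!
# The formula of Tate for abelian varieties from codimension two (S28)
-/

set_option autoImplicit false
set_option linter.unusedSectionVars false
set_option linter.unusedVariables false

open CategoryTheory AlgebraicGeometry

universe u v w

namespace Pool.Agent.H287.EF28

open Polynomial Module Pool.Agent.H914 Pool.Agent.H914.VarClass Pool.Agent.H914.VarClass.Obj
  Pool.Agent.W492.BB Pool.Agent.W484.CH Pool.Agent.Y1.CT Pool.Agent.W550.Corr Pool.Agent.Q70.CT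
  Pool.Agent.W484.HS Pool.Agent.H857.EF

section abs

/-- Choosing an entry with a given image. -/
theorem pick {α β : Type*} (f : α → β) (L : List α) (b : β) (T : List β)
    (h : (L.map f).Perm (b :: T)) :
    ∃ (e : α) (L' : List α), L.Perm (e :: L') ∧ f e = b ∧ (L'.map f).Perm T := by
  classical
  have h1 : b ∈ L.map f := h.mem_iff.2 (by simp)
  obtain ⟨e, he, rfl⟩ := List.mem_map.1 h1
  have h2 := List.perm_cons_erase he
  refine ⟨e, L.erase e, h2, rfl, ?_⟩
  have h3 := (h2.map f).symm.trans h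
  rw [List.map_cons] at h3
  exact h3.cons_inv

variable {K : Type*} [Field K] {R : Type*} [Ring R] [Algebra K R]
variable {X : Type*} (G : R →ₐ[K] R)

/-- The induction with pairs and quadruples. -/
theorem list_graded4 (z : X → K) (s : ℕ) (Q : K) (M : ℕ → Submodule K R) (h1 : (1 : R) ∈ M 0)
    (hmul : ∀ (m n : ℕ) (a b : R), a ∈ M m → b ∈ M n → a * b ∈ M (m + n)) (U : Set R)
    (hanti : ∀ a ∈ U, ∀ b ∈ U, a * b = -(b * a))
    (h2 : ∀ a ∈ U, ∀ b ∈ U, ∀ x y, G a = z x ^ s • a → G b = z y ^ s • b → z x * z y = Q →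
      a * b ∈ M 1)
    (h4 : ∀ a ∈ U, ∀ b ∈ U, ∀ c ∈ U, ∀ d ∈ U, ∀ x y x' y', G a = z x ^ s • a →
      G b = z y ^ s • b → G c = z x' ^ s • c → G d = z y' ^ s • d →
      z x * z y * z x' * z y' = Q ^ 2 → a * b * c * d ∈ M 2)
    (φ : X → ℂ) (QC : ℂ) (hφ2 : ∀ x y, φ x * φ y = QC → z x * z y = Q)
    (hφ4 : ∀ x y x' y', φ x * φ y * φ x' * φ y' = QC ^ 2 → z x * z y * z x' * z y' = Q ^ 2)
    {L₀ : List ℂ} (hL₀ : Matched4 (fun y z => y * z = QC) (fun a b c d => a * b * c * d = QC ^ 2)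
      L₀) :
    ∀ L : List (R × X), (L.map (fun e => φ e.2)).Perm L₀ →
      (∀ e ∈ L, e.1 ∈ U ∧ G e.1 = z e.2 ^ s • e.1) →
      ∃ k : ℕ, (L.map (fun e => z e.2 ^ s)).prod = (Q ^ s) ^ k ∧ (L.map Prod.fst).prod ∈ M k := by
  induction hL₀ with
  | nil =>
    intro L hL _
    have h5 := hL.eq_nil
    rw [List.map_eq_nil_iff] at h5
    subst h5
    exact ⟨0, by simp, by simpa using h1⟩
  | @pair a b L₁ L₂ hab _ hperm ih =>
    intro L hL hU
    obtain ⟨e, L', hp1, he, hL'⟩ := pick (fun e : R × X => φ e.2) L a (b :: L₁) (hL.trans hperm)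
    obtain ⟨e', L'', hp2, he', hL''⟩ := pick (fun e : R × X => φ e.2) L' b L₁ hL'
    have hp : L.Perm (e :: e' :: L'') := hp1.trans (hp2.cons e)
    have he1 := hU e (hp.mem_iff.2 (by simp))
    have he2 := hU e' (hp.mem_iff.2 (by simp))
    obtain ⟨k, hk, hM⟩ := ih L'' hL'' fun x hx => hU x (hp.mem_iff.2 (by simp [hx]))
    have hz : z e.2 * z e'.2 = Q := hφ2 _ _ (by
      change φ e.2 = a at he
      change φ e'.2 = b at he'
      rw [he, he']
      exact hab)
    obtain ⟨r, hr⟩ := prod_perm_anti (K := K) (hp.map Prod.fst) (by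
      intro x hx y hy
      rw [List.mem_map] at hx hy
      obtain ⟨e₁, he₁, rfl⟩ := hx
      obtain ⟨e₂, he₂, rfl⟩ := hy
      exact hanti _ (hU e₁ he₁).1 _ (hU e₂ he₂).1)
    refine ⟨1 + k, ?_, ?_⟩
    · rw [(hp.map (fun e => z e.2 ^ s)).prod_eq, List.map_cons, List.prod_cons, List.map_cons,
        List.prod_cons, hk, ← mul_assoc, ← mul_pow, hz, pow_add, pow_one]
    · rw [hr]
      refine Submodule.smul_mem _ _ ?_
      rw [List.map_cons, List.prod_cons, List.map_cons, List.prod_cons, ← mul_assoc]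
      exact hmul 1 k _ _ (h2 _ he1.1 _ he2.1 _ _ he1.2 he2.2 hz) hM
  | @quad a b c d L₁ L₂ habcd _ hperm ih =>
    intro L hL hU
    obtain ⟨e, L', hp1, he, hL'⟩ := pick (fun e : R × X => φ e.2) L a (b :: c :: d :: L₁)
      (hL.trans hperm)
    obtain ⟨e', L'', hp2, he', hL''⟩ := pick (fun e : R × X => φ e.2) L' b (c :: d :: L₁) hL'
    obtain ⟨g, T, hp3, hg, hT⟩ := pick (fun e : R × X => φ e.2) L'' c (d :: L₁) hL''
    obtain ⟨g', T', hp4, hg', hT'⟩ := pick (fun e : R × X => φ e.2) T d L₁ hT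
    have hp : L.Perm (e :: e' :: g :: g' :: T') :=
      hp1.trans ((hp2.trans ((hp3.trans (hp4.cons g)).cons e')).cons e)
    have he1 := hU e (hp.mem_iff.2 (by simp))
    have he2 := hU e' (hp.mem_iff.2 (by simp))
    have hg1 := hU g (hp.mem_iff.2 (by simp))
    have hg2 := hU g' (hp.mem_iff.2 (by simp))
    obtain ⟨k, hk, hM⟩ := ih T' hT' fun x hx => hU x (hp.mem_iff.2 (by simp [hx]))
    have hz : z e.2 * z e'.2 * z g.2 * z g'.2 = Q ^ 2 := hφ4 _ _ _ _ (by
      change φ e.2 = a at he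
      change φ e'.2 = b at he'
      change φ g.2 = c at hg
      change φ g'.2 = d at hg'
      rw [he, he', hg, hg']
      exact habcd)
    obtain ⟨r, hr⟩ := prod_perm_anti (K := K) (hp.map Prod.fst) (by
      intro x hx y hy
      rw [List.mem_map] at hx hy
      obtain ⟨e₁, he₁, rfl⟩ := hx
      obtain ⟨e₂, he₂, rfl⟩ := hy
      exact hanti _ (hU e₁ he₁).1 _ (hU e₂ he₂).1)
    refine ⟨2 + k, ?_, ?_⟩
    · have hq2 : (Q ^ 2) ^ s = (Q ^ s) ^ 2 := by rw [← pow_mul, ← pow_mul, mul_comm]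
      rw [(hp.map (fun e => z e.2 ^ s)).prod_eq, List.map_cons, List.prod_cons, List.map_cons,
        List.prod_cons, List.map_cons, List.prod_cons, List.map_cons, List.prod_cons, hk,
        ← mul_assoc, ← mul_assoc, ← mul_assoc, ← mul_pow, ← mul_pow, ← mul_pow, hz, hq2, pow_add]
    · rw [hr]
      refine Submodule.smul_mem _ _ ?_
      rw [List.map_cons, List.prod_cons, List.map_cons, List.prod_cons, List.map_cons,
        List.prod_cons, List.map_cons, List.prod_cons, ← mul_assoc, ← mul_assoc, ← mul_assoc]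
      exact hmul 2 k _ _ (h4 _ he1.1 _ he2.1 _ hg1.1 _ hg2.1 _ _ _ _ he1.2 he2.2 hg1.2 hg2.2 hz) hM

/-- The roots of `g` in `F`. -/
abbrev RT (g : ℤ[X]) (F : Type*) [Field F] : Type _ :=
  {z : F // ∃ i : Unit, aeval z ((fun _ : Unit => g) i) = 0}

/-- Transport of the roots to the complex numbers. -/
theorem exists_emb (g : ℤ[X]) (hmon : g.Monic) (Q : ℕ) (F : Type*) [Field F] [CharZero F] :
    ∃ φ : RT g F → ℂ,
      (∀ x, aeval (φ x) g = 0) ∧
      (∀ (L : List (RT g F)) (s : ℕ) (c : ℤ),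
        (L.map fun x : RT g F => (x : F) ^ s).prod = ((Q : F) ^ s) ^ c →
        (L.map fun x : RT g F => φ x ^ s).prod = ((Q : ℂ) ^ s) ^ c) ∧
      (∀ x y : RT g F, φ x * φ y = Q → (x : F) * y = Q) ∧
      ∀ x y x' y' : RT g F, φ x * φ y * φ x' * φ y' = (Q : ℂ) ^ 2 →
        (x : F) * y * x' * y' = (Q : F) ^ 2 := by
  classical
  have hmem : ∀ z : F, (∃ p : ℚ[X], p ≠ 0 ∧ aeval z p = 0) → z ∈ algebraicClosure ℚ F := by
    rintro z ⟨p, hp, hz⟩
    rw [mem_algebraicClosure_iff]
    exact ⟨p, hp, hz⟩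
  have halg : Algebra.IsAlgebraic ℚ (algebraicClosure ℚ F) := algebraicClosure.isAlgebraic ℚ F
  let j : algebraicClosure ℚ F →ₐ[ℚ] ℂ := IsAlgClosed.lift
  have hzm : ∀ z : RT g F,
      (z : F) ∈ algebraicClosure ℚ F := by
    rintro ⟨z, i, hi⟩
    refine hmem z ⟨g.map (algebraMap ℤ ℚ), ?_, ?_⟩
    · exact (hmon.map _).ne_zero
    · rw [aeval_map_algebraMap]
      exact hi
  have hz : ∀ z : RT g F,
      aeval (j ⟨z, hzm z⟩) g = 0 := by
    rintro ⟨z, i, hi⟩
    have h2 := Polynomial.hom_eval₂ g (algebraMap ℤ _)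
      (j : algebraicClosure ℚ F →+* ℂ) ⟨z, hzm ⟨z, i, hi⟩⟩
    rw [RingHom.ext_int ((j : algebraicClosure ℚ F →+* ℂ).comp (algebraMap ℤ _))
      (algebraMap ℤ ℂ)] at h2
    have h3 : eval₂ (algebraMap ℤ (algebraicClosure ℚ F)) (⟨z, hzm ⟨z, i, hi⟩⟩ :
        algebraicClosure ℚ F) g = 0 := by
      apply (algebraMap (algebraicClosure ℚ F) F).injective
      rw [map_zero, Polynomial.hom_eval₂, RingHom.ext_int ((algebraMap (algebraicClosure ℚ F)
        F).comp (algebraMap ℤ _)) (algebraMap ℤ F)]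
      exact hi
    rw [h3, map_zero] at h2
    exact h2.symm
  refine ⟨fun z => j ⟨z, hzm z⟩, hz, ?_, ?_, ?_⟩
  · intro L s c h
    have h0 : (L.map (fun z : RT g F =>
        (⟨z, hzm z⟩ : algebraicClosure ℚ F) ^ s)).prod = ((Q : algebraicClosure ℚ F) ^ s) ^ c := by
      apply (algebraMap (algebraicClosure ℚ F) F).injective
      rw [_root_.map_list_prod, List.map_map, map_zpow₀, map_pow, map_natCast]
      exact h
    have h4 := congrArg j h0
    rw [_root_.map_list_prod j, List.map_map, map_zpow₀, map_pow, map_natCast] at h4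
    rw [← h4]
    congr 2
    funext z
    change (j ⟨z, hzm z⟩) ^ s = j (⟨z, hzm z⟩ ^ s)
    rw [map_pow]
  · intro x y h5
    have h6 : (⟨x, hzm x⟩ : algebraicClosure ℚ F) * ⟨y, hzm y⟩ = (Q : algebraicClosure ℚ F) := by
      apply (j : algebraicClosure ℚ F →+* ℂ).injective
      rw [map_mul, map_natCast]
      exact h5
    have h7 := congrArg (algebraMap (algebraicClosure ℚ F) F) h6
    rw [map_mul, map_natCast] at h7
    exact h7
  · intro x y x' y' h5
    have h6 : (⟨x, hzm x⟩ : algebraicClosure ℚ F) * ⟨y, hzm y⟩ * ⟨x', hzm x'⟩ * ⟨y', hzm y'⟩ =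
        (Q : algebraicClosure ℚ F) ^ 2 := by
      apply (j : algebraicClosure ℚ F →+* ℂ).injective
      rw [map_mul, map_mul, map_mul, map_pow, map_natCast]
      exact h5
    have h7 := congrArg (algebraMap (algebraicClosure ℚ F) F) h6
    rw [map_mul, map_mul, map_mul, map_pow, map_natCast] at h7
    exact h7

end abs

variable {k : Type u} [Field k] {𝒱 : VarClass k} {C : TheoryData.{u, v, 0} 𝒱 ℚ} {K : Type w}
  [Field K] [CharZero K] {H : WeilTheoryData.{u, v, w} C K} [hC : IsChow C] [hH : IsWeil H]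
  {A : 𝒱.Obj} (hS : IsStandard H)

theorem clSpan_le_gr (c : ℕ) : clSpan H A c ≤ H.gr A (2 * c) := by
  unfold clSpan
  rw [Submodule.span_le]
  rintro _ ⟨y, hy, rfl⟩
  exact H.cl_mem hy

theorem one_mem_clSpan : (1 : H.A A) ∈ clSpan H A 0 :=
  Submodule.subset_span ⟨1, by simpa using C.one_mem A, by rw [map_one]⟩

theorem mul_mem_clSpan {m n : ℕ} {a b : H.A A} (ha : a ∈ clSpan H A m) (hb : b ∈ clSpan H A n) :
    a * b ∈ clSpan H A (m + n) := by
  unfold clSpan at ha
  induction ha using Submodule.span_induction with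
  | mem a ha =>
    obtain ⟨D, hD, rfl⟩ := ha
    unfold clSpan at hb
    induction hb using Submodule.span_induction with
    | mem b hb =>
      obtain ⟨D', hD', rfl⟩ := hb
      refine Submodule.subset_span ⟨D * D', ?_, by rw [map_mul]⟩
      have h1 := C.mul_mem hD hD'
      rwa [← Nat.cast_add] at h1
    | zero => rw [mul_zero]; exact Submodule.zero_mem _
    | add x y _ _ hx hy => rw [mul_add]; exact Submodule.add_mem _ hx hy
    | smul c x _ hx => rw [mul_smul_comm]; exact Submodule.smul_mem _ _ hx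
  | zero => rw [zero_mul]; exact Submodule.zero_mem _
  | add x y _ _ hx hy => rw [add_mul]; exact Submodule.add_mem _ hx hy
  | smul c x _ hx => rw [smul_mul_assoc]; exact Submodule.smul_mem _ _ hx

theorem clSpan_eigen {π : A ⟶ A} {Q : ℕ} (hπ : IsFrobenius C π Q) {n : ℕ} {c : H.A A}
    (hc : c ∈ clSpan H A n) : H.pull π c = (Q : K) ^ n • c := by
  unfold clSpan at hc
  induction hc using Submodule.span_induction with
  | mem c hc =>
    obtain ⟨D, hD, rfl⟩ := hc
    have h1 : C.pull π D = (Q : ℚ) ^ n • D := hπ.chow n D hD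
    rw [← H.cl_pull, h1, cl_smul]
    push_cast
    rfl
  | zero => rw [map_zero, smul_zero]
  | add x y _ _ hx hy => rw [map_add, hx, hy, smul_add]
  | smul a x _ hx => rw [map_smul, hx, smul_comm]

/-- Different degrees. -/
theorem deg_unique {m n : ℤ} {v : H.A A} (hv : v ≠ 0) (hm : v ∈ H.gr A m) (hn : v ∈ H.gr A n) :
    m = n := by
  by_contra hne
  have h1 := (H.isInternal A).submodule_iSupIndep.pairwiseDisjoint hne
  have h2 := h1.le_bot (show v ∈ H.gr A m ⊓ H.gr A n from ⟨hm, hn⟩)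
  exact hv ((Submodule.mem_bot K).1 h2)

section basis

variable {π : A ⟶ A} {Q : ℕ} (hπ : IsFrobenius C π Q) (hQ : 1 < Q) {r : ℕ}
  (b : Basis (Fin r) K (H.A A)) (α : Fin r → K) (hb : ∀ t, H.pull π (b t) = α t • b t)
  (h1 : ∀ t (c : ℤ), α t = (Q : K) ^ c → ∃ k : ℕ, α t = (Q : K) ^ k ∧ b t ∈ clSpan H A k)

include hb in
theorem op_repr (μ : K) (m : ℕ) (w : H.A A) :
    op (frob H π) μ m w = ∑ t, (b.repr w t * (α t - μ) ^ m) • b t := by
  induction m with
  | zero =>
    simp only [pow_zero, mul_one]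
    rw [b.sum_repr w]
    simp [op]
  | succ m ih =>
    have h2 : op (frob H π) μ (m + 1) w =
        (frob H π - μ • (1 : Module.End K (H.A A))) (op (frob H π) μ m w) := by
      rw [op, op, pow_succ', Module.End.mul_apply]
    rw [h2, ih, map_sum]
    refine Finset.sum_congr rfl fun t _ => ?_
    rw [map_smul, LinearMap.sub_apply, LinearMap.smul_apply, Module.End.one_apply]
    change _ • (H.pull π (b t) - _) = _
    rw [hb, ← sub_smul, smul_smul, pow_succ, mul_assoc]

include hb in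
theorem repr_eigen {μ : K} {m : ℕ} {w : H.A A} (h : op (frob H π) μ m w = 0) (t : Fin r)
    (ht : b.repr w t ≠ 0) : α t = μ := by
  rw [op_repr b α hb] at h
  have h2 := Fintype.linearIndependent_iff.1 b.linearIndependent _ h t
  have h3 := (mul_eq_zero.1 h2).resolve_left ht
  by_contra hne
  exact pow_ne_zero m (sub_ne_zero.2 hne) h3

include hQ hb h1 in
theorem mem_clSpan_of_op {c : ℕ} {m : ℕ} {w : H.A A}
    (h : op (frob H π) ((Q : K) ^ (c : ℤ)) m w = 0) : w ∈ clSpan H A c := by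
  rw [← b.sum_repr w]
  refine Submodule.sum_mem _ fun t _ => ?_
  by_cases ht : b.repr w t = 0
  · rw [ht, zero_smul]
    exact Submodule.zero_mem _
  · have h2 := repr_eigen b α hb h t ht
    obtain ⟨l, hl, hbl⟩ := h1 t c h2
    have h3 : l = c := by
      have h4 : ((Q ^ l : ℕ) : K) = ((Q ^ c : ℕ) : K) := by
        push_cast
        rw [← hl, h2, zpow_natCast]
      exact Nat.pow_right_injective hQ (Nat.cast_injective h4)
    rw [h3] at hbl
    exact Submodule.smul_mem _ _ hbl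

include hQ hb h1 in
theorem zero_of_op_neg {c : ℤ} (hc : c < 0) {m : ℕ} {w : H.A A}
    (h : op (frob H π) ((Q : K) ^ c) m w = 0) : w = 0 := by
  rw [← b.sum_repr w]
  refine Finset.sum_eq_zero fun t _ => ?_
  by_cases ht : b.repr w t = 0
  · rw [ht, zero_smul]
  · exfalso
    have h2 := repr_eigen b α hb h t ht
    obtain ⟨l, hl, -⟩ := h1 t c h2
    obtain ⟨d, hd⟩ := Int.eq_ofNat_of_zero_le (show 0 ≤ -c by omega)
    have hQK : (Q : K) ≠ 0 := by
      have : Q ≠ 0 := by omega
      exact_mod_cast this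
    have h3 : (Q : K) ^ c * (Q : K) ^ d = 1 := by
      rw [← zpow_natCast, ← zpow_add₀ hQK, ← hd, add_neg_cancel, zpow_zero]
    rw [← h2, hl, ← pow_add] at h3
    have h4 : ((Q ^ (l + d) : ℕ) : K) = ((Q ^ 0 : ℕ) : K) := by
      push_cast
      rw [h3, pow_zero]
    have h5 := Nat.pow_right_injective hQ (Nat.cast_injective h4)
    omega

include hQ hb h1 in
theorem isPure : IsPure H π Q := by
  intro n c w hw hn hπw
  have h2 : op (frob H π) ((Q : K) ^ c) 1 w = 0 := by
    rw [op, pow_one, LinearMap.sub_apply, LinearMap.smul_apply, Module.End.one_apply, sub_eq_zero]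
    exact hπw
  rcases lt_or_ge c 0 with hc | hc
  · exact absurd (zero_of_op_neg hQ b α hb h1 hc h2) hw
  · obtain ⟨c, rfl⟩ := Int.eq_ofNat_of_zero_le hc
    exact deg_unique hw hn (clSpan_le_gr c (mem_clSpan_of_op hQ b α hb h1 h2))

include hπ hQ hb h1 in
theorem eigenspace_eq (c : ℕ) : eigenspace H π Q c (2 * c) = clSpan H A c := by
  refine le_antisymm ?_ ?_
  · intro w hw
    rw [mem_eigenspace] at hw
    obtain ⟨-, m, hm⟩ := hw
    exact mem_clSpan_of_op hQ b α hb h1 hm
  · intro w hw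
    rw [mem_eigenspace]
    refine ⟨clSpan_le_gr c hw, 1, ?_⟩
    rw [op, pow_one, LinearMap.sub_apply, LinearMap.smul_apply, Module.End.one_apply, sub_eq_zero,
      zpow_natCast]
    exact clSpan_eigen hπ hw

include hπ hQ hb h1 in
/-- **The intersection pairing is nondegenerate.** -/
theorem clSpan_nondeg {n : ℕ} (hn : n ≤ A.dim) {c : H.A A} (hc : c ∈ clSpan H A n)
    (h : ∀ c' ∈ clSpan H A (A.dim - n), H.tr A (c * c') = 0) : c = 0 := by
  have hQK : (Q : K) ≠ 0 := by
    have : Q ≠ 0 := by omega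
    exact_mod_cast this
  have hbt : ∀ t, H.tr A (c * b t) = 0 := by
    intro t
    by_cases ht : α t = (Q : K) ^ (A.dim - n)
    · obtain ⟨m, hm, hbm⟩ := h1 t ((A.dim - n : ℕ) : ℤ) (by rw [zpow_natCast]; exact ht)
      have h2 : m = A.dim - n := by
        have h3 : ((Q ^ m : ℕ) : K) = ((Q ^ (A.dim - n) : ℕ) : K) := by
          push_cast
          rw [← hm, ht]
        exact Nat.pow_right_injective hQ (Nat.cast_injective h3)
      rw [h2] at hbm
      exact h _ hbm
    · have h2 := tr_frob hπ (c * b t)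
      rw [map_mul, clSpan_eigen hπ hc, hb, smul_mul_smul_comm, map_smul, smul_eq_mul] at h2
      have h3 : ((Q : K) ^ n * α t - (Q : K) ^ A.dim) * H.tr A (c * b t) = 0 := by
        rw [sub_mul, h2, sub_self]
      rcases mul_eq_zero.1 h3 with h4 | h4
      · exfalso
        apply ht
        have h5 : (Q : K) ^ n * (Q : K) ^ (A.dim - n) = (Q : K) ^ A.dim := by
          rw [← pow_add]
          congr 1
          omega
        rw [sub_eq_zero, ← h5] at h4
        exact mul_left_cancel₀ (pow_ne_zero _ hQK) h4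
      · exact h4
  apply H.nondeg
  intro y
  have h2 : y = ∑ t, b.repr y t • b t := (b.sum_repr y).symm
  rw [h2, Finset.mul_sum, map_sum]
  refine Finset.sum_eq_zero fun t _ => ?_
  rw [mul_smul_comm, map_smul, hbt, smul_zero]

include hS hπ hQ hb h1 in
/-- The classes are linearly independent modulo numerical equivalence. -/
theorem le_numRank {c : ℕ} (hc : c ≤ A.dim) : finrank K (clSpan H A c) ≤ numRank H A c := by
  classical
  have hfin := hS.finite A
  have hnum := finite_num (H := H) (Z := A) hS c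
  obtain ⟨S, hS1, hspan, hli⟩ := exists_linearIndependent K
    {x : H.A A | ∃ y : C.A A, C.Deg c y ∧ x = H.cl y}
  have hSfin : S.Finite := hli.setFinite
  have : Fintype S := hSfin.fintype
  have hcard : Fintype.card S = finrank K (clSpan H A c) := by
    rw [clSpan, ← hspan]
    exact (finrank_span_set_eq_card hli).symm ▸ (Set.toFinset_card S).symm
  choose y hy hcl using fun x : S => hS1 x.2
  rw [← hcard, numRank_eq]
  have hind : LinearIndependent ℚ
      (fun x : S => (numSub H A c).mkQ (⟨y x, hy x⟩ : C.gr A (c : ℤ))) := by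
    rw [Fintype.linearIndependent_iff]
    intro g hg
    have h2 : ∑ x, g x • (⟨y x, hy x⟩ : C.gr A (c : ℤ)) ∈ numSub H A c := by
      rw [← Submodule.Quotient.mk_eq_zero, ← Submodule.mkQ_apply, map_sum, ← hg]
      exact Finset.sum_congr rfl fun x _ => map_smul _ _ _
    rw [mem_numSub] at h2
    have hcoe : ((∑ x, g x • (⟨y x, hy x⟩ : C.gr A (c : ℤ)) : C.gr A (c : ℤ)) : C.A A) =
        ∑ x, g x • y x := by
      rw [AddSubmonoidClass.coe_finsetSum]
      rfl
    rw [hcoe] at h2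
    have h3 : H.cl (∑ x, g x • y x) = ∑ x : S, ((g x : ℚ) : K) • (x : H.A A) := by
      rw [map_sum]
      exact Finset.sum_congr rfl fun x _ => by rw [cl_smul, ← hcl x]
    have h4 : H.cl (∑ x, g x • y x) ∈ clSpan H A c := by
      rw [h3]
      refine Submodule.sum_mem _ fun x _ => Submodule.smul_mem _ _ (Submodule.subset_span ?_)
      exact ⟨y x, hy x, hcl x⟩
    have h5 : H.cl (∑ x, g x • y x) = 0 := by
      refine clSpan_nondeg hπ hQ b α hb h1 hc h4 fun c' hc' => ?_
      unfold clSpan at hc'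
      induction hc' using Submodule.span_induction with
      | mem c' hc' =>
        obtain ⟨E, hE, rfl⟩ := hc'
        rw [← map_mul]
        exact h2 (A.dim - c) E (by omega) hE
      | zero => rw [mul_zero, map_zero]
      | add x y _ _ hx hy => rw [mul_add, map_add, hx, hy, add_zero]
      | smul a x _ hx => rw [mul_smul_comm, map_smul, hx, smul_zero]
    rw [h3] at h5
    intro x
    have h6 := Fintype.linearIndependent_iff.1 hli (fun x => ((g x : ℚ) : K)) h5 x
    exact_mod_cast h6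
  exact hind.fintype_card_le_finrank

include hS hπ hQ hb h1 in
theorem poleFormula_of_basis (c : ℕ) : PoleFormula H π Q c := by
  unfold PoleFormula
  rw [poleOrder_pure hS (isPure hQ b α hb h1)]
  rcases Nat.lt_or_ge A.dim c with hc | hc
  · rw [numRank_big hS hc, finrank_eig_out hS (Or.inr (by omega))]
  · have h2 : numRank H A c = finrank K (clSpan H A c) :=
      le_antisymm (numRank_le hS c hc) (le_numRank hS hπ hQ b α hb h1 hc)
    rw [h2, eigenspace_eq hπ hQ b α hb h1]

end basis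

/-- **Existence of a good basis.** -/
theorem exists_good_basis4 (hS : IsStandard H) {Q : ℕ} (hQ : 1 < Q) {g : ℤ[X]} (hg : NoRel4 g Q)
    {s : ℕ} (hs : 0 < s) {π : A ⟶ A} (hA : IsAbelian H π Q s (fun _ : Unit => g))
    (h4 : ∀ y : H.A A, H.Deg 4 y → H.pull π y = ((Q ^ s : ℕ) : K) ^ 2 • y →
      y ∈ clSpan H A 2) :
    ∃ (n : ℕ) (b : Basis (Fin n) K (H.A A)) (α : Fin n → K),
      (∀ t, H.pull π (b t) = α t • b t) ∧
      ∀ t (c : ℤ), α t = ((Q ^ s : ℕ) : K) ^ c →
        ∃ l : ℕ, α t = ((Q ^ s : ℕ) : K) ^ l ∧ b t ∈ clSpan H A l := by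
  have hfin := hS.finite A
  let val : RT g K → K := fun z => (z : K) ^ s
  have hU : Submodule.span K {v : H.A A | v ∈ H.gr A 1 ∧ ∃ y, H.pull π v = val y • v} =
      H.gr A 1 := by
    refine Eq.trans ?_ hA.eigen
    congr 1
    ext v
    constructor
    · rintro ⟨h1, ⟨z, i, hz⟩, h2⟩
      exact ⟨h1, i, z, hz, h2⟩
    · rintro ⟨h1, i, z, hz, h2⟩
      exact ⟨h1, ⟨z, i, hz⟩, h2⟩
  obtain ⟨n, b, α, hb⟩ := exists_basis (H.pull π) val (H.gr A 1) hU hA.generated
  have hQs : ((Q ^ s : ℕ) : K) = (Q : K) ^ s := by push_cast; rfl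
  obtain ⟨φ, hφ0, hφ1, hφ2, hφ4⟩ := exists_emb g hg.monic Q K
  refine ⟨n, b, α, fun t => (hb t).1, fun t c hc => ?_⟩
  obtain ⟨-, L, hL1, hL2, hL3⟩ := hb t
  have hrel : ((L.map (fun e => e.2)).map fun x : RT g K => (x : K) ^ s).prod = ((Q : K) ^ s) ^ c := by
    rw [List.map_map, ← hQs, ← hc, hL3]
    rfl
  have hrel2 := hφ1 _ s c hrel
  have hm := hg.matched s hs ((L.map (fun e => e.2)).map φ) (by
    intro z hz
    obtain ⟨x, -, rfl⟩ := List.mem_map.1 hz
    exact hφ0 x) c 1 one_pos (by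
    rw [pow_one, pow_one, List.map_map]
    exact hrel2)
  rw [List.map_map] at hm
  have h1 := list_graded4 (H.pull π) (fun x : RT g K => (x : K)) s (Q : K) (clSpan H A) one_mem_clSpan
    (fun m n a b ha hb => mul_mem_clSpan ha hb) (H.gr A 1 : Set (H.A A))
    (fun a ha b hb => hA.anticomm a b ha hb)
    (fun a ha b hb y y' e1 e2 e3 => by
      have h5 := hA.tate (a * b) (H.mul_mem ha hb) (by
        change H.pull π (a * b) = _
        rw [map_mul, e1, e2, smul_mul_smul_comm, ← mul_pow, e3, hQs])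
      exact h5)
    (fun a ha b hb c hc d hd x y x' y' e1 e2 e3 e4 e5 => by
      refine h4 (a * b * c * d) (H.mul_mem (H.mul_mem (H.mul_mem ha hb) hc) hd) ?_
      rw [map_mul, map_mul, map_mul, e1, e2, e3, e4, smul_mul_smul_comm, smul_mul_smul_comm,
        smul_mul_smul_comm, ← mul_pow, ← mul_pow, ← mul_pow, e5, hQs, ← pow_mul, ← pow_mul,
        mul_comm 2 s])
    φ (Q : ℂ) hφ2 hφ4 hm L (List.Perm.refl _) hL1
  obtain ⟨l, h2, h3⟩ := h1
  refine ⟨l, ?_, ?_⟩
  · rw [hL3, hQs]
    exact h2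
  · rw [hL2]
    exact h3

end Pool.Agent.H287.EF28

namespace Pool.Agent.H857.EF

open Module Polynomial Pool.Agent.H914 Pool.Agent.H914.VarClass Pool.Agent.H914.VarClass.Obj
  Pool.Agent.W492.BB Pool.Agent.Q70.CT Pool.Agent.Y1.CT

theorem s28 : S28 := by
  intro Q g hQ hR k _ 𝒱 C _ K _ _ _ H _ s B π hs hS hB h4 c
  have hS' := W484.CK.isStandard_bridge hS
  have hB' := W484.CK.isAbelian_bridge hB
  obtain ⟨n, b, α, hb, hgood⟩ := Pool.Agent.H287.EF28.exists_good_basis4 hS' hQ hR hs hB' h4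
  exact Pool.Agent.H287.EF28.poleFormula_of_basis hS' hB'.frobenius (Nat.one_lt_pow hs.ne' hQ)
    b α hb hgood c

end Pool.Agent.H857.EF
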