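import Pool.Agent.H857.EF.Core

/-!
# Matching of lists; a uniform exponent
-/

set_option autoImplicit false

namespace Pool.Agent.H720.EFS

open Module Polynomial Pool.Agent.W521.Descent Pool.Agent.W521.Density Pool.Agent.W521.Count
  Pool.Agent.X297.UB Pool.Agent.H857.PB Pool.Agent.H857.PA Pool.Agent.H857.HK Pool.Agent.H857.EF

/-- a list which is not pairwise unrelated contains a related pair -/
theorem exists_rel (P : ℂ → ℂ → Prop) (L : List ℂ) (h : ¬ L.Pairwise fun y z => ¬ P y z) :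
    ∃ (a b : ℂ) (L' : List ℂ), L.Perm (a :: b :: L') ∧ P a b := by
  induction L with
  | nil => exact absurd List.Pairwise.nil h
  | cons x L ih =>
    rw [List.pairwise_cons] at h
    by_cases h1 : L.Pairwise fun y z => ¬ P y z
    · have h2 : ∃ b ∈ L, P x b := by
        by_contra hcon
        push Not at hcon
        exact h ⟨hcon, h1⟩
      obtain ⟨b, hb, hP⟩ := h2
      obtain ⟨s, t, rfl⟩ := List.append_of_mem hb
      refine ⟨x, b, s ++ t, ?_, hP⟩
      exact List.Perm.cons x List.perm_middle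
    · obtain ⟨a, b, L', hp, hP⟩ := ih h1
      refine ⟨a, b, x :: L', ?_, hP⟩
      calc (x :: L).Perm (x :: a :: b :: L') := hp.cons x
        _ |>.Perm (a :: x :: b :: L') := List.Perm.swap _ _ _
        _ |>.Perm (a :: b :: x :: L') := (List.Perm.swap _ _ _).cons a

theorem s11 : S11 := by
  intro q f hq hf hE L
  have hq0 : (q : ℂ) ≠ 0 := by
    have : q ≠ 0 := by omega
    exact_mod_cast this
  induction hn : L.length using Nat.strong_induction_on generalizing L with
  | _ n ih =>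
    intro hL hrel
    by_cases h0 : L = []
    · rw [h0]; exact Matched.nil
    have hnp : ¬ L.Pairwise fun y z => ¬ PairRel q y z := fun hp => hE ⟨L, h0, hL, hrel, hp⟩
    obtain ⟨a, b, L', hperm, hab⟩ := exists_rel (PairRel q) L hnp
    have hmem : ∀ z ∈ L', z ∈ L := fun z hz =>
      hperm.mem_iff.2 (List.mem_cons_of_mem _ (List.mem_cons_of_mem _ hz))
    have hlen : L.length = L'.length + 2 := by rw [hperm.length_eq]; simp
    refine Matched.cons hab (ih L'.length (by omega) L' rfl (fun z hz => hL z (hmem z hz)) ?_) hperm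
    obtain ⟨N, hN, k, hk⟩ := hrel
    obtain ⟨N', hN', hk'⟩ := hab
    refine ⟨N * N', Nat.mul_pos hN hN', k - 1, ?_⟩
    have h1 : L.prod = a * b * L'.prod := by
      rw [hperm.prod_eq, List.prod_cons, List.prod_cons, mul_assoc]
    have h2 : (a * b * L'.prod) ^ (N * N') = (q : ℂ) ^ (k * N * N') := by
      rw [← h1, pow_mul, hk, zpow_mul (q : ℂ) (k * N) N', zpow_natCast]
    have h3 : (a * b) ^ (N * N') = (q : ℂ) ^ ((N : ℤ) * N') := by
      rw [mul_comm N N', pow_mul, hk', ← pow_mul, mul_comm (N : ℤ) N']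
      rw [← Nat.cast_mul, zpow_natCast]
    rw [mul_pow, h3] at h2
    have h4 : (q : ℂ) ^ ((N : ℤ) * N') ≠ 0 := zpow_ne_zero _ hq0
    apply mul_left_cancel₀ h4
    rw [h2, ← zpow_add₀ hq0]
    congr 1
    push_cast
    ring

theorem s12 : S12 := by
  classical
  refine ⟨∏ ζ ∈ (rou_finite 64).toFinset, orderOf ζ, ?_, ?_⟩
  · apply Finset.prod_pos
    intro ζ hζ
    rw [Set.Finite.mem_toFinset] at hζ
    obtain ⟨⟨n, hn, h1⟩, -⟩ := hζ
    exact orderOf_pos_iff.2 (isOfFinOrder_iff_pow_eq_one.2 ⟨n, hn, h1⟩)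
  · intro q hq f hf y z hy hz hyz
    have hq0 : (q : ℂ) ≠ 0 := by exact_mod_cast hq.ne'
    obtain ⟨N, hN, hrel⟩ := hyz
    obtain ⟨hmon, hdeg, -, -⟩ := hf
    have hx : ∀ i : Fin 2, IsIntegral ℚ ((![y, z] : Fin 2 → ℂ) i) ∧
        (minpoly ℚ ((![y, z] : Fin 2 → ℂ) i)).natDegree ≤ 8 := by
      intro i
      fin_cases i
      · have := root_data hmon hy
        rw [hdeg] at this
        exact this
      · have := root_data hmon hz
        rw [hdeg] at this
        exact this
    obtain ⟨h1, h2⟩ := finrank_adjoin_le (![y, z] : Fin 2 → ℂ) 8 (fun i => (hx i).1)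
      (fun i => (hx i).2) Finset.univ
    have hmem : ∀ i : Fin 2, (![y, z] : Fin 2 → ℂ) i ∈
        IntermediateField.adjoin ℚ ((![y, z] : Fin 2 → ℂ) '' (Finset.univ : Finset (Fin 2))) :=
      fun i => IntermediateField.subset_adjoin _ _ ⟨i, by simp, rfl⟩
    have h3 : y * z / (q : ℂ) ∈
        IntermediateField.adjoin ℚ ((![y, z] : Fin 2 → ℂ) '' (Finset.univ : Finset (Fin 2))) :=
      div_mem (mul_mem (hmem 0) (hmem 1)) (natCast_mem _ q)
    have h4 : y * z / (q : ℂ) ∈ rou 64 := by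
      refine ⟨⟨N, hN, ?_⟩, ?_⟩
      · rw [div_pow, hrel, div_self (pow_ne_zero _ hq0)]
      · refine (natDegree_minpoly_le _ h3).trans (h2.trans ?_)
        simp
    have h5 : orderOf (y * z / (q : ℂ)) ∣ ∏ ζ ∈ (rou_finite 64).toFinset, orderOf ζ :=
      Finset.dvd_prod_of_mem _ ((rou_finite 64).mem_toFinset.2 h4)
    have h6 := orderOf_dvd_iff_pow_eq_one.1 h5
    rw [div_pow, div_eq_one_iff_eq (pow_ne_zero _ hq0)] at h6
    exact h6

end Pool.Agent.H720.EFS
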