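import Pool.Agent.H857.EF.Core2

/-!
# Relations between slope patterns of length four
-/

set_option autoImplicit false

namespace Pool.Agent.H857.EF.One

open Pool.Agent.H857.EF

/-- The possible absolute values of the slopes (times twelve). -/
def v : Fin 4 → ℤ := ![0, 2, 3, 6]

/-- The number of the entries `t`. -/
def ct (A : Fin 4 → Fin 4) (t : Fin 4) : ℕ :=
  (if A 0 = t then 1 else 0) + (if A 1 = t then 1 else 0) + (if A 2 = t then 1 else 0) +
    (if A 3 = t then 1 else 0)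

lemma cases_aux : ∀ a b c d : Fin 4,
    (ct ![a, b, c, d] 1 = 0 ∨ ct ![a, b, c, d] 1 = 3) →
    (ct ![a, b, c, d] 2 = 0 ∨ ct ![a, b, c, d] 2 = 4) →
    ct ![a, b, c, d] 2 = 4 ∨ (ct ![a, b, c, d] 1 = 3 ∧ ct ![a, b, c, d] 3 = 1) ∨
    (ct ![a, b, c, d] 1 = 3 ∧ ct ![a, b, c, d] 0 = 1) ∨ ct ![a, b, c, d] 3 = 4 ∨
    (ct ![a, b, c, d] 3 = 3 ∧ ct ![a, b, c, d] 0 = 1) ∨
    (ct ![a, b, c, d] 3 = 2 ∧ ct ![a, b, c, d] 0 = 2) ∨
    (ct ![a, b, c, d] 3 = 1 ∧ ct ![a, b, c, d] 0 = 3) ∨ ct ![a, b, c, d] 0 = 4 := by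
  decide

lemma eta (A : Fin 4 → Fin 4) : A = ![A 0, A 1, A 2, A 3] := by
  funext i
  fin_cases i <;> rfl

lemma cases (A : Fin 4 → Fin 4) (h1 : ct A 1 = 0 ∨ ct A 1 = 3) (h2 : ct A 2 = 0 ∨ ct A 2 = 4) :
    ct A 2 = 4 ∨ (ct A 1 = 3 ∧ ct A 3 = 1) ∨ (ct A 1 = 3 ∧ ct A 0 = 1) ∨ ct A 3 = 4 ∨
    (ct A 3 = 3 ∧ ct A 0 = 1) ∨ (ct A 3 = 2 ∧ ct A 0 = 2) ∨ (ct A 3 = 1 ∧ ct A 0 = 3) ∨
    ct A 0 = 4 := by
  rw [eta A] at h1 h2 ⊢
  exact cases_aux _ _ _ _ h1 h2

lemma four (A : Fin 4 → Fin 4) (t : Fin 4) (h : ct A t = 4) (i : Fin 4) : A i = t := by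
  unfold ct at h
  fin_cases i <;> by_contra hc <;> simp only [Fin.zero_eta, Fin.mk_one, Fin.reduceFinMk] at hc <;>
    rw [if_neg hc] at h <;> split_ifs at h <;> omega

lemma three_one (A : Fin 4 → Fin 4) (t s : Fin 4) (h : ct A t = 3) (hs : t ≠ s) (j : Fin 4)
    (hj : A j = s) (k : Fin 4) (hk : k ≠ j) : A k = t := by
  have hj' : A j ≠ t := by rw [hj]; exact hs.symm
  unfold ct at h
  fin_cases j <;> fin_cases k <;> first | exact absurd rfl hk | skip
  all_goals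
    by_contra hc
    simp only [Fin.zero_eta, Fin.mk_one, Fin.reduceFinMk] at hc hj'
    rw [if_neg hc, if_neg hj'] at h
    split_ifs at h <;> omega

lemma exists_of_ct (A : Fin 4 → Fin 4) (t : Fin 4) (h : ct A t ≠ 0) : ∃ i, A i = t := by
  by_contra hc
  push Not at hc
  refine h ?_
  unfold ct
  rw [if_neg (hc 0), if_neg (hc 1), if_neg (hc 2), if_neg (hc 3)]

/-- The data. -/
structure Sys (a : Fin 4 → ℤ) (X : Set ((Fin 4 → ℤ) × (Fin 4 → Fin 4))) : Prop where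
  nonneg : ∀ i, 0 ≤ a i
  ne : ∃ i, a i ≠ 0
  par : Even (∑ i, a i)
  nonempty : X.Nonempty
  val : ∀ x ∈ X, ∀ i, x.1 i = v (x.2 i) ∨ x.1 i = -v (x.2 i)
  sum : ∀ x ∈ X, ∑ i, a i * x.1 i = 0
  patt : ∀ x ∈ X, (ct x.2 1 = 0 ∨ ct x.2 1 = 3) ∧ (ct x.2 2 = 0 ∨ ct x.2 2 = 4)
  const : ∀ x ∈ X, ∀ y ∈ X, ∀ t, ct x.2 t = ct y.2 t
  trans : ∀ i j, ∀ x ∈ X, ∃ y ∈ X, y.2 j = x.2 i
  pair : ∀ i j, i ≠ j → a i ≠ 0 → a j ≠ 0 → ∃ x ∈ X, x.1 i + x.1 j ≠ 0
  big : ∀ i, 2 ≤ a i → ∃ x ∈ X, x.1 i ≠ 0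

/-- The conclusion. -/
def Concl (a : Fin 4 → ℤ) (X : Set ((Fin 4 → ℤ) × (Fin 4 → Fin 4))) : Prop :=
  (∀ i, a i ≠ 0) ∧ (∀ i j, a i = a j) ∧ (∀ i, ∃ x ∈ X, x.1 i ≠ 0) ∧
    ∀ i j, i ≠ j → ∃ x ∈ X, x.1 i ≠ x.1 j

lemma pairs (a ε : Fin 4 → ℤ) (c : ℤ) (hc : 0 < c) (ha : ∀ i, 0 ≤ a i)
    (hε : ∀ i, ε i = c ∨ ε i = -c)
    (hs : a 0 * ε 0 + a 1 * ε 1 + a 2 * ε 2 + a 3 * ε 3 = 0) (i j : Fin 4) (hij : i ≠ j)
    (h : ε i + ε j ≠ 0) : 2 * (a i + a j) ≤ a 0 + a 1 + a 2 + a 3 := by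
  have key : ∀ e : Fin 4 → ℤ, (∀ i, e i = 1 ∨ e i = -1) →
      a 0 * e 0 + a 1 * e 1 + a 2 * e 2 + a 3 * e 3 = 0 → e i + e j ≠ 0 →
      2 * (a i + a j) ≤ a 0 + a 1 + a 2 + a 3 := by
    intro e he hse hne
    have a0 := ha 0
    have a1 := ha 1
    have a2 := ha 2
    have a3 := ha 3
    rcases he 0 with h0 | h0 <;> rcases he 1 with h1 | h1 <;> rcases he 2 with h2 | h2 <;>
      rcases he 3 with h3 | h3 <;> rw [h0, h1, h2, h3] at hse <;>
      fin_cases i <;> fin_cases j <;>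
      simp only [Fin.zero_eta, Fin.mk_one, Fin.reduceFinMk, h0, h1, h2, h3] at hne hij ⊢ <;>
      first | exact absurd rfl hij | omega
  have hch : ∀ i, ∃ e : ℤ, (e = 1 ∨ e = -1) ∧ ε i = c * e := by
    intro i
    rcases hε i with h | h
    · exact ⟨1, Or.inl rfl, by rw [h, mul_one]⟩
    · exact ⟨-1, Or.inr rfl, by rw [h]; ring⟩
  choose e he hεe using hch
  refine key e he ?_ ?_
  · rw [hεe, hεe, hεe, hεe] at hs
    have : c * (a 0 * e 0 + a 1 * e 1 + a 2 * e 2 + a 3 * e 3) = 0 := by linear_combination hs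
    rcases mul_eq_zero.1 this with h | h
    · exact absurd h hc.ne'
    · exact h
  · intro h'
    apply h
    rw [hεe, hεe, ← mul_add, h', mul_zero]

/-- All entries have the same nonzero absolute value. -/
lemma case_all {a : Fin 4 → ℤ} {X : Set ((Fin 4 → ℤ) × (Fin 4 → Fin 4))} (hX : Sys a X) {c : ℤ}
    (hc : 0 < c) (hv : ∀ x ∈ X, ∀ i, x.1 i = c ∨ x.1 i = -c) : Concl a X := by
  have a0 := hX.nonneg 0
  have a1 := hX.nonneg 1
  have a2 := hX.nonneg 2
  have a3 := hX.nonneg 3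
  have hsum : ∀ x ∈ X, a 0 * x.1 0 + a 1 * x.1 1 + a 2 * x.1 2 + a 3 * x.1 3 = 0 := by
    intro x hx
    have := hX.sum x hx
    rwa [Fin.sum_univ_four] at this
  have hp : ∀ i j, i ≠ j → a i = 0 ∨ a j = 0 ∨ 2 * (a i + a j) ≤ a 0 + a 1 + a 2 + a 3 := by
    intro i j hij
    by_cases hi : a i = 0
    · exact Or.inl hi
    by_cases hj : a j = 0
    · exact Or.inr (Or.inl hj)
    obtain ⟨x, hx, hxx⟩ := hX.pair i j hij hi hj
    exact Or.inr (Or.inr (pairs a x.1 c hc hX.nonneg (hv x hx) (hsum x hx) i j hij hxx))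
  obtain ⟨x, hx⟩ := hX.nonempty
  have hs1 : ∀ i, (∀ j, j ≠ i → a j = 0) → a i = 0 := by
    intro i hi
    have h1 := hX.sum x hx
    rw [Finset.sum_eq_single i (fun j _ hj => by rw [hi j hj, zero_mul])
      (fun h => absurd (Finset.mem_univ i) h)] at h1
    rcases mul_eq_zero.1 h1 with h | h
    · exact h
    · rcases hv x hx i with h' | h' <;> omega
  have s0 := hs1 0
  have s1 := hs1 1
  have s2 := hs1 2
  have s3 := hs1 3
  have s0' : a 1 = 0 → a 2 = 0 → a 3 = 0 → a 0 = 0 := by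
    intro h1 h2 h3
    refine s0 fun j hj => ?_
    fin_cases j <;> first | exact absurd rfl hj | assumption
  have s1' : a 0 = 0 → a 2 = 0 → a 3 = 0 → a 1 = 0 := by
    intro h1 h2 h3
    refine s1 fun j hj => ?_
    fin_cases j <;> first | exact absurd rfl hj | assumption
  have s2' : a 0 = 0 → a 1 = 0 → a 3 = 0 → a 2 = 0 := by
    intro h1 h2 h3
    refine s2 fun j hj => ?_
    fin_cases j <;> first | exact absurd rfl hj | assumption
  have s3' : a 0 = 0 → a 1 = 0 → a 2 = 0 → a 3 = 0 := by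
    intro h1 h2 h3
    refine s3 fun j hj => ?_
    fin_cases j <;> first | exact absurd rfl hj | assumption
  have p01 := hp 0 1 (by decide)
  have p02 := hp 0 2 (by decide)
  have p03 := hp 0 3 (by decide)
  have p12 := hp 1 2 (by decide)
  have p13 := hp 1 3 (by decide)
  have p23 := hp 2 3 (by decide)
  have hne : a 0 ≠ 0 ∨ a 1 ≠ 0 ∨ a 2 ≠ 0 ∨ a 3 ≠ 0 := by
    obtain ⟨i, hi⟩ := hX.ne
    fin_cases i
    · exact Or.inl hi
    · exact Or.inr (Or.inl hi)
    · exact Or.inr (Or.inr (Or.inl hi))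
    · exact Or.inr (Or.inr (Or.inr hi))
  have hall : a 0 ≠ 0 ∧ a 0 = a 1 ∧ a 0 = a 2 ∧ a 0 = a 3 := by omega
  obtain ⟨h0, h1, h2, h3⟩ := hall
  have heq : ∀ i, a i = a 0 := by
    intro i
    fin_cases i
    · rfl
    · exact h1.symm
    · exact h2.symm
    · exact h3.symm
  refine ⟨fun i => by rw [heq i]; exact h0, fun i j => by rw [heq i, heq j], fun i => ⟨x, hx, ?_⟩,
    fun i j hij => ?_⟩
  · rcases hv x hx i with h' | h' <;> omega
  · by_contra hcon
    push Not at hcon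
    -- the other two indices
    have hex : ∀ i j : Fin 4, i ≠ j → ∃ k, k ≠ i ∧ k ≠ j := by decide
    obtain ⟨k, hki, hkj⟩ := hex i j hij
    obtain ⟨y, hy, hyy⟩ := hX.pair k i hki (by rw [heq k]; exact h0) (by rw [heq i]; exact h0)
    have hy1 := hcon y hy
    have hy2 := hsum y hy
    rw [heq 1, heq 2, heq 3] at hy2
    have hy3 : y.1 0 + y.1 1 + y.1 2 + y.1 3 = 0 := by
      have : a 0 * (y.1 0 + y.1 1 + y.1 2 + y.1 3) = 0 := by linear_combination hy2
      rcases mul_eq_zero.1 this with h | h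
      · exact absurd h h0
      · exact h
    have v0 := hv y hy 0
    have v1 := hv y hy 1
    have v2 := hv y hy 2
    have v3 := hv y hy 3
    fin_cases i <;> fin_cases j <;> fin_cases k <;>
      simp only [Fin.zero_eta, Fin.mk_one, Fin.reduceFinMk] at hij hki hkj hyy hy1 <;>
      first
        | exact absurd rfl hij
        | exact absurd rfl hki
        | exact absurd rfl hkj
        | omega

/-- One entry is large. -/
lemma case_31 {a : Fin 4 → ℤ} {X : Set ((Fin 4 → ℤ) × (Fin 4 → Fin 4))} (hX : Sys a X)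
    (h : ∀ x ∈ X, ct x.2 1 = 3 ∧ ct x.2 3 = 1) : Concl a X := by
  have a0 := hX.nonneg 0
  have a1 := hX.nonneg 1
  have a2 := hX.nonneg 2
  have a3 := hX.nonneg 3
  have hj : ∀ j, ∃ x ∈ X, x.2 j = 3 ∧ ∀ k, k ≠ j → x.2 k = 1 := by
    intro j
    obtain ⟨x, hx⟩ := hX.nonempty
    obtain ⟨i, hi⟩ := exists_of_ct x.2 3 (by rw [(h x hx).2]; norm_num)
    obtain ⟨y, hy, hyj⟩ := hX.trans i j x hx
    rw [hi] at hyj
    exact ⟨y, hy, hyj, three_one y.2 1 3 (h y hy).1 (by decide) j hyj⟩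
  have v3 : v 3 = 6 := rfl
  have v1 : v 1 = 2 := rfl
  have hval3 : ∀ x ∈ X, ∀ j, x.2 j = 3 → x.1 j = 6 ∨ x.1 j = -6 := by
    intro x hx j hj
    have := hX.val x hx j
    rw [hj, v3] at this
    exact this
  have hval1 : ∀ x ∈ X, ∀ j, x.2 j = 1 → x.1 j = 2 ∨ x.1 j = -2 := by
    intro x hx j hj
    have := hX.val x hx j
    rw [hj, v1] at this
    exact this
  have key : ∀ j, 4 * a j ≤ a 0 + a 1 + a 2 + a 3 := by
    intro j
    obtain ⟨x, hx, hxj, hxk⟩ := hj j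
    have hs := hX.sum x hx
    rw [Fin.sum_univ_four] at hs
    have hv : ∀ k, (k = j ∧ (x.1 k = 6 ∨ x.1 k = -6)) ∨ (k ≠ j ∧ (x.1 k = 2 ∨ x.1 k = -2)) := by
      intro k
      by_cases hk : k = j
      · subst hk
        exact Or.inl ⟨rfl, hval3 x hx k hxj⟩
      · exact Or.inr ⟨hk, hval1 x hx k (hxk k hk)⟩
    have h0 := hv 0
    have h1 := hv 1
    have h2 := hv 2
    have h3 := hv 3
    fin_cases j <;>
      simp only [Fin.zero_eta, Fin.mk_one, Fin.reduceFinMk, Fin.isValue, ne_eq, not_true_eq_false,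
        false_and, or_false, true_and, Fin.reduceEq, not_false_eq_true, false_or,
        zero_ne_one, one_ne_zero] at h0 h1 h2 h3 ⊢ <;>
      rcases h0 with h0 | h0 <;> rcases h1 with h1 | h1 <;> rcases h2 with h2 | h2 <;>
      rcases h3 with h3 | h3 <;> rw [h0, h1, h2, h3] at hs <;> omega
  have k0 := key 0
  have k1 := key 1
  have k2 := key 2
  have k3 := key 3
  have hne : a 0 ≠ 0 ∨ a 1 ≠ 0 ∨ a 2 ≠ 0 ∨ a 3 ≠ 0 := by
    obtain ⟨i, hi⟩ := hX.ne
    fin_cases i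
    · exact Or.inl hi
    · exact Or.inr (Or.inl hi)
    · exact Or.inr (Or.inr (Or.inl hi))
    · exact Or.inr (Or.inr (Or.inr hi))
  have hall : a 0 ≠ 0 ∧ a 0 = a 1 ∧ a 0 = a 2 ∧ a 0 = a 3 := by omega
  obtain ⟨h0, h1, h2, h3⟩ := hall
  have heq : ∀ i, a i = a 0 := by
    intro i
    fin_cases i
    · rfl
    · exact h1.symm
    · exact h2.symm
    · exact h3.symm
  refine ⟨fun i => by rw [heq i]; exact h0, fun i j => by rw [heq i, heq j], fun i => ?_,
    fun i j hij => ?_⟩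
  · obtain ⟨x, hx, hxi, -⟩ := hj i
    refine ⟨x, hx, ?_⟩
    rcases hval3 x hx i hxi with h | h <;> omega
  · obtain ⟨x, hx, hxi, hxk⟩ := hj i
    refine ⟨x, hx, ?_⟩
    have e1 := hval3 x hx i hxi
    have e2 := hval1 x hx j (hxk j hij.symm)
    omega

/-- One entry is zero and the others are not. -/
lemma case_30 {a : Fin 4 → ℤ} {X : Set ((Fin 4 → ℤ) × (Fin 4 → Fin 4))} (hX : Sys a X)
    (t : Fin 4) (ht : t ≠ 0) (h : ∀ x ∈ X, ct x.2 t = 3 ∧ ct x.2 0 = 1) : Concl a X := by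
  exfalso
  have a0 := hX.nonneg 0
  have a1 := hX.nonneg 1
  have a2 := hX.nonneg 2
  have a3 := hX.nonneg 3
  have hj : ∀ j, ∃ x ∈ X, x.2 j = 0 ∧ ∀ k, k ≠ j → x.2 k = t := by
    intro j
    obtain ⟨x, hx⟩ := hX.nonempty
    obtain ⟨i, hi⟩ := exists_of_ct x.2 0 (by rw [(h x hx).2]; norm_num)
    obtain ⟨y, hy, hyj⟩ := hX.trans i j x hx
    rw [hi] at hyj
    exact ⟨y, hy, hyj, three_one y.2 t 0 (h y hy).1 ht j hyj⟩
  have v0 : v 0 = 0 := rfl
  have vt : ∃ c : ℤ, 0 < c ∧ v t = c := by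
    refine ⟨v t, ?_, rfl⟩
    fin_cases t
    · exact absurd rfl ht
    · decide
    · decide
    · decide
  obtain ⟨c, hc, hvt⟩ := vt
  have key : ∀ j, ∃ e : Fin 4 → ℤ, e j = 0 ∧ (∀ k, k ≠ j → e k = 1 ∨ e k = -1) ∧
      a 0 * e 0 + a 1 * e 1 + a 2 * e 2 + a 3 * e 3 = 0 := by
    intro j
    obtain ⟨x, hx, hxj, hxk⟩ := hj j
    have hs := hX.sum x hx
    rw [Fin.sum_univ_four] at hs
    have hv : ∀ k, ∃ e : ℤ, x.1 k = c * e ∧ (k = j → e = 0) ∧ (k ≠ j → e = 1 ∨ e = -1) := by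
      intro k
      by_cases hk : k = j
      · subst hk
        refine ⟨0, ?_, fun _ => rfl, fun h => absurd rfl h⟩
        have := hX.val x hx k
        rw [hxj, v0] at this
        rw [mul_zero]
        omega
      · have := hX.val x hx k
        rw [hxk k hk, hvt] at this
        rcases this with h' | h'
        · exact ⟨1, by rw [h', mul_one], fun h => absurd h hk, fun _ => Or.inl rfl⟩
        · exact ⟨-1, by rw [h']; ring, fun h => absurd h hk, fun _ => Or.inr rfl⟩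
    choose e he1 he2 he3 using hv
    refine ⟨e, he2 j rfl, he3, ?_⟩
    rw [he1, he1, he1, he1] at hs
    have : c * (a 0 * e 0 + a 1 * e 1 + a 2 * e 2 + a 3 * e 3) = 0 := by linear_combination hs
    rcases mul_eq_zero.1 this with h | h
    · exact absurd h hc.ne'
    · exact h
  have r0 : a 1 = a 2 + a 3 ∨ a 2 = a 1 + a 3 ∨ a 3 = a 1 + a 2 := by
    obtain ⟨e, he0, he, hs⟩ := key 0
    rcases he 1 (by decide) with h1 | h1 <;> rcases he 2 (by decide) with h2 | h2 <;>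
      rcases he 3 (by decide) with h3 | h3 <;> rw [he0, h1, h2, h3] at hs <;> omega
  have r1 : a 0 = a 2 + a 3 ∨ a 2 = a 0 + a 3 ∨ a 3 = a 0 + a 2 := by
    obtain ⟨e, he0, he, hs⟩ := key 1
    rcases he 0 (by decide) with h1 | h1 <;> rcases he 2 (by decide) with h2 | h2 <;>
      rcases he 3 (by decide) with h3 | h3 <;> rw [he0, h1, h2, h3] at hs <;> omega
  have r2 : a 0 = a 1 + a 3 ∨ a 1 = a 0 + a 3 ∨ a 3 = a 0 + a 1 := by
    obtain ⟨e, he0, he, hs⟩ := key 2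
    rcases he 0 (by decide) with h1 | h1 <;> rcases he 1 (by decide) with h2 | h2 <;>
      rcases he 3 (by decide) with h3 | h3 <;> rw [he0, h1, h2, h3] at hs <;> omega
  have r3 : a 0 = a 1 + a 2 ∨ a 1 = a 0 + a 2 ∨ a 2 = a 0 + a 1 := by
    obtain ⟨e, he0, he, hs⟩ := key 3
    rcases he 0 (by decide) with h1 | h1 <;> rcases he 1 (by decide) with h2 | h2 <;>
      rcases he 2 (by decide) with h3 | h3 <;> rw [he0, h1, h2, h3] at hs <;> omega
  have hne : a 0 ≠ 0 ∨ a 1 ≠ 0 ∨ a 2 ≠ 0 ∨ a 3 ≠ 0 := by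
    obtain ⟨i, hi⟩ := hX.ne
    fin_cases i
    · exact Or.inl hi
    · exact Or.inr (Or.inl hi)
    · exact Or.inr (Or.inr (Or.inl hi))
    · exact Or.inr (Or.inr (Or.inr hi))
  omega

/-- One entry is not zero and the others are. -/
lemma case_13 {a : Fin 4 → ℤ} {X : Set ((Fin 4 → ℤ) × (Fin 4 → Fin 4))} (hX : Sys a X)
    (h : ∀ x ∈ X, ct x.2 3 = 1 ∧ ct x.2 0 = 3) : Concl a X := by
  exfalso
  obtain ⟨j, haj⟩ := hX.ne
  obtain ⟨x, hx⟩ := hX.nonempty
  obtain ⟨i, hi⟩ := exists_of_ct x.2 3 (by rw [(h x hx).1]; norm_num)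
  obtain ⟨y, hy, hyj⟩ := hX.trans i j x hx
  rw [hi] at hyj
  have h0 := three_one y.2 0 3 (h y hy).2 (by decide) j hyj
  have hs := hX.sum y hy
  rw [Finset.sum_eq_single j] at hs
  · rcases mul_eq_zero.1 hs with h1 | h1
    · exact haj h1
    · have := hX.val y hy j
      rw [hyj, show v 3 = 6 from rfl] at this
      omega
  · intro k _ hk
    have := hX.val y hy k
    rw [h0 k hk, show v 0 = 0 from rfl] at this
    have h1 : y.1 k = 0 := by omega
    rw [h1, mul_zero]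
  · intro h
    exact absurd (Finset.mem_univ j) h

/-- All entries are zero. -/
lemma case_0 {a : Fin 4 → ℤ} {X : Set ((Fin 4 → ℤ) × (Fin 4 → Fin 4))} (hX : Sys a X)
    (h : ∀ x ∈ X, ct x.2 0 = 4) : Concl a X := by
  exfalso
  have hz : ∀ x ∈ X, ∀ i, x.1 i = 0 := by
    intro x hx i
    have := hX.val x hx i
    rw [four x.2 0 (h x hx) i, show v 0 = 0 from rfl] at this
    omega
  have h1 : ∀ i, a i ≤ 1 := by
    intro i
    by_contra hc
    obtain ⟨x, hx, hxi⟩ := hX.big i (by omega)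
    exact hxi (hz x hx i)
  have h2 : ∀ i j, i ≠ j → a i = 0 ∨ a j = 0 := by
    intro i j hij
    by_contra hc
    push Not at hc
    obtain ⟨x, hx, hxi⟩ := hX.pair i j hij hc.1 hc.2
    rw [hz x hx i, hz x hx j] at hxi
    exact hxi rfl
  obtain ⟨i, hi⟩ := hX.ne
  have h3 : ∀ j, j ≠ i → a j = 0 := fun j hj => (h2 j i hj).resolve_right hi
  have h4 := hX.par
  rw [Finset.sum_eq_single i (fun j _ hj => h3 j hj) (fun h => absurd (Finset.mem_univ i) h)] at h4
  have h5 := h1 i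
  have h6 := hX.nonneg i
  obtain ⟨r, hr⟩ := h4
  omega

lemma two_two (A : Fin 4 → Fin 4) (h3 : ct A 3 = 2) (h0 : ct A 0 = 2) (i : Fin 4) :
    A i = 0 ∨ A i = 3 := by
  unfold ct at h3 h0
  by_contra hc
  push Not at hc
  fin_cases i <;> simp only [Fin.zero_eta, Fin.mk_one, Fin.reduceFinMk] at hc <;>
    rw [if_neg hc.1] at h0 <;> rw [if_neg hc.2] at h3 <;> split_ifs at h0 h3 <;>
    omega

lemma partner (A : Fin 4 → Fin 4) (h3 : ct A 3 = 2) (i : Fin 4) (hi : A i = 3) :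
    ∃ j, j ≠ i ∧ A j = 3 ∧ ∀ k, k ≠ i → k ≠ j → A k ≠ 3 := by
  unfold ct at h3
  have hex : ∃ j, j ≠ i ∧ A j = 3 := by
    by_contra hc
    push Not at hc
    have c0 := hc 0
    have c1 := hc 1
    have c2 := hc 2
    have c3 := hc 3
    fin_cases i <;>
      simp only [Fin.zero_eta, Fin.mk_one, Fin.reduceFinMk, Fin.isValue, ne_eq, not_true_eq_false,
        IsEmpty.forall_iff, Fin.reduceEq, not_false_eq_true, forall_const,
        zero_ne_one, one_ne_zero] at hi c0 c1 c2 c3 <;>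
      simp only [hi, c0, c1, c2, c3, if_true, if_false] at h3 <;> omega
  obtain ⟨j, hji, hj⟩ := hex
  refine ⟨j, hji, hj, fun k hki hkj hk => ?_⟩
  have d0 : ∀ P : Prop, [Decidable P] → 0 ≤ (if P then 1 else 0 : ℕ) := fun P _ => Nat.zero_le _
  fin_cases i <;> fin_cases j <;> fin_cases k <;>
    first
      | exact absurd rfl hji
      | exact absurd rfl hki
      | exact absurd rfl hkj
      | skip
  all_goals
    simp only [Fin.zero_eta, Fin.mk_one, Fin.reduceFinMk, Fin.isValue] at hi hj hk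
    rw [if_pos hi, if_pos hj, if_pos hk] at h3
    omega

/-- Two entries are zero and two are not. -/
lemma case_22 {a : Fin 4 → ℤ} {X : Set ((Fin 4 → ℤ) × (Fin 4 → Fin 4))} (hX : Sys a X)
    (h : ∀ x ∈ X, ct x.2 3 = 2 ∧ ct x.2 0 = 2) : Concl a X := by
  have hval3 : ∀ x ∈ X, ∀ j, x.2 j = 3 → x.1 j = 6 ∨ x.1 j = -6 := by
    intro x hx j hj
    have := hX.val x hx j
    rw [hj, show v 3 = 6 from rfl] at this
    exact this
  have hval0 : ∀ x ∈ X, ∀ j, x.2 j ≠ 3 → x.1 j = 0 := by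
    intro x hx j hj
    have := hX.val x hx j
    rw [(two_two x.2 (h x hx).1 (h x hx).2 j).resolve_right hj, show v 0 = 0 from rfl] at this
    omega
  -- the relation
  have hrel : ∀ x ∈ X, ∀ i j, j ≠ i → x.2 i = 3 → x.2 j = 3 →
      (∀ k, k ≠ i → k ≠ j → x.2 k ≠ 3) → a i * x.1 i + a j * x.1 j = 0 := by
    intro x hx i j hji hi hj hk
    have hs := hX.sum x hx
    rw [← Finset.sum_subset (Finset.subset_univ {i, j})] at hs
    · rw [Finset.sum_pair hji.symm] at hs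
      exact hs
    · intro k _ hk'
      simp only [Finset.mem_insert, Finset.mem_singleton, not_or] at hk'
      rw [hval0 x hx k (hk k hk'.1 hk'.2), mul_zero]
  have haeq : ∀ x ∈ X, ∀ i j, j ≠ i → x.2 i = 3 → x.2 j = 3 →
      (∀ k, k ≠ i → k ≠ j → x.2 k ≠ 3) → a i = a j := by
    intro x hx i j hji hi hj hk
    have h1 := hrel x hx i j hji hi hj hk
    have h2 := hX.nonneg i
    have h3 := hX.nonneg j
    rcases hval3 x hx i hi with h4 | h4 <;> rcases hval3 x hx j hj with h5 | h5 <;>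
      rw [h4, h5] at h1 <;> omega
  have htr : ∀ j, ∃ x ∈ X, x.2 j = 3 := by
    intro j
    obtain ⟨x, hx⟩ := hX.nonempty
    obtain ⟨i, hi⟩ := exists_of_ct x.2 3 (by rw [(h x hx).1]; norm_num)
    obtain ⟨y, hy, hyj⟩ := hX.trans i j x hx
    rw [hi] at hyj
    exact ⟨y, hy, hyj⟩
  obtain ⟨i0, hi0⟩ := hX.ne
  obtain ⟨x, hx, hxi⟩ := htr i0
  obtain ⟨j, hji, hxj, hxk⟩ := partner x.2 (h x hx).1 i0 hxi
  have haj : a i0 = a j := haeq x hx i0 j hji hxi hxj hxk
  have haj0 : a j ≠ 0 := haj ▸ hi0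
  obtain ⟨y, hy, hyy⟩ := hX.pair i0 j hji.symm hi0 haj0
  -- a third index
  have hk : ∃ k, k ≠ i0 ∧ k ≠ j ∧ a k = a i0 := by
    have hno : ¬ (y.2 i0 = 3 ∧ y.2 j = 3) := by
      rintro ⟨h1, h2⟩
      obtain ⟨j', hj', h3, h4⟩ := partner y.2 (h y hy).1 i0 h1
      have hjj : j = j' := by
        by_contra hc
        exact h4 j hji hc h2
      subst hjj
      have h5 := hrel y hy i0 j hji h1 h2 h4
      rw [← haj, ← mul_add] at h5
      rcases mul_eq_zero.1 h5 with h6 | h6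
      · exact hi0 h6
      · exact hyy h6
    by_cases h1 : y.2 i0 = 3
    · obtain ⟨k, hk, h3, h4⟩ := partner y.2 (h y hy).1 i0 h1
      refine ⟨k, hk, ?_, (haeq y hy i0 k hk h1 h3 h4).symm⟩
      rintro rfl
      exact hno ⟨h1, h3⟩
    · have h2 : y.2 j = 3 := by
        by_contra h2
        rw [hval0 y hy i0 h1, hval0 y hy j h2] at hyy
        exact hyy rfl
      obtain ⟨k, hk, h3, h4⟩ := partner y.2 (h y hy).1 j h2
      refine ⟨k, ?_, hk, by rw [haj]; exact (haeq y hy j k hk h2 h3 h4).symm⟩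
      rintro rfl
      exact h1 h3
  obtain ⟨k, hki, hkj, hak⟩ := hk
  have heq : ∀ m, a m = a i0 := by
    intro m
    by_cases hm1 : m = i0
    · rw [hm1]
    by_cases hm2 : m = j
    · rw [hm2, haj]
    by_cases hm3 : m = k
    · rw [hm3, hak]
    obtain ⟨z, hz, hzm⟩ := htr m
    obtain ⟨n, hnm, hn3, hn4⟩ := partner z.2 (h z hz).1 m hzm
    have han : a m = a n := haeq z hz m n hnm hzm hn3 hn4
    have hfin : n = i0 ∨ n = j ∨ n = k := by
      have h1 := i0.isLt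
      have h2 := j.isLt
      have h3 := k.isLt
      have h4 := m.isLt
      have h5 := n.isLt
      simp only [Fin.ext_iff, ne_eq] at *
      omega
    rcases hfin with rfl | rfl | rfl
    · exact han
    · rw [han, haj]
    · rw [han, hak]
  refine ⟨fun i => by rw [heq i]; exact hi0, fun i j => by rw [heq i, heq j], fun i => ?_,
    fun i j hij => ?_⟩
  · obtain ⟨x, hx, hxi⟩ := htr i
    refine ⟨x, hx, ?_⟩
    rcases hval3 x hx i hxi with h | h <;> omega
  · obtain ⟨x, hx, hxi⟩ := htr i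
    refine ⟨x, hx, ?_⟩
    intro hc
    have h1 := hval3 x hx i hxi
    by_cases hxj : x.2 j = 3
    · obtain ⟨j', hj', h3, h4⟩ := partner x.2 (h x hx).1 i hxi
      have hjj : j = j' := by
        by_contra hc
        exact h4 j hij.symm hc hxj
      subst hjj
      have h5 := hrel x hx i j hij.symm hxi hxj h4
      rw [← hc, heq i, heq j, ← mul_add] at h5
      rcases mul_eq_zero.1 h5 with h6 | h6
      · exact hi0 h6
      · omega
    · have h2 := hval0 x hx j hxj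
      omega

/-- The result for integers. -/
lemma main_int {a : Fin 4 → ℤ} {X : Set ((Fin 4 → ℤ) × (Fin 4 → Fin 4))} (hX : Sys a X) :
    Concl a X := by
  obtain ⟨x, hx⟩ := hX.nonempty
  have hct : ∀ y ∈ X, ∀ t, ct y.2 t = ct x.2 t := fun y hy t => hX.const y hy x hx t
  rcases cases x.2 (hX.patt x hx).1 (hX.patt x hx).2 with
    h | ⟨h, h'⟩ | ⟨h, h'⟩ | h | ⟨h, h'⟩ | ⟨h, h'⟩ | ⟨h, h'⟩ | h
  · refine case_all hX (c := 3) (by norm_num) fun y hy i => ?_
    have := hX.val y hy i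
    rwa [four y.2 2 (by rw [hct y hy, h]) i, show v 2 = 3 from rfl] at this
  · exact case_31 hX fun y hy => ⟨by rw [hct y hy, h], by rw [hct y hy, h']⟩
  · exact case_30 hX 1 (by decide) fun y hy => ⟨by rw [hct y hy, h], by rw [hct y hy, h']⟩
  · refine case_all hX (c := 6) (by norm_num) fun y hy i => ?_
    have := hX.val y hy i
    rwa [four y.2 3 (by rw [hct y hy, h]) i, show v 3 = 6 from rfl] at this
  · exact case_30 hX 3 (by decide) fun y hy => ⟨by rw [hct y hy, h], by rw [hct y hy, h']⟩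
  · exact case_22 hX fun y hy => ⟨by rw [hct y hy, h], by rw [hct y hy, h']⟩
  · exact case_13 hX fun y hy => ⟨by rw [hct y hy, h], by rw [hct y hy, h']⟩
  · exact case_0 hX fun y hy => by rw [hct y hy, h]

/-- The possible absolute values of the slopes. -/
noncomputable def w (t : Fin 4) : ℝ := (v t : ℝ) / 12

lemma v_inj : ∀ s t : Fin 4, v s = v t → s = t := by decide

lemma w_inj : Function.Injective w := by
  intro s t h
  unfold w at h
  have h1 : (v s : ℝ) = v t := by linarith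
  exact v_inj s t (by exact_mod_cast h1)

lemma abs_cases {l : Fin 4 → ℝ} (hl : IntPat l) (i : Fin 4) :
    |l i| = 0 ∨ |l i| = 1 / 2 ∨ (|l i| = 1 / 6 ∧ cnt l (1 / 6) = 3) ∨
      (|l i| = 1 / 4 ∧ cnt l (1 / 4) = 4) := by
  classical
  rcases eq_or_lt_of_le (abs_nonneg (l i)) with h0 | h0
  · exact Or.inl h0.symm
  right
  have h1 := hl.1 i
  obtain ⟨n, hn⟩ := hl.2 _ h0
  have hm1 : 0 < cnt l |l i| := by
    unfold cnt
    exact Finset.card_pos.2 ⟨i, Finset.mem_filter.2 ⟨Finset.mem_univ _, rfl⟩⟩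
  have hm4 : cnt l |l i| ≤ 4 := by
    unfold cnt
    exact (Finset.card_le_univ _).trans (by rw [Fintype.card_fin])
  set c := |l i| with hc
  set m := cnt l c with hm
  have hmR : (0 : ℝ) < m := by exact_mod_cast hm1
  have hn0 : 0 ≤ n := by
    have : (0 : ℝ) ≤ n := by
      rw [← hn]
      exact mul_nonneg (by linarith) hmR.le
    exact_mod_cast this
  have hn1 : 2 * n < m := by
    have : 2 * (n : ℝ) < m := by
      rw [← hn]
      nlinarith
    exact_mod_cast this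
  have hcases : n = 0 ∨ (n = 1 ∧ (m = 3 ∨ m = 4)) := by omega
  rcases hcases with hn' | ⟨hn', hm' | hm'⟩
  · left
    rw [hn', Int.cast_zero] at hn
    rcases mul_eq_zero.1 hn with h | h
    · linarith
    · exact absurd h hmR.ne'
  · right
    left
    rw [hn', hm'] at hn
    push_cast at hn
    have hc6 : c = 1 / 6 := by linarith
    exact ⟨hc6, by rw [← hc6, ← hm, hm']⟩
  · right
    right
    rw [hn', hm'] at hn
    push_cast at hn
    have hc4 : c = 1 / 4 := by linarith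
    exact ⟨hc4, by rw [← hc4, ← hm, hm']⟩

lemma exists_type {l : Fin 4 → ℝ} (hl : IntPat l) : ∃ A : Fin 4 → Fin 4, ∀ i, |l i| = w (A i) := by
  have : ∀ i, ∃ t : Fin 4, |l i| = w t := by
    intro i
    rcases abs_cases hl i with h | h | ⟨h, -⟩ | ⟨h, -⟩
    · exact ⟨0, by rw [h, w, show v 0 = 0 from rfl]; norm_num⟩
    · exact ⟨3, by rw [h, w, show v 3 = 6 from rfl]; norm_num⟩
    · exact ⟨1, by rw [h, w, show v 1 = 2 from rfl]; norm_num⟩
    · exact ⟨2, by rw [h, w, show v 2 = 3 from rfl]; norm_num⟩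
  choose A hA using this
  exact ⟨A, hA⟩

lemma cnt_eq {l : Fin 4 → ℝ} {A : Fin 4 → Fin 4} (hA : ∀ i, |l i| = w (A i)) (t : Fin 4) :
    cnt l (w t) = ct A t := by
  classical
  unfold cnt ct
  rw [Finset.card_filter, Fin.sum_univ_four]
  simp only [hA, w_inj.eq_iff]

/-- The sign, with the sign `1` for zero. -/
def sg (n : ℤ) : ℤ := if n < 0 then -1 else 1

lemma sg_mul (n : ℤ) : |n| * sg n = n := by
  unfold sg
  split_ifs with h
  · rw [abs_of_neg h]; ring
  · rw [abs_of_nonneg (by omega)]; ring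

lemma sg_cases (n : ℤ) : sg n = 1 ∨ sg n = -1 := by
  unfold sg
  split_ifs
  · exact Or.inr rfl
  · exact Or.inl rfl

lemma sg_eq_sign {n : ℤ} (h : n ≠ 0) : sg n = n.sign := by
  unfold sg
  split_ifs with h1
  · rw [Int.sign_eq_neg_one_of_neg h1]
  · rw [Int.sign_eq_one_of_pos (by omega)]

theorem s1m : S1m := by
  intro Λ hne hpat hcnt htr e he0 hrel hpar hpair hbig
  -- the integral data
  let X : Set ((Fin 4 → ℤ) × (Fin 4 → Fin 4)) :=
    {x | ∃ l ∈ Λ, (∀ i, 12 * l i * sg (e i) = x.1 i) ∧ ∀ i, |l i| = w (x.2 i)}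
  have hdat : ∀ l ∈ Λ, ∃ x ∈ X, (∀ i, 12 * l i * sg (e i) = x.1 i) ∧ ∀ i, |l i| = w (x.2 i) := by
    intro l hl
    obtain ⟨A, hA⟩ := exists_type (hpat l hl)
    have : ∀ i, ∃ z : ℤ, 12 * l i * sg (e i) = z := by
      intro i
      have h1 : |l i| = (v (A i) : ℝ) / 12 := hA i
      rcases abs_eq (abs_nonneg (l i)) |>.1 rfl with h2 | h2
      · rw [h2, h1]
        exact ⟨v (A i) * sg (e i), by push_cast; ring⟩
      · rw [h2, h1]
        exact ⟨-v (A i) * sg (e i), by push_cast; ring⟩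
    choose M hM using this
    exact ⟨(M, A), ⟨l, hl, hM, hA⟩, hM, hA⟩
  have hsgR : ∀ i, ((sg (e i) : ℤ) : ℝ) = 1 ∨ ((sg (e i) : ℤ) : ℝ) = -1 := by
    intro i
    rcases sg_cases (e i) with h | h
    · left; rw [h]; norm_num
    · right; rw [h]; norm_num
  have hzero : ∀ x : (Fin 4 → ℤ) × (Fin 4 → Fin 4), ∀ l : Fin 4 → ℝ,
      (∀ i, 12 * l i * sg (e i) = x.1 i) → ∀ i, (x.1 i = 0 ↔ l i = 0) := by
    intro x l h i
    have h1 := h i
    constructor
    · intro h2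
      rw [h2, Int.cast_zero] at h1
      rcases hsgR i with h3 | h3 <;> rw [h3] at h1 <;> linarith
    · intro h2
      rw [h2, mul_zero, zero_mul] at h1
      exact_mod_cast h1.symm
  have hX : Sys (fun i => |e i|) X := by
    refine ⟨fun i => abs_nonneg _, ?_, ?_, ?_, ?_, ?_, ?_, ?_, ?_, ?_, ?_⟩
    · obtain ⟨i, hi⟩ := he0
      exact ⟨i, abs_ne_zero.2 hi⟩
    · -- parity
      have h1 : ∀ n : ℤ, ∃ k, |n| = n + 2 * k := by
        intro n
        rcases abs_choice n with h | h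
        · exact ⟨0, by rw [h]; ring⟩
        · exact ⟨-n, by rw [h]; ring⟩
      choose k hk using h1
      rw [Finset.sum_congr rfl fun i _ => hk (e i), Finset.sum_add_distrib, ← Finset.mul_sum]
      exact hpar.add (even_two_mul _)
    · obtain ⟨l, hl⟩ := hne
      obtain ⟨x, hx, -⟩ := hdat l hl
      exact ⟨x, hx⟩
    · rintro x ⟨l, hl, h1, h2⟩ i
      have h3 := h1 i
      have h4 : |l i| = (v (x.2 i) : ℝ) / 12 := h2 i
      have h5 : |(x.1 i : ℝ)| = v (x.2 i) := by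
        rw [← h3, abs_mul, abs_mul, h4]
        have h6 : |((sg (e i) : ℤ) : ℝ)| = 1 := by
          rcases hsgR i with h | h
          · rw [h]; norm_num
          · rw [h]; norm_num
        rw [h6, abs_of_pos (by norm_num : (0 : ℝ) < 12)]
        ring
      rcases abs_choice (x.1 i : ℝ) with h6 | h6
      · left
        rw [h6] at h5
        exact_mod_cast h5
      · right
        rw [h6] at h5
        have h7 : (x.1 i : ℝ) = -(v (x.2 i) : ℝ) := by linarith
        exact_mod_cast h7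
    · rintro x ⟨l, hl, h1, h2⟩
      have h3 := hrel l hl
      have h4 : ((∑ i, |e i| * x.1 i : ℤ) : ℝ) = 12 * ∑ i, (e i : ℝ) * l i := by
        rw [Int.cast_sum, Finset.mul_sum]
        refine Finset.sum_congr rfl fun i _ => ?_
        rw [Int.cast_mul, ← h1 i]
        have h5 : ((|e i| : ℤ) : ℝ) * ((sg (e i) : ℤ) : ℝ) = (e i : ℝ) := by
          exact_mod_cast sg_mul (e i)
        linear_combination (12 * l i) * h5
      rw [h3, mul_zero] at h4
      exact_mod_cast h4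
    · rintro x ⟨l, hl, h1, h2⟩
      have h6 : w 1 = 1 / 6 := by rw [w, show v 1 = 2 from rfl]; norm_num
      have h4 : w 2 = 1 / 4 := by rw [w, show v 2 = 3 from rfl]; norm_num
      constructor
      · by_cases hc : ct x.2 1 = 0
        · exact Or.inl hc
        right
        obtain ⟨i, hi⟩ := exists_of_ct x.2 1 hc
        have h3 : |l i| = 1 / 6 := by rw [h2 i, hi, h6]
        rw [← cnt_eq h2, h6]
        rcases abs_cases (hpat l hl) i with h | h | ⟨-, h⟩ | ⟨h, -⟩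
        · rw [h3] at h; norm_num at h
        · rw [h3] at h; norm_num at h
        · exact h
        · rw [h3] at h; norm_num at h
      · by_cases hc : ct x.2 2 = 0
        · exact Or.inl hc
        right
        obtain ⟨i, hi⟩ := exists_of_ct x.2 2 hc
        have h3 : |l i| = 1 / 4 := by rw [h2 i, hi, h4]
        rw [← cnt_eq h2, h4]
        rcases abs_cases (hpat l hl) i with h | h | ⟨h, -⟩ | ⟨-, h⟩
        · rw [h3] at h; norm_num at h
        · rw [h3] at h; norm_num at h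
        · rw [h3] at h; norm_num at h
        · exact h
    · rintro x ⟨l, hl, h1, h2⟩ y ⟨l', hl', h1', h2'⟩ t
      rw [← cnt_eq h2, ← cnt_eq h2', hcnt l hl l' hl']
    · rintro i j x ⟨l, hl, h1, h2⟩
      obtain ⟨l', hl', h3⟩ := htr i j l hl
      obtain ⟨y, hy, h4, h5⟩ := hdat l' hl'
      refine ⟨y, hy, w_inj ?_⟩
      rw [← h5 j, ← h2 i, h3]
    · intro i j hij hi hj
      obtain ⟨l, hl, h1⟩ := hpair i j hij (abs_ne_zero.1 hi) (abs_ne_zero.1 hj)
      obtain ⟨x, hx, h2, h3⟩ := hdat l hl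
      refine ⟨x, hx, fun hc => h1 ?_⟩
      rw [← sg_eq_sign (abs_ne_zero.1 hi), ← sg_eq_sign (abs_ne_zero.1 hj)]
      have h4 : (x.1 i : ℝ) + x.1 j = 0 := by exact_mod_cast hc
      rw [← h2 i, ← h2 j] at h4
      linarith
    · intro i hi
      obtain ⟨l, hl, h1⟩ := hbig i hi
      obtain ⟨x, hx, h2, h3⟩ := hdat l hl
      exact ⟨x, hx, fun hc => h1 ((hzero x l h2 i).1 hc)⟩
  obtain ⟨c1, c2, c3, c4⟩ := main_int hX
  refine ⟨fun i => abs_ne_zero.1 (c1 i), c2, fun i => ?_, fun i j hij => ?_⟩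
  · obtain ⟨x, ⟨l, hl, h1, h2⟩, hx⟩ := c3 i
    exact ⟨l, hl, fun hc => hx ((hzero x l h1 i).2 hc)⟩
  · obtain ⟨x, ⟨l, hl, h1, h2⟩, hx⟩ := c4 i j hij
    refine ⟨l, hl, fun hc => hx ?_⟩
    rw [← sg_eq_sign (abs_ne_zero.1 (c1 i)), ← sg_eq_sign (abs_ne_zero.1 (c1 j))] at hc
    have h4 : (x.1 i : ℝ) = x.1 j := by
      rw [← h1 i, ← h1 j]
      linarith
    exact_mod_cast h4

theorem s1 : S1 := by
  intro Λ hne hpat hcnt htr e he0 hrel hpar hpair hbig
  obtain ⟨h1, h2, h3, -⟩ := s1m Λ hne hpat hcnt htr e he0 hrel hpar hpair hbig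
  exact ⟨h1, h2, h3⟩

end Pool.Agent.H857.EF.One
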