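import Pool.Agent.H857.EF.Core

/-!
The polynomial with the `m`-th powers of the roots of a monic integral polynomial is integral.
-/

set_option autoImplicit false

namespace Pool.Agent.H857.EF

open Module Polynomial Pool.Agent.W521.Descent Pool.Agent.W521.Density Pool.Agent.W521.Count
  Pool.Agent.X297.UB Pool.Agent.H857.PB Pool.Agent.H857.PA Pool.Agent.H857.HK

namespace S13P

section

variable {ι : Type} [Fintype ι] [DecidableEq ι] {K : Type} [Field K] [IsAlgClosed K]

lemma charpoly_prod (A : Matrix ι ι K) :
    A.charpoly = (A.charpoly.roots.map fun a => X - C a).prod :=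
  (IsAlgClosed.splits A.charpoly).eq_prod_roots_of_monic A.charpoly_monic

lemma card_roots' (A : Matrix ι ι K) : A.charpoly.roots.card = Fintype.card ι := by
  rw [← (IsAlgClosed.splits A.charpoly).natDegree_eq_card_roots, A.charpoly_natDegree_eq_dim]

lemma det_scalar_sub (A : Matrix ι ι K) (r : K) :
    (Matrix.scalar ι r - A).det = (A.charpoly.roots.map fun a => r - a).prod := by
  rw [← Matrix.eval_charpoly]
  conv_lhs => rw [charpoly_prod A]
  rw [eval_multiset_prod, Multiset.map_map]
  congr 1
  refine Multiset.map_congr rfl fun a _ => ?_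
  simp

omit [IsAlgClosed K] in
lemma prod_neg_map (s : Multiset K) (f : K → K) :
    (s.map fun a => - f a).prod = (-1) ^ s.card * (s.map f).prod := by
  induction s using Multiset.induction_on with
  | empty => simp
  | cons a s ih => rw [Multiset.map_cons, Multiset.prod_cons, ih, Multiset.map_cons,
      Multiset.prod_cons, Multiset.card_cons, pow_succ]; ring

lemma det_sub_scalar (A : Matrix ι ι K) (r : K) :
    (A - Matrix.scalar ι r).det = (A.charpoly.roots.map fun a => a - r).prod := by
  have h1 : A - Matrix.scalar ι r = - (Matrix.scalar ι r - A) := by abel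
  rw [h1, Matrix.det_neg, det_scalar_sub, ← card_roots' A, ← prod_neg_map]
  congr 1
  refine Multiset.map_congr rfl fun a _ => by ring

lemma det_aeval (A : Matrix ι ι K) {p : K[X]} (hp : p.Monic) :
    (aeval A p).det = (A.charpoly.roots.map fun a => p.eval a).prod := by
  let φ : K[X] →* K := Matrix.detMonoidHom.comp (aeval A : K[X] →ₐ[K] Matrix ι ι K).toMonoidHom
  have hφ : ∀ q, φ q = (aeval A q).det := fun q => rfl
  have hp2 := (IsAlgClosed.splits p).eq_prod_roots_of_monic hp
  rw [← hφ]
  conv_lhs => rw [hp2]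
  rw [map_multiset_prod, Multiset.map_map]
  have h1 : (p.roots.map (φ ∘ fun a => X - C a)) =
      p.roots.map fun r => (A.charpoly.roots.map fun a => a - r).prod := by
    refine Multiset.map_congr rfl fun r _ => ?_
    rw [Function.comp_apply, hφ, ← det_sub_scalar]
    congr 1
    simp [Matrix.algebraMap_eq_diagonal, Matrix.scalar_apply]
  rw [h1, Multiset.prod_map_prod_map]
  congr 1
  refine Multiset.map_congr rfl fun a _ => ?_
  conv_rhs => rw [hp2]
  rw [eval_multiset_prod, Multiset.map_map]
  congr 1
  refine Multiset.map_congr rfl fun r _ => ?_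
  simp

lemma charpoly_pow (A : Matrix ι ι K) {n : ℕ} (hn : n ≠ 0) :
    (A ^ n).charpoly = (A.charpoly.roots.map fun a => X - C (a ^ n)).prod := by
  apply Polynomial.funext
  intro s
  rw [Matrix.eval_charpoly, eval_multiset_prod, Multiset.map_map]
  have h1 : Matrix.scalar ι s - A ^ n = - (aeval A (X ^ n - C s)) := by
    simp [Matrix.algebraMap_eq_diagonal, Matrix.scalar_apply]
  rw [h1, Matrix.det_neg, det_aeval A (monic_X_pow_sub_C s hn), ← card_roots' A, ← prod_neg_map]
  congr 1
  refine Multiset.map_congr rfl fun a _ => ?_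
  simp

/-- the roots of the characteristic polynomial of a power -/
lemma roots_pow (A : Matrix ι ι K) {n : ℕ} (hn : n ≠ 0) :
    (A ^ n).charpoly.roots = A.charpoly.roots.map (· ^ n) := by
  rw [charpoly_pow A hn]
  have : (A.charpoly.roots.map fun a => X - C (a ^ n)) =
      ((A.charpoly.roots.map (· ^ n)).map fun a => X - C a) := by
    rw [Multiset.map_map]; rfl
  rw [this, roots_multiset_prod_X_sub_C]

end

/-- the companion matrix -/
lemma minpoly_root' {f : ℤ[X]} (hf : f.Monic) : minpoly ℤ (AdjoinRoot.root f) = f := by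
  refine (minpoly.unique' ℤ (AdjoinRoot.root f) hf ?_ fun q hq => ?_).symm
  · rw [AdjoinRoot.aeval_eq, AdjoinRoot.mk_self]
  · rw [AdjoinRoot.aeval_eq, Ne, AdjoinRoot.mk_eq_zero]
    by_cases h0 : q = 0
    · exact Or.inl h0
    · exact Or.inr fun hd => hf.not_dvd_of_degree_lt h0 hq hd

end S13P

/-- S13. -/
theorem s13 : S13 := by
  intro f m hf hm
  have hch : (Algebra.leftMulMatrix (AdjoinRoot.powerBasis' hf).basis
      (AdjoinRoot.powerBasis' hf).gen).charpoly = f := by
    rw [charpoly_leftMulMatrix, AdjoinRoot.powerBasis'_gen, S13P.minpoly_root' hf]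
  set A := Algebra.leftMulMatrix (AdjoinRoot.powerBasis' hf).basis
      (AdjoinRoot.powerBasis' hf).gen
  refine ⟨(A ^ m).charpoly, (A ^ m).charpoly_monic, ?_⟩
  have h1 : (A ^ m).charpoly.map (Int.castRingHom ℂ) =
      ((A.map (Int.castRingHom ℂ)) ^ m).charpoly := by
    rw [← Matrix.charpoly_map, Matrix.map_pow]
  have h2 : (A.map (Int.castRingHom ℂ)).charpoly = f.map (Int.castRingHom ℂ) := by
    rw [Matrix.charpoly_map, hch]
  rw [h1, S13P.roots_pow _ hm.ne', h2]

end Pool.Agent.H857.EF
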