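import Pool.Agent.H857.EF.Core
import Pool.Graph.R_pool_sql_team_seeded_2aa45f1a.Q70.CT.PoleMain

/-!
# The formula of Tate for abelian varieties without relations (S17)
-/

set_option autoImplicit false
set_option linter.unusedSectionVars false
set_option linter.unusedVariables false

open CategoryTheory AlgebraicGeometry

universe u v w

namespace Pool.Agent.H389.EF17

open Polynomial Module Pool.Agent.H914 Pool.Agent.H914.VarClass Pool.Agent.H914.VarClass.Obj
  Pool.Agent.W492.BB Pool.Agent.W484.CH Pool.Agent.Y1.CT Pool.Agent.W550.Corr Pool.Agent.Q70.CT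
  Pool.Agent.W484.HS

variable {k : Type u} [Field k] {𝒱 : VarClass k} {C : TheoryData.{u, v, 0} 𝒱 ℚ} {K : Type w}
  [Field K] [CharZero K] {H : WeilTheoryData.{u, v, w} C K} [hC : IsChow C] [hH : IsWeil H]
  {A : 𝒱.Obj} (hS : IsStandard H)

omit hC hH in
theorem NK_le_clSpan (c : ℕ) [IsChow C] [IsWeil H] : NK H A c ≤ clSpan H A c := by
  unfold NK clSpan
  refine Submodule.span_mono ?_
  rintro _ ⟨D, hD, rfl⟩
  exact ⟨D, divProd_mem hD, rfl⟩

theorem clSpan_le_gr (c : ℕ) : clSpan H A c ≤ H.gr A (2 * c) := by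
  unfold clSpan
  rw [Submodule.span_le]
  rintro _ ⟨y, hy, rfl⟩
  exact H.cl_mem hy

theorem NK_le_gr (c : ℕ) : NK H A c ≤ H.gr A (2 * c) := (NK_le_clSpan c).trans (clSpan_le_gr c)

/-- Different degrees. -/
theorem deg_unique {m n : ℤ} {v : H.A A} (hv : v ≠ 0) (hm : v ∈ H.gr A m) (hn : v ∈ H.gr A n) :
    m = n := by
  by_contra hne
  have h1 := (H.isInternal A).submodule_iSupIndep.pairwiseDisjoint hne
  have h2 := h1.le_bot (show v ∈ H.gr A m ⊓ H.gr A n from ⟨hm, hn⟩)
  exact hv ((Submodule.mem_bot K).1 h2)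

section basis

variable {π : A ⟶ A} {Q : ℕ} (hπ : IsFrobenius C π Q) (hQ : 1 < Q) {r : ℕ}
  (b : Basis (Fin r) K (H.A A)) (α : Fin r → K) (hb : ∀ t, H.pull π (b t) = α t • b t)
  (h1 : ∀ t (c : ℤ), α t = (Q : K) ^ c → ∃ k : ℕ, α t = (Q : K) ^ k ∧ b t ∈ NK H A k)

include hb in
theorem op_repr (μ : K) (m : ℕ) (w : H.A A) :
    op (frob H π) μ m w = ∑ t, (b.repr w t * (α t - μ) ^ m) • b t := by
  induction m with
  | zero =>
    simp only [pow_zero, mul_one]
    rw [b.sum_repr w]
    simp [op]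
  | succ m ih =>
    have h2 : op (frob H π) μ (m + 1) w =
        (frob H π - μ • (1 : Module.End K (H.A A))) (op (frob H π) μ m w) := by
      rw [op, op, pow_succ', Module.End.mul_apply]
    rw [h2, ih, map_sum]
    refine Finset.sum_congr rfl fun t _ => ?_
    rw [map_smul, LinearMap.sub_apply, LinearMap.smul_apply, Module.End.one_apply]
    change _ • (H.pull π (b t) - _) = _
    rw [hb, ← sub_smul, smul_smul, pow_succ, mul_assoc]

include hb in
theorem repr_eigen {μ : K} {m : ℕ} {w : H.A A} (h : op (frob H π) μ m w = 0) (t : Fin r)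
    (ht : b.repr w t ≠ 0) : α t = μ := by
  rw [op_repr b α hb] at h
  have h2 := Fintype.linearIndependent_iff.1 b.linearIndependent _ h t
  have h3 := (mul_eq_zero.1 h2).resolve_left ht
  by_contra hne
  exact pow_ne_zero m (sub_ne_zero.2 hne) h3

include hQ hb h1 in
theorem mem_NK_of_op {c : ℕ} {m : ℕ} {w : H.A A} (h : op (frob H π) ((Q : K) ^ (c : ℤ)) m w = 0) :
    w ∈ NK H A c := by
  rw [← b.sum_repr w]
  refine Submodule.sum_mem _ fun t _ => ?_
  by_cases ht : b.repr w t = 0
  · rw [ht, zero_smul]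
    exact Submodule.zero_mem _
  · have h2 := repr_eigen b α hb h t ht
    obtain ⟨l, hl, hbl⟩ := h1 t c h2
    have h3 : l = c := by
      have h4 : ((Q ^ l : ℕ) : K) = ((Q ^ c : ℕ) : K) := by
        push_cast
        rw [← hl, h2, zpow_natCast]
      exact Nat.pow_right_injective hQ (Nat.cast_injective h4)
    rw [h3] at hbl
    exact Submodule.smul_mem _ _ hbl

include hQ hb h1 in
theorem zero_of_op_neg {c : ℤ} (hc : c < 0) {m : ℕ} {w : H.A A}
    (h : op (frob H π) ((Q : K) ^ c) m w = 0) : w = 0 := by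
  rw [← b.sum_repr w]
  refine Finset.sum_eq_zero fun t _ => ?_
  by_cases ht : b.repr w t = 0
  · rw [ht, zero_smul]
  · exfalso
    have h2 := repr_eigen b α hb h t ht
    obtain ⟨l, hl, -⟩ := h1 t c h2
    obtain ⟨d, hd⟩ := Int.eq_ofNat_of_zero_le (show 0 ≤ -c by omega)
    have hQK : (Q : K) ≠ 0 := by
      have : Q ≠ 0 := by omega
      exact_mod_cast this
    have h3 : (Q : K) ^ c * (Q : K) ^ d = 1 := by
      rw [← zpow_natCast, ← zpow_add₀ hQK, ← hd, add_neg_cancel, zpow_zero]
    rw [← h2, hl, ← pow_add] at h3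
    have h4 : ((Q ^ (l + d) : ℕ) : K) = ((Q ^ 0 : ℕ) : K) := by
      push_cast
      rw [h3, pow_zero]
    have h5 := Nat.pow_right_injective hQ (Nat.cast_injective h4)
    omega

include hQ hb h1 in
theorem isPure : IsPure H π Q := by
  intro n c w hw hn hπw
  have h2 : op (frob H π) ((Q : K) ^ c) 1 w = 0 := by
    rw [op, pow_one, LinearMap.sub_apply, LinearMap.smul_apply, Module.End.one_apply, sub_eq_zero]
    exact hπw
  rcases lt_or_ge c 0 with hc | hc
  · exact absurd (zero_of_op_neg hQ b α hb h1 hc h2) hw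
  · obtain ⟨c, rfl⟩ := Int.eq_ofNat_of_zero_le hc
    exact deg_unique hw hn (NK_le_gr c (mem_NK_of_op hQ b α hb h1 h2))

include hπ hQ hb h1 in
theorem clSpan_eq (c : ℕ) : clSpan H A c = NK H A c := by
  refine le_antisymm ?_ (NK_le_clSpan c)
  unfold clSpan
  rw [Submodule.span_le]
  rintro _ ⟨y, hy, rfl⟩
  refine mem_NK_of_op hQ b α hb h1 (m := 1) ?_
  rw [op, pow_one, LinearMap.sub_apply, LinearMap.smul_apply, Module.End.one_apply, sub_eq_zero]
  have h2 : C.pull π y = (Q : ℚ) ^ c • y := hπ.chow c y hy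
  change H.pull π (H.cl y) = _
  rw [← H.cl_pull, h2, cl_smul, zpow_natCast]
  push_cast
  rfl

include hπ hQ hb h1 in
theorem eigenspace_eq (c : ℕ) : eigenspace H π Q c (2 * c) = NK H A c := by
  refine le_antisymm ?_ ?_
  · intro w hw
    rw [mem_eigenspace] at hw
    obtain ⟨-, m, hm⟩ := hw
    exact mem_NK_of_op hQ b α hb h1 hm
  · intro w hw
    rw [mem_eigenspace]
    refine ⟨NK_le_gr c hw, 1, ?_⟩
    rw [op, pow_one, LinearMap.sub_apply, LinearMap.smul_apply, Module.End.one_apply, sub_eq_zero,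
      zpow_natCast]
    exact NK_eigen hπ hw

include hS hπ hQ hb h1 in
/-- The classes are linearly independent modulo numerical equivalence. -/
theorem le_numRank {c : ℕ} (hc : c ≤ A.dim) : finrank K (clSpan H A c) ≤ numRank H A c := by
  classical
  have hfin := hS.finite A
  have hnum := finite_num (H := H) (Z := A) hS c
  obtain ⟨S, hS1, hspan, hli⟩ := exists_linearIndependent K
    {x : H.A A | ∃ y : C.A A, C.Deg c y ∧ x = H.cl y}
  have hSfin : S.Finite := hli.setFinite
  have : Fintype S := hSfin.fintype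
  have hcard : Fintype.card S = finrank K (clSpan H A c) := by
    rw [clSpan, ← hspan]
    exact (finrank_span_set_eq_card hli).symm ▸ (Set.toFinset_card S).symm
  choose y hy hcl using fun x : S => hS1 x.2
  rw [← hcard, numRank_eq]
  have hind : LinearIndependent ℚ
      (fun x : S => (numSub H A c).mkQ (⟨y x, hy x⟩ : C.gr A (c : ℤ))) := by
    rw [Fintype.linearIndependent_iff]
    intro g hg
    have h2 : ∑ x, g x • (⟨y x, hy x⟩ : C.gr A (c : ℤ)) ∈ numSub H A c := by
      rw [← Submodule.Quotient.mk_eq_zero, ← Submodule.mkQ_apply, map_sum, ← hg]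
      exact Finset.sum_congr rfl fun x _ => map_smul _ _ _
    rw [mem_numSub] at h2
    have hcoe : ((∑ x, g x • (⟨y x, hy x⟩ : C.gr A (c : ℤ)) : C.gr A (c : ℤ)) : C.A A) =
        ∑ x, g x • y x := by
      rw [AddSubmonoidClass.coe_finsetSum]
      rfl
    rw [hcoe] at h2
    have h3 : H.cl (∑ x, g x • y x) = ∑ x : S, ((g x : ℚ) : K) • (x : H.A A) := by
      rw [map_sum]
      exact Finset.sum_congr rfl fun x _ => by rw [cl_smul, ← hcl x]
    have h4 : H.cl (∑ x, g x • y x) ∈ NK H A c := by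
      rw [← clSpan_eq hπ hQ b α hb h1, h3]
      refine Submodule.sum_mem _ fun x _ => Submodule.smul_mem _ _ (Submodule.subset_span ?_)
      exact ⟨y x, hy x, hcl x⟩
    have h5 : H.cl (∑ x, g x • y x) = 0 := by
      refine NK_nondeg hπ hQ b α hb h1 hc h4 fun c' hc' => ?_
      unfold NK at hc'
      induction hc' using Submodule.span_induction with
      | mem c' hc' =>
        obtain ⟨E, hE, rfl⟩ := hc'
        rw [← map_mul]
        exact h2 (A.dim - c) E (by omega) (divProd_mem hE)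
      | zero => rw [mul_zero, map_zero]
      | add x y _ _ hx hy => rw [mul_add, map_add, hx, hy, add_zero]
      | smul a x _ hx => rw [mul_smul_comm, map_smul, hx, smul_zero]
    rw [h3] at h5
    intro x
    have h6 := Fintype.linearIndependent_iff.1 hli (fun x => ((g x : ℚ) : K)) h5 x
    exact_mod_cast h6
  exact hind.fintype_card_le_finrank

include hS hπ hQ hb h1 in
theorem poleFormula_of_basis (c : ℕ) : PoleFormula H π Q c := by
  unfold PoleFormula
  rw [poleOrder_pure hS (isPure hQ b α hb h1)]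
  rcases Nat.lt_or_ge A.dim c with hc | hc
  · rw [numRank_big hS hc, finrank_eig_out hS (Or.inr (by omega))]
  · have h2 : numRank H A c = finrank K (clSpan H A c) :=
      le_antisymm (numRank_le hS c hc) (le_numRank hS hπ hQ b α hb h1 hc)
    rw [h2, eigenspace_eq hπ hQ b α hb h1, clSpan_eq hπ hQ b α hb h1]

end basis

end Pool.Agent.H389.EF17

namespace Pool.Agent.H857.EF

open Module Polynomial Pool.Agent.H914 Pool.Agent.H914.VarClass Pool.Agent.H914.VarClass.Obj
  Pool.Agent.W492.BB Pool.Agent.Q70.CT Pool.Agent.Y1.CT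

theorem s17 : S17 := by
  intro Q g hQ hR k _ 𝒱 C _ K _ _ _ H _ s B π hs hS hB c
  have hS' := W484.CK.isStandard_bridge hS
  have hB' := W484.CK.isAbelian_bridge hB
  obtain ⟨n, b, α, hb, -, hgood⟩ := exists_good_basis hQ hR hS' hs hB'
  have hQ1 : 1 < Q ^ s := Nat.one_lt_pow hs.ne' hQ
  have hX1 : (Polynomial.X - 1 : ℚ[X]) ≠ 0 := by
    have := Polynomial.X_sub_C_ne_zero (1 : ℚ)
    rwa [map_one] at this
  have h1 : ∀ t (c : ℤ), α t = ((Q ^ s : ℕ) : K) ^ c →
      ∃ l : ℕ, α t = ((Q ^ s : ℕ) : K) ^ l ∧ b t ∈ W484.CH.NK H B l := by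
    intro t c hc
    exact hgood _ hX1 (root_one hR) 1 (by rw [map_sub, aeval_X, map_one, sub_self]) t c
      (by rw [mul_one]; exact hc)
  exact Pool.Agent.H389.EF17.poleFormula_of_basis hS' hB'.frobenius hQ1 b α hb h1 c

end Pool.Agent.H857.EF
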