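import Pool.Agent.H857.EF.Core

/-!
# EF S18 and S24 (helper643, for helper857): exotic classes on powers
-/

set_option autoImplicit false

namespace Pool.Agent.H643.EF

open Module Polynomial Pool.Agent.W521.Descent Pool.Agent.W521.Density Pool.Agent.W521.Count
  Pool.Agent.X297.UB Pool.Agent.H857.PB Pool.Agent.H857.PA Pool.Agent.H857.HK
  Pool.Agent.H857.EF

section diag
variable {n : ℕ} (z : Fin n → ℂ)

/-- the diagonal operator -/
noncomputable def dg : (Fin n → ℂ) →ₗ[ℂ] (Fin n → ℂ) := Matrix.toLin' (Matrix.diagonal z)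

/-- the standard basis -/
def st (n : ℕ) (a : Fin n) : Fin n → ℂ := Pi.single a 1

theorem dg_st (a : Fin n) : dg z (st n a) = z a • st n a := by
  funext b
  unfold dg st
  rw [Matrix.toLin'_apply, Matrix.mulVec_diagonal, Pi.smul_apply, smul_eq_mul]
  by_cases h : b = a
  · rw [h]
  · rw [Pi.single_eq_of_ne h, mul_zero, mul_zero]

theorem dg_pow_st (m : ℕ) (a : Fin n) : (dg z ^ m) (st n a) = z a ^ m • st n a := by
  induction m with
  | zero => rw [pow_zero, pow_zero, one_smul]; rfl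
  | succ m ih =>
    rw [pow_succ', Module.End.mul_apply, ih, map_smul, dg_st, smul_smul, pow_succ]

theorem span_st (n : ℕ) : Submodule.span ℂ (Set.range (st n)) = ⊤ := by
  have h := (Pi.basisFun ℂ (Fin n)).span_eq
  have h1 : Set.range (st n) = Set.range (Pi.basisFun ℂ (Fin n)) := by
    congr 1
    funext a
    rw [Pi.basisFun_apply]
    rfl
  rw [h1, h]

/-- the product of the basis vectors -/
noncomputable def vol (n : ℕ) : ExteriorAlgebra ℂ (Fin n → ℂ) := ExteriorAlgebra.ιMulti ℂ n (st n)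

theorem vol_mem (n : ℕ) : vol n ∈ ⋀[ℂ]^n (Fin n → ℂ) :=
  ExteriorAlgebra.ιMulti_range ℂ n ⟨_, rfl⟩

theorem vol_ne_zero (n : ℕ) : vol n ≠ 0 := by
  classical
  intro h
  have h1 := ExteriorAlgebra.liftAlternating_apply_ιMulti
    (f := (Pi.single n (Pi.basisFun ℂ (Fin n)).det : ∀ i, (Fin n → ℂ) [⋀^Fin i]→ₗ[ℂ] ℂ)) (st n)
  have h2 : ExteriorAlgebra.ιMulti ℂ n (st n) = 0 := h
  rw [h2, map_zero, Pi.single_eq_same] at h1
  have h3 : st n = Pi.basisFun ℂ (Fin n) := by
    funext a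
    rw [Pi.basisFun_apply]
    rfl
  rw [h3, Basis.det_self] at h1
  exact zero_ne_one h1

theorem map_vol (m : ℕ) : ExteriorAlgebra.map (dg z ^ m) (vol n) = (∏ a, z a) ^ m • vol n := by
  unfold vol
  rw [ExteriorAlgebra.map_apply_ιMulti]
  have h1 : (⇑(dg z ^ m) ∘ st n) = fun a => z a ^ m • st n a := by
    funext a
    exact dg_pow_st z m a
  rw [h1, AlternatingMap.map_smul_univ, Finset.prod_pow]

/-- there are no divisor classes -/
theorem no_div (m : ℕ) (c : ℂ) (h : ∀ a b : Fin n, a ≠ b → (z a * z b) ^ m ≠ c)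
    {y : ExteriorAlgebra ℂ (Fin n → ℂ)} (hy : y ∈ ⋀[ℂ]^2 (Fin n → ℂ))
    (hF : ExteriorAlgebra.map (dg z ^ m) y = c • y) : y = 0 := by
  classical
  let G : Module.End ℂ (ExteriorAlgebra ℂ (Fin n → ℂ)) :=
    (ExteriorAlgebra.map (dg z ^ m)).toLinearMap
  have hG : ∀ x, G x = ExteriorAlgebra.map (dg z ^ m) x := fun x => rfl
  have h1 : y ∈ G.eigenspace c := Module.End.mem_eigenspace_iff.2 hF
  have h2 : ⋀[ℂ]^2 (Fin n → ℂ) ≤ ⨆ μ, ⨆ (_ : μ ≠ c), G.eigenspace μ := by
    have e1 : LinearMap.range (ExteriorAlgebra.ι ℂ : (Fin n → ℂ) →ₗ[ℂ] _) =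
        Submodule.span ℂ (Set.range fun a => ExteriorAlgebra.ι ℂ (st n a)) := by
      rw [LinearMap.range_eq_map, ← span_st n, Submodule.map_span, ← Set.range_comp]
      rfl
    have e2 : ⋀[ℂ]^2 (Fin n → ℂ) =
        LinearMap.range (ExteriorAlgebra.ι ℂ : (Fin n → ℂ) →ₗ[ℂ] _) *
        LinearMap.range (ExteriorAlgebra.ι ℂ : (Fin n → ℂ) →ₗ[ℂ] _) := by
      rw [← pow_two]
    rw [e2, e1, Submodule.span_mul_span, Submodule.span_le]
    rintro _ ⟨_, ⟨a, rfl⟩, _, ⟨b, rfl⟩, rfl⟩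
    simp only
    by_cases hab : a = b
    · rw [hab, ExteriorAlgebra.ι_sq_zero]
      exact Submodule.zero_mem _
    · refine Submodule.mem_iSup_of_mem ((z a * z b) ^ m) ?_
      refine Submodule.mem_iSup_of_mem (h a b hab) ?_
      rw [Module.End.mem_eigenspace_iff, hG, map_mul, ExteriorAlgebra.map_apply_ι,
        ExteriorAlgebra.map_apply_ι, dg_pow_st, dg_pow_st, map_smul, map_smul, smul_mul_smul_comm,
        mul_pow]
  have h3 := (Module.End.eigenspaces_iSupIndep G) c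
  exact (Submodule.disjoint_def.1 h3) y h1 (h2 hy)

theorem not_mem_div {i : ℕ} (hi : i ≠ 0) (m : ℕ) (c : ℂ)
    (h : ∀ a b : Fin n, a ≠ b → (z a * z b) ^ m ≠ c) {x : ExteriorAlgebra ℂ (Fin n → ℂ)}
    (hx : x ≠ 0) : x ∉ divisorProducts c (dg z ^ m) i := by
  intro hmem
  unfold divisorProducts at hmem
  have h1 : {y : ExteriorAlgebra ℂ (Fin n → ℂ) | y ∈ ⋀[ℂ]^2 (Fin n → ℂ) ∧
      ExteriorAlgebra.map (dg z ^ m) y = c • y} ⊆ {0} := by
    rintro y ⟨hy1, hy2⟩
    exact no_div z m c h hy1 hy2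
  have h2 : Submodule.span ℂ {y : ExteriorAlgebra ℂ (Fin n → ℂ) | y ∈ ⋀[ℂ]^2 (Fin n → ℂ) ∧
      ExteriorAlgebra.map (dg z ^ m) y = c • y} = ⊥ := by
    rw [Submodule.span_eq_bot]
    intro y hy
    exact h1 hy
  rw [h2, Submodule.bot_pow hi] at hmem
  exact hx ((Submodule.mem_bot ℂ).1 hmem)

theorem span_eig (E : ℂ → Prop) (hz : ∀ a, E (z a)) :
    Submodule.span ℂ {v : Fin n → ℂ | ∃ μ : ℂ, E μ ∧ dg z v = μ • v} = ⊤ := by
  rw [eq_top_iff, ← span_st n]
  refine Submodule.span_mono ?_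
  rintro _ ⟨a, rfl⟩
  exact ⟨z a, hz a, dg_st z a⟩

end diag

theorem exo {q : ℕ} (f : ℤ[X]) {i : ℕ} (hi : i ≠ 0) (z : Fin (2 * i) → ℂ)
    (hz : ∀ a, aeval (z a) f = 0) {N : ℕ} (hN : 0 < N) (hprod : (∏ a, z a) ^ N = ((q : ℂ) ^ i) ^ N)
    (hpair : ∀ a b, a ≠ b → ¬ PairRel q (z a) (z b)) : HasExotic q f := by
  refine ⟨Fin (2 * i) → ℂ, inferInstance, inferInstance, inferInstance, dg z,
    span_eig z (fun μ => aeval μ f = 0) hz, i, N, vol (2 * i), hN, vol_mem _, ?_, ?_⟩
  · rw [map_vol, hprod]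
  · intro t ht
    refine not_mem_div z hi (N * t) _ (fun a b hab h => hpair a b hab ?_) (vol_ne_zero _)
    exact ⟨N * t, Nat.mul_pos hN ht, h⟩

theorem s18 : S18 := by
  rintro q hq f hf ⟨L, hL, hroot, ⟨N, hN, n, hprod⟩, hpw⟩
  have hq0 : (0 : ℝ) < q := by exact_mod_cast (by omega : 0 < q)
  have hq1 : (1 : ℝ) < q := by exact_mod_cast hq
  -- the length
  have hnorm : ∀ L : List ℂ, (∀ z ∈ L, aeval z f = 0) → ‖L.prod‖ ^ 2 = (q : ℝ) ^ L.length := by
    intro L
    induction L with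
    | nil => intro _; simp
    | cons a L ih =>
      intro h
      rw [List.prod_cons, norm_mul, mul_pow, hf a (h a (List.mem_cons_self)),
        ih fun z hz => h z (List.mem_cons_of_mem a hz), List.length_cons, pow_succ, mul_comm]
  have h1 := hnorm L hroot
  have h2 : (q : ℝ) ^ ((L.length : ℤ) * N) = (q : ℝ) ^ (2 * n * N) := by
    have h3 := congrArg (fun x : ℂ => ‖x‖ ^ 2) hprod
    simp only [norm_pow, norm_zpow, Complex.norm_natCast] at h3
    rw [← pow_mul, mul_comm N 2, pow_mul, h1] at h3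
    rw [zpow_mul, zpow_natCast, zpow_natCast, h3, ← zpow_natCast, ← zpow_mul]
    congr 1
    push_cast
    ring
  have h4 : (L.length : ℤ) * N = 2 * n * N := zpow_right_injective₀ hq0 hq1.ne' h2
  have h5 : (L.length : ℤ) = 2 * n :=
    mul_right_cancel₀ (by exact_mod_cast hN.ne' : (N : ℤ) ≠ 0) h4
  have hlen : 0 < L.length := List.length_pos_iff.2 hL
  obtain ⟨i, hi⟩ : ∃ i : ℕ, n = i := ⟨n.toNat, by omega⟩
  have h6 : L.length = 2 * i := by omega
  have hi0 : i ≠ 0 := by omega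
  refine exo f hi0 (fun a => L.get (Fin.cast h6.symm a)) (fun a => hroot _ (List.get_mem _ _)) hN
    ?_ ?_
  · have h7 : ∏ a : Fin (2 * i), L.get (Fin.cast h6.symm a) = L.prod := by
      rw [← List.prod_ofFn]
      congr 1
      apply List.ext_getElem
      · rw [List.length_ofFn, h6]
      · intro j hj1 hj2
        rw [List.getElem_ofFn]
        rfl
    rw [h7, hprod, hi, zpow_mul, zpow_natCast, zpow_natCast]
  · intro a b hab
    have h9 := List.pairwise_iff_get.1 hpw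
    rcases lt_or_gt_of_ne hab with h | h
    · exact h9 (Fin.cast h6.symm a) (Fin.cast h6.symm b) h
    · intro hr
      apply h9 (Fin.cast h6.symm b) (Fin.cast h6.symm a) h
      obtain ⟨M, hM, hM2⟩ := hr
      exact ⟨M, hM, by rw [mul_comm]; exact hM2⟩

theorem s24 : S24 := by
  intro q _ f hf hex
  obtain ⟨hmon, hdeg, -, -⟩ := hf
  -- the roots
  set g : ℂ[X] := f.map (Int.castRingHom ℂ) with hg
  have hgm : g.Monic := hmon.map _
  have hgs : g.Splits := IsAlgClosed.splits g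
  have hgd : g.natDegree = 8 := by
    rw [hg, hmon.natDegree_map, hdeg]
  have hcard : g.roots.toList.length = 8 := by
    rw [Multiset.length_toList, ← hgs.natDegree_eq_card_roots, hgd]
  let z : Fin 8 → ℂ := fun a => g.roots.toList.get (Fin.cast hcard.symm a)
  have hprod : ∏ a, (X - C (z a)) = g := by
    have h1 : List.ofFn (fun a : Fin 8 => (X - C (z a) : ℂ[X])) =
        g.roots.toList.map fun w => X - C w := by
      apply List.ext_getElem
      · rw [List.length_ofFn, List.length_map, hcard]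
      · intro j hj1 hj2
        rw [List.getElem_ofFn, List.getElem_map]
        rfl
    rw [← List.prod_ofFn, h1, ← Multiset.prod_coe, ← Multiset.map_coe, Multiset.coe_toList]
    exact (hgs.eq_prod_roots_of_monic hgm).symm
  have hroot : ∀ a, aeval (z a) f = 0 := by
    intro a
    have h1 : g.eval (z a) = 0 := by
      rw [← hprod, eval_prod]
      exact Finset.prod_eq_zero (Finset.mem_univ a) (by simp)
    rw [hg, eval_map] at h1
    exact h1
  have hchar : (dg z).charpoly = f.map (Int.castRingHom ℂ) := by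
    unfold dg
    rw [Matrix.charpoly_toLin', Matrix.charpoly_diagonal, hprod]
  have hspan : Submodule.span ℂ {v : Fin 8 → ℂ | ∃ μ : ℂ, dg z v = μ • v} = ⊤ := by
    rw [eq_top_iff, ← span_st 8]
    refine Submodule.span_mono ?_
    rintro _ ⟨a, rfl⟩
    exact ⟨z a, dg_st z a⟩
  obtain ⟨x, hx, hxF, hxn⟩ := hex (Fin 8 → ℂ) (dg z) hspan hchar
  refine ⟨Fin 8 → ℂ, inferInstance, inferInstance, inferInstance, dg z,
    span_eig z (fun μ => aeval μ f = 0) hroot, 2, 1, x, one_pos, hx, ?_, fun t ht => ?_⟩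
  · rw [pow_one, pow_one]
    exact hxF
  · rw [one_mul]
    exact hxn t ht

end Pool.Agent.H643.EF
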