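import Pool.Agent.H857.EF.Core

/-!
# Exotic classes on the variety itself from four eigenvalues
-/

set_option autoImplicit false

namespace Pool.Agent.H857.EF

open Module Polynomial Pool.Agent.W521.Descent Pool.Agent.W521.Density Pool.Agent.W521.Count
  Pool.Agent.X297.UB Pool.Agent.H857.PB Pool.Agent.H857.PA Pool.Agent.H857.HK

namespace S19pf

variable {V : Type} [AddCommGroup V] [Module ℂ V]

/-- the determinant of the values of `n` functionals -/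
noncomputable def alt {n : ℕ} (φ : Fin n → V →ₗ[ℂ] ℂ) : V [⋀^Fin n]→ₗ[ℂ] ℂ :=
  (Matrix.detRowAlternating (n := Fin n) (R := ℂ)).compLinearMap (LinearMap.pi φ)

/-- the same as a functional on the exterior algebra -/
noncomputable def fn {n : ℕ} (φ : Fin n → V →ₗ[ℂ] ℂ) : ExteriorAlgebra ℂ V →ₗ[ℂ] ℂ :=
  ExteriorAlgebra.liftAlternating (Function.update (0 : ∀ i, V [⋀^Fin i]→ₗ[ℂ] ℂ) n (alt φ))

theorem fn_apply {n : ℕ} (φ : Fin n → V →ₗ[ℂ] ℂ) (v : Fin n → V) :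
    fn φ (ExteriorAlgebra.ιMulti ℂ n v) = Matrix.det (Matrix.of fun a b => φ b (v a)) := by
  unfold fn
  rw [ExteriorAlgebra.liftAlternating_apply_ιMulti, Function.update_self]
  rfl

theorem fn_two (φ : Fin 2 → V →ₗ[ℂ] ℂ) (u w : V) :
    fn φ (ExteriorAlgebra.ι ℂ u * ExteriorAlgebra.ι ℂ w) = φ 0 u * φ 1 w - φ 1 u * φ 0 w := by
  have h : ExteriorAlgebra.ι ℂ u * ExteriorAlgebra.ι ℂ w =
      ExteriorAlgebra.ιMulti ℂ 2 ![u, w] := by
    simp [ExteriorAlgebra.ιMulti_apply]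
  rw [h, fn_apply, Matrix.det_fin_two]
  simp

theorem fn_four (φ : Fin 4 → V →ₗ[ℂ] ℂ) (u₁ u₂ u₃ u₄ : V) :
    fn φ (ExteriorAlgebra.ι ℂ u₁ * ExteriorAlgebra.ι ℂ u₂ *
      (ExteriorAlgebra.ι ℂ u₃ * ExteriorAlgebra.ι ℂ u₄)) =
      Matrix.det (Matrix.of fun a b => φ b ((![u₁, u₂, u₃, u₄] : Fin 4 → V) a)) := by
  have h : ExteriorAlgebra.ι ℂ u₁ * ExteriorAlgebra.ι ℂ u₂ *
      (ExteriorAlgebra.ι ℂ u₃ * ExteriorAlgebra.ι ℂ u₄) =
      ExteriorAlgebra.ιMulti ℂ 4 ![u₁, u₂, u₃, u₄] := by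
    simp [ExteriorAlgebra.ιMulti_apply, mul_assoc]
  rw [h, fn_apply]

theorem ind2 {P : ExteriorAlgebra ℂ V → Prop}
    (h0 : ∀ u w, P (ExteriorAlgebra.ι ℂ u * ExteriorAlgebra.ι ℂ w))
    (ha : ∀ x y, P x → P y → P (x + y)) {y : ExteriorAlgebra ℂ V} (hy : y ∈ ⋀[ℂ]^2 V) : P y := by
  rw [ExteriorAlgebra.exteriorPower, pow_two] at hy
  refine Submodule.mul_induction_on hy ?_ ha
  rintro _ ⟨u, rfl⟩ _ ⟨w, rfl⟩
  exact h0 u w

theorem det4 (m : Matrix (Fin 4) (Fin 4) ℂ) : m.det =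
    m 0 0 * (m 1 1 * (m 2 2 * m 3 3 - m 2 3 * m 3 2) - m 1 2 * (m 2 1 * m 3 3 - m 2 3 * m 3 1) +
      m 1 3 * (m 2 1 * m 3 2 - m 2 2 * m 3 1)) -
    m 0 1 * (m 1 0 * (m 2 2 * m 3 3 - m 2 3 * m 3 2) - m 1 2 * (m 2 0 * m 3 3 - m 2 3 * m 3 0) +
      m 1 3 * (m 2 0 * m 3 2 - m 2 2 * m 3 0)) +
    m 0 2 * (m 1 0 * (m 2 1 * m 3 3 - m 2 3 * m 3 1) - m 1 1 * (m 2 0 * m 3 3 - m 2 3 * m 3 0) +
      m 1 3 * (m 2 0 * m 3 1 - m 2 1 * m 3 0)) -
    m 0 3 * (m 1 0 * (m 2 1 * m 3 2 - m 2 2 * m 3 1) - m 1 1 * (m 2 0 * m 3 2 - m 2 2 * m 3 0) +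
      m 1 2 * (m 2 0 * m 3 1 - m 2 1 * m 3 0)) := by
  rw [Matrix.det_succ_row_zero, Fin.sum_univ_four, Matrix.det_fin_three, Matrix.det_fin_three,
    Matrix.det_fin_three, Matrix.det_fin_three]
  have e00 : (0 : Fin 4).succAbove (0 : Fin 3) = 1 := by decide
  have e01 : (0 : Fin 4).succAbove (1 : Fin 3) = 2 := by decide
  have e02 : (0 : Fin 4).succAbove (2 : Fin 3) = 3 := by decide
  have e10 : (1 : Fin 4).succAbove (0 : Fin 3) = 0 := by decide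
  have e11 : (1 : Fin 4).succAbove (1 : Fin 3) = 2 := by decide
  have e12 : (1 : Fin 4).succAbove (2 : Fin 3) = 3 := by decide
  have e20 : (2 : Fin 4).succAbove (0 : Fin 3) = 0 := by decide
  have e21 : (2 : Fin 4).succAbove (1 : Fin 3) = 1 := by decide
  have e22 : (2 : Fin 4).succAbove (2 : Fin 3) = 3 := by decide
  have e30 : (3 : Fin 4).succAbove (0 : Fin 3) = 0 := by decide
  have e31 : (3 : Fin 4).succAbove (1 : Fin 3) = 1 := by decide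
  have e32 : (3 : Fin 4).succAbove (2 : Fin 3) = 2 := by decide
  have s0 : (0 : Fin 3).succ = (1 : Fin 4) := by decide
  have s1 : (1 : Fin 3).succ = (2 : Fin 4) := by decide
  have s2 : (2 : Fin 3).succ = (3 : Fin 4) := by decide
  simp only [Matrix.submatrix_apply, e00, e01, e02, e10, e11, e12, e20, e21, e22, e30, e31, e32,
    s0, s1, s2]
  have p0 : ((0 : Fin 4) : ℕ) = 0 := rfl
  have p1 : ((1 : Fin 4) : ℕ) = 1 := rfl
  have p2 : ((2 : Fin 4) : ℕ) = 2 := rfl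
  have p3 : ((3 : Fin 4) : ℕ) = 3 := rfl
  rw [p0, p1, p2, p3]
  ring

/-- Laplace expansion -/
theorem laplace (φ : Fin 4 → V →ₗ[ℂ] ℂ) {y₁ y₂ : ExteriorAlgebra ℂ V} (h₁ : y₁ ∈ ⋀[ℂ]^2 V)
    (h₂ : y₂ ∈ ⋀[ℂ]^2 V) : fn φ (y₁ * y₂) =
      fn ![φ 0, φ 1] y₁ * fn ![φ 2, φ 3] y₂ - fn ![φ 0, φ 2] y₁ * fn ![φ 1, φ 3] y₂ +
      fn ![φ 0, φ 3] y₁ * fn ![φ 1, φ 2] y₂ + fn ![φ 1, φ 2] y₁ * fn ![φ 0, φ 3] y₂ -
      fn ![φ 1, φ 3] y₁ * fn ![φ 0, φ 2] y₂ + fn ![φ 2, φ 3] y₁ * fn ![φ 0, φ 1] y₂ := by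
  refine ind2 (P := fun y₁ => fn φ (y₁ * y₂) =
      fn ![φ 0, φ 1] y₁ * fn ![φ 2, φ 3] y₂ - fn ![φ 0, φ 2] y₁ * fn ![φ 1, φ 3] y₂ +
      fn ![φ 0, φ 3] y₁ * fn ![φ 1, φ 2] y₂ + fn ![φ 1, φ 2] y₁ * fn ![φ 0, φ 3] y₂ -
      fn ![φ 1, φ 3] y₁ * fn ![φ 0, φ 2] y₂ + fn ![φ 2, φ 3] y₁ * fn ![φ 0, φ 1] y₂)
    (fun u₁ u₂ => ?_) (fun x y hx hy => ?_) h₁
  · refine ind2 (P := fun y₂ => fn φ (ExteriorAlgebra.ι ℂ u₁ * ExteriorAlgebra.ι ℂ u₂ * y₂) =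
      fn ![φ 0, φ 1] (ExteriorAlgebra.ι ℂ u₁ * ExteriorAlgebra.ι ℂ u₂) * fn ![φ 2, φ 3] y₂ -
      fn ![φ 0, φ 2] (ExteriorAlgebra.ι ℂ u₁ * ExteriorAlgebra.ι ℂ u₂) * fn ![φ 1, φ 3] y₂ +
      fn ![φ 0, φ 3] (ExteriorAlgebra.ι ℂ u₁ * ExteriorAlgebra.ι ℂ u₂) * fn ![φ 1, φ 2] y₂ +
      fn ![φ 1, φ 2] (ExteriorAlgebra.ι ℂ u₁ * ExteriorAlgebra.ι ℂ u₂) * fn ![φ 0, φ 3] y₂ -
      fn ![φ 1, φ 3] (ExteriorAlgebra.ι ℂ u₁ * ExteriorAlgebra.ι ℂ u₂) * fn ![φ 0, φ 2] y₂ +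
      fn ![φ 2, φ 3] (ExteriorAlgebra.ι ℂ u₁ * ExteriorAlgebra.ι ℂ u₂) * fn ![φ 0, φ 1] y₂)
      (fun u₃ u₄ => ?_) (fun x y hx hy => ?_) h₂
    · rw [fn_four, det4]
      simp only [fn_two, Matrix.of_apply]
      have a0 : (![u₁, u₂, u₃, u₄] : Fin 4 → V) 0 = u₁ := rfl
      have a1 : (![u₁, u₂, u₃, u₄] : Fin 4 → V) 1 = u₂ := rfl
      have a2 : (![u₁, u₂, u₃, u₄] : Fin 4 → V) 2 = u₃ := rfl
      have a3 : (![u₁, u₂, u₃, u₄] : Fin 4 → V) 3 = u₄ := rfl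
      rw [a0, a1, a2, a3]
      simp only [Matrix.cons_val_zero, Matrix.cons_val_one]
      ring
    · simp only [mul_add, map_add] at *
      rw [hx, hy]
      ring
  · simp only [add_mul, map_add] at *
    rw [hx, hy]
    ring

theorem fn_map {F : V →ₗ[ℂ] V} {α β : V →ₗ[ℂ] ℂ} {a b : ℂ} (hα : ∀ u, α (F u) = a * α u)
    (hβ : ∀ u, β (F u) = b * β u) {y : ExteriorAlgebra ℂ V} (hy : y ∈ ⋀[ℂ]^2 V) :
    fn ![α, β] (ExteriorAlgebra.map F y) = a * b * fn ![α, β] y := by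
  refine ind2 (P := fun y => fn ![α, β] (ExteriorAlgebra.map F y) = a * b * fn ![α, β] y)
    (fun u w => ?_) (fun x y hx hy => ?_) hy
  · rw [map_mul, ExteriorAlgebra.map_apply_ι, ExteriorAlgebra.map_apply_ι, fn_two, fn_two]
    simp only [Matrix.cons_val_zero, Matrix.cons_val_one, hα, hβ]
    ring
  · simp only [map_add] at *
    rw [hx, hy]
    ring

theorem pow_apply {F : V →ₗ[ℂ] V} {α : V →ₗ[ℂ] ℂ} {a : ℂ} (hα : ∀ u, α (F u) = a * α u)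
    (t : ℕ) (u : V) : α ((F ^ t) u) = a ^ t * α u := by
  induction t generalizing u with
  | zero => simp
  | succ t ih =>
    rw [pow_succ', Module.End.mul_apply, hα, ih, pow_succ']
    ring

theorem eig [FiniteDimensional ℂ V] {F : V →ₗ[ℂ] V}
    (hF : Submodule.span ℂ {v : V | ∃ z : ℂ, F v = z • v} = ⊤) {z : ℂ}
    (hz : F.charpoly.IsRoot z) :
    ∃ (v : V) (φ : V →ₗ[ℂ] ℂ), F v = z • v ∧ φ v = 1 ∧ ∀ u, φ (F u) = z * φ u := by
  have h1 : Module.End.HasEigenvalue F z :=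
    (Module.End.hasEigenvalue_iff_isRoot_charpoly F z).2 hz
  have h2 : LinearMap.range (F - z • (LinearMap.id : V →ₗ[ℂ] V)) < ⊤ := by
    rw [lt_top_iff_ne_top]
    intro h
    have h3 := LinearMap.ker_eq_bot_iff_range_eq_top.2 h
    obtain ⟨v, hv⟩ := h1.exists_hasEigenvector
    have h4 : v ∈ LinearMap.ker (F - z • (LinearMap.id : V →ₗ[ℂ] V)) := by
      rw [LinearMap.mem_ker, LinearMap.sub_apply, LinearMap.smul_apply, LinearMap.id_apply,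
        hv.apply_eq_smul, sub_self]
    rw [h3] at h4
    exact hv.2 ((Submodule.mem_bot ℂ).1 h4)
  obtain ⟨φ, hφ0, hφ⟩ := Submodule.exists_le_ker_of_lt_top _ h2
  have hφ1 : ∀ u, φ (F u) = z * φ u := by
    intro u
    have h3 : (F - z • (LinearMap.id : V →ₗ[ℂ] V)) u ∈ LinearMap.ker φ := hφ ⟨u, rfl⟩
    rw [LinearMap.mem_ker, LinearMap.sub_apply, LinearMap.smul_apply, LinearMap.id_apply,
      map_sub, map_smul, smul_eq_mul, sub_eq_zero] at h3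
    exact h3
  obtain ⟨v, ⟨μ, hμ⟩, hv⟩ : ∃ v : V, (∃ z : ℂ, F v = z • v) ∧ φ v ≠ 0 := by
    by_contra hcon
    push Not at hcon
    apply hφ0
    have h5 : Submodule.span ℂ {v : V | ∃ z : ℂ, F v = z • v} ≤ LinearMap.ker φ := by
      rw [Submodule.span_le]
      rintro v ⟨μ, hμ⟩
      exact hcon v ⟨μ, hμ⟩
    rw [hF, top_le_iff] at h5
    exact LinearMap.ker_eq_top.1 h5
  have hμz : μ = z := by
    have h6 := hφ1 v
    rw [hμ, map_smul, smul_eq_mul] at h6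
    exact mul_right_cancel₀ hv h6
  refine ⟨(φ v)⁻¹ • v, φ, ?_, ?_, hφ1⟩
  · rw [map_smul, hμ, hμz, smul_comm]
  · rw [map_smul, smul_eq_mul, inv_mul_cancel₀ hv]

end S19pf

open S19pf in
theorem s19 : S19 := by
  intro q f z hq hinj hz hprod hpair V _ _ _ F hF hch
  have hroot : ∀ i, F.charpoly.IsRoot (z i) := by
    intro i
    have h1 := hz i
    rw [Polynomial.aeval_def, algebraMap_int_eq] at h1
    rw [hch, Polynomial.IsRoot.def, Polynomial.eval_map]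
    exact h1
  choose v φ hv hφ1 hφ using fun i => eig hF (hroot i)
  have hφv : ∀ i j, φ i (v j) = if i = j then 1 else 0 := by
    intro i j
    split_ifs with h
    · rw [h, hφ1]
    · have h1 := hφ i (v j)
      rw [hv, map_smul, smul_eq_mul] at h1
      have h2 : (z j - z i) * φ i (v j) = 0 := by rw [sub_mul, h1, sub_self]
      rcases mul_eq_zero.1 h2 with h3 | h3
      · exact absurd (hinj (sub_eq_zero.1 h3)).symm h
      · exact h3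
  refine ⟨ExteriorAlgebra.ιMulti ℂ 4 v, ExteriorAlgebra.ιMulti_range ℂ 4 ⟨v, rfl⟩, ?_, ?_⟩
  · rw [ExteriorAlgebra.map_apply_ιMulti]
    have h1 : F ∘ v = fun i => z i • v i := by
      funext i
      exact hv i
    rw [h1, AlternatingMap.map_smul_univ, hprod]
  · intro t ht hmem
    have hone : fn φ (ExteriorAlgebra.ιMulti ℂ 4 v) = 1 := by
      rw [fn_apply]
      have h1 : (Matrix.of fun a b => φ b (v a)) = (1 : Matrix (Fin 4) (Fin 4) ℂ) := by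
        ext a b
        rw [Matrix.of_apply, hφv, Matrix.one_apply]
        by_cases h : a = b
        · rw [if_pos h, if_pos h.symm]
        · rw [if_neg h, if_neg (Ne.symm h)]
      rw [h1, Matrix.det_one]
    -- the functionals vanish on divisor classes
    have hvan : ∀ i j, i ≠ j → ∀ y : ExteriorAlgebra ℂ V, y ∈ ⋀[ℂ]^2 V →
        ExteriorAlgebra.map (F ^ t) y = ((q : ℂ) ^ t) • y → fn ![φ i, φ j] y = 0 := by
      intro i j hij y hy hyq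
      have h1 := fn_map (pow_apply (hφ i) t) (pow_apply (hφ j) t) hy
      rw [hyq, map_smul, smul_eq_mul] at h1
      have h2 : (z i ^ t * z j ^ t - (q : ℂ) ^ t) * fn ![φ i, φ j] y = 0 := by
        rw [sub_mul, h1, sub_self]
      rcases mul_eq_zero.1 h2 with h3 | h3
      · exfalso
        apply hpair i j hij
        refine ⟨t, ht, ?_⟩
        rw [mul_pow]
        exact sub_eq_zero.1 h3
      · exact h3
    have hspan : ∀ y ∈ Submodule.span ℂ {y : ExteriorAlgebra ℂ V | y ∈ ⋀[ℂ]^2 V ∧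
        ExteriorAlgebra.map (F ^ t) y = ((q : ℂ) ^ t) • y},
        y ∈ ⋀[ℂ]^2 V ∧ ExteriorAlgebra.map (F ^ t) y = ((q : ℂ) ^ t) • y := by
      intro y hy
      refine Submodule.span_induction (fun y hy => hy) ⟨Submodule.zero_mem _, by simp⟩
        (fun x y _ _ hx hy => ⟨Submodule.add_mem _ hx.1 hy.1, by
          rw [map_add, hx.2, hy.2, smul_add]⟩)
        (fun a x _ hx => ⟨Submodule.smul_mem _ a hx.1, by
          rw [map_smul, hx.2, smul_comm]⟩) hy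
    have hzero : ∀ x ∈ divisorProducts ((q : ℂ) ^ t) (F ^ t) 2, fn φ x = 0 := by
      intro x hx
      rw [divisorProducts, pow_two] at hx
      refine Submodule.mul_induction_on hx (fun y₁ h₁ y₂ h₂ => ?_) (fun x y hx hy => ?_)
      · obtain ⟨a1, a2⟩ := hspan y₁ h₁
        obtain ⟨b1, b2⟩ := hspan y₂ h₂
        rw [laplace φ a1 b1, hvan 0 1 (by decide) y₁ a1 a2, hvan 0 2 (by decide) y₁ a1 a2,
          hvan 0 3 (by decide) y₁ a1 a2, hvan 1 2 (by decide) y₁ a1 a2,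
          hvan 1 3 (by decide) y₁ a1 a2, hvan 2 3 (by decide) y₁ a1 a2]
        ring
      · rw [map_add, hx, hy, add_zero]
    rw [hzero _ hmem] at hone
    exact zero_ne_one hone

end Pool.Agent.H857.EF
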