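import Pool.Agent.H857.EF.Core

/-!
# S20b: four roots on the circle (helper230, for the project EF of helper857)
-/

set_option autoImplicit false

namespace Pool.Agent.H230.EFs20b

open Module Polynomial Pool.Agent.W521.Descent Pool.Agent.W521.Density Pool.Agent.W521.Count
  Pool.Agent.X297.UB Pool.Agent.H857.PB Pool.Agent.H857.PA Pool.Agent.H857.HK Pool.Agent.H857.EF

/-- the real function on the circle -/
noncomputable def G (q : ℕ) (a b t θ : ℝ) : ℝ :=
  2 * Real.cos (2 * θ) + t / q - 2 * (a * Real.cos θ - b * Real.sin θ) / Real.sqrt q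

theorem G_cont (q : ℕ) (a b t : ℝ) : Continuous (G q a b t) := by
  unfold G
  fun_prop

theorem G_bd {q : ℕ} {a b t : ℝ} (hq : 0 < q) (he : 16 * (a ^ 2 + b ^ 2) ≤ q) (ht : 0 ≤ t)
    (ht' : 2 * t ≤ q) (θ : ℝ) : |G q a b t θ - 2 * Real.cos (2 * θ)| ≤ 1 := by
  have hq' : (0 : ℝ) < q := by exact_mod_cast hq
  have hs : 0 < Real.sqrt q := Real.sqrt_pos.2 hq'
  have h1 : |a * Real.cos θ - b * Real.sin θ| ≤ Real.sqrt q / 4 := by
    apply abs_le_of_sq_le_sq _ (by positivity)
    rw [div_pow, Real.sq_sqrt hq'.le]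
    nlinarith [Real.sin_sq_add_cos_sq θ, sq_nonneg (a * Real.sin θ + b * Real.cos θ)]
  have h2 : |2 * (a * Real.cos θ - b * Real.sin θ) / Real.sqrt q| ≤ 1 / 2 := by
    rw [abs_div, abs_mul, abs_two, abs_of_pos hs, div_le_iff₀ hs]
    linarith
  have h3 : 0 ≤ t / q := by positivity
  have h4 : t / q ≤ 1 / 2 := by
    rw [div_le_iff₀ hq']
    linarith
  have h5 := abs_le.1 h2
  unfold G
  rw [abs_le]
  constructor <;> linarith [h5.1, h5.2]

theorem exists_zero {q : ℕ} {a b t : ℝ} (hq : 0 < q) (he : 16 * (a ^ 2 + b ^ 2) ≤ q)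
    (ht : 0 ≤ t) (ht' : 2 * t ≤ q) (k : ℕ) :
    ∃ θ : ℝ, k * (Real.pi / 2) < θ ∧ θ < (k + 1) * (Real.pi / 2) ∧ G q a b t θ = 0 := by
  have hpi := Real.pi_pos
  have hcos : ∀ k : ℕ, Real.cos (2 * (k * (Real.pi / 2))) = (-1) ^ k := by
    intro k
    rw [← Real.cos_nat_mul_pi]
    ring_nf
  have hsg : ∀ k : ℕ, 1 ≤ (-1 : ℝ) ^ k * G q a b t (k * (Real.pi / 2)) := by
    intro k
    have h := abs_le.1 (G_bd hq he ht ht' (k * (Real.pi / 2)))
    rw [hcos] at h
    rcases neg_one_pow_eq_or ℝ k with h1 | h1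
    · rw [h1] at h ⊢
      linarith [h.1]
    · rw [h1] at h ⊢
      linarith [h.2]
  have hle : (k : ℝ) * (Real.pi / 2) ≤ (k + 1) * (Real.pi / 2) := by nlinarith
  have hc : ContinuousOn (fun θ => (-1 : ℝ) ^ k * G q a b t θ)
      (Set.Icc (k * (Real.pi / 2)) ((k + 1) * (Real.pi / 2))) :=
    (continuous_const.mul (G_cont q a b t)).continuousOn
  have h1 := hsg k
  have h2 := hsg (k + 1)
  rw [pow_succ] at h2
  push_cast at h2
  obtain ⟨θ, hθ, h0⟩ := intermediate_value_Ioo' hle hc (show (0 : ℝ) ∈ Set.Ioo _ _ from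
    ⟨by linarith, by linarith⟩)
  refine ⟨θ, hθ.1, hθ.2, ?_⟩
  rcases mul_eq_zero.1 h0 with h3 | h3
  · exact absurd h3 (pow_ne_zero _ (by norm_num))
  · exact h3

theorem eval_half {q : ℕ} (hq : 0 < q) (a b t θ : ℝ) (h0 : G q a b t θ = 0) :
    (half q ((a : ℂ) + b * Complex.I) (t : ℂ)).eval
      ((Real.sqrt q : ℂ) * Complex.exp (θ * Complex.I)) = 0 := by
  have hq' : (0 : ℝ) < q := by exact_mod_cast hq
  have hs : Real.sqrt q ≠ 0 := (Real.sqrt_pos.2 hq').ne'
  have hs2 : Real.sqrt q * Real.sqrt q = q := Real.mul_self_sqrt hq'.le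
  have hsC : ((Real.sqrt q : ℝ) : ℂ) * ((Real.sqrt q : ℝ) : ℂ) = (q : ℂ) := by
    exact_mod_cast congrArg (fun x : ℝ => (x : ℂ)) hs2
  -- the real equation
  have hreal : 2 * (2 * Real.cos θ ^ 2 - 1) * q + t -
      2 * (a * Real.cos θ - b * Real.sin θ) * Real.sqrt q = 0 := by
    unfold G at h0
    rw [Real.cos_two_mul] at h0
    have h1 : (2 * (2 * Real.cos θ ^ 2 - 1) + t / q -
      2 * (a * Real.cos θ - b * Real.sin θ) / Real.sqrt q) * q = 0 := by rw [h0, zero_mul]
    have h2 : (2 * (2 * Real.cos θ ^ 2 - 1) + t / q -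
      2 * (a * Real.cos θ - b * Real.sin θ) / Real.sqrt q) * q =
      2 * (2 * Real.cos θ ^ 2 - 1) * q + t * (q / q) -
      2 * (a * Real.cos θ - b * Real.sin θ) * (q / Real.sqrt q) := by ring
    have h3 : (q : ℝ) / Real.sqrt q = Real.sqrt q := by
      rw [div_eq_iff hs, hs2]
    rw [h2, h3, div_self hq'.ne', mul_one] at h1
    exact h1
  have hC := congrArg (fun x : ℝ => (x : ℂ)) hreal
  push_cast at hC
  have hcs : (Complex.cos θ) ^ 2 + (Complex.sin θ) ^ 2 = 1 := Complex.cos_sq_add_sin_sq _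
  have hI : Complex.I ^ 2 = -1 := Complex.I_sq
  have hconj : (starRingEnd ℂ) ((a : ℂ) + b * Complex.I) = (a : ℂ) - b * Complex.I := by
    simp [sub_eq_add_neg]
  unfold half
  rw [hconj, Complex.exp_mul_I]
  simp only [eval_add, eval_sub, eval_mul, eval_pow, eval_X, eval_C]
  generalize Complex.cos (θ : ℂ) = c at hC hcs ⊢
  generalize Complex.sin (θ : ℂ) = s at hC hcs ⊢
  generalize ((Real.sqrt q : ℝ) : ℂ) = r at hC hsC ⊢
  rw [← hsC] at hC ⊢
  -- w = c + s I, w' = c - s I
  have hw : (c + s * Complex.I) * (c - s * Complex.I) = 1 := by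
    linear_combination hcs - s ^ 2 * hI
  have hC' : ((c + s * Complex.I) ^ 2 + (c - s * Complex.I) ^ 2) * (r * r) + t -
      ((a + b * Complex.I) * (c + s * Complex.I) + (a - b * Complex.I) * (c - s * Complex.I)) * r
      = 0 := by
    linear_combination hC - 2 * (r * r) * hcs + 2 * (r * r) * s ^ 2 * hI - 2 * b * s * r * hI
  generalize c + s * Complex.I = w at hw hC' ⊢
  generalize c - s * Complex.I = w' at hw hC'
  linear_combination (r * r * w ^ 2) * hC' + (-(r ^ 4) * (w * w' + 1) +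
    r ^ 3 * w * (a - b * Complex.I)) * hw

theorem half_monic (q : ℕ) (e t : ℂ) : (half q e t).Monic ∧ (half q e t).natDegree = 4 := by
  have h : (half q e t).natDegree = 4 := by
    unfold half
    compute_degree!
  refine ⟨?_, h⟩
  unfold half
  monicity!

theorem s20b : S20b := by
  intro q e t hq he ht ht'
  have he' : e = (e.re : ℂ) + e.im * Complex.I := (Complex.re_add_im e).symm
  have hen : 16 * (e.re ^ 2 + e.im ^ 2) ≤ (q : ℝ) := by
    have : ‖e‖ ^ 2 = e.re ^ 2 + e.im ^ 2 := by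
      rw [← Complex.normSq_eq_norm_sq, Complex.normSq_apply]
      ring
    rw [this] at he
    exact he
  choose θ h1 h2 h3 using fun k : ℕ => exists_zero hq hen ht ht' k
  have hpi := Real.pi_pos
  have hmono : ∀ i j : ℕ, i < j → θ i < θ j := by
    intro i j hij
    have h4 : ((i : ℝ) + 1) ≤ j := by exact_mod_cast hij
    have h5 : ((i : ℝ) + 1) * (Real.pi / 2) ≤ j * (Real.pi / 2) :=
      mul_le_mul_of_nonneg_right h4 (by positivity)
    linarith [h2 i, h1 j]
  have hrange : ∀ i : Fin 4, 0 < θ i ∧ θ i < 2 * Real.pi := by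
    intro i
    have h4 : ((i : ℕ) : ℝ) + 1 ≤ 4 := by
      have := i.2
      exact_mod_cast this
    have h5 : (((i : ℕ) : ℝ) + 1) * (Real.pi / 2) ≤ 4 * (Real.pi / 2) :=
      mul_le_mul_of_nonneg_right h4 (by positivity)
    have h6 : 0 ≤ ((i : ℕ) : ℝ) * (Real.pi / 2) := by positivity
    constructor
    · linarith [h1 i]
    · linarith [h2 i]
  have hq' : (0 : ℝ) < q := by exact_mod_cast hq
  have hs : 0 < Real.sqrt q := Real.sqrt_pos.2 hq'
  let z : Fin 4 → ℂ := fun i => (Real.sqrt q : ℂ) * Complex.exp (θ i * Complex.I)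
  have hinj : Function.Injective z := by
    intro i j hij
    have h4 : Complex.exp (θ i * Complex.I) = Complex.exp (θ j * Complex.I) :=
      mul_left_cancel₀ (by exact_mod_cast hs.ne') hij
    obtain ⟨n, hn⟩ := Complex.exp_eq_exp_iff_exists_int.1 h4
    have h5 : (θ i : ℂ) = θ j + n * (2 * Real.pi) := by
      have : ((θ i : ℂ) - (θ j + n * (2 * Real.pi))) * Complex.I = 0 := by
        linear_combination hn
      exact sub_eq_zero.1 ((mul_eq_zero.1 this).resolve_right Complex.I_ne_zero)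
    have h6 : θ i = θ j + n * (2 * Real.pi) := by exact_mod_cast h5
    have hi := hrange i
    have hj := hrange j
    have h7 : n = 0 := by
      have k1 : (n : ℝ) < 1 := by
        by_contra hcon
        rw [not_lt] at hcon
        nlinarith
      have k2 : (-1 : ℝ) < n := by
        by_contra hcon
        rw [not_lt] at hcon
        nlinarith
      have k3 : n < 1 := by exact_mod_cast k1
      have k4 : -1 < n := by exact_mod_cast k2
      omega
    rw [h7, Int.cast_zero, zero_mul, add_zero] at h6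
    rcases lt_trichotomy (i : ℕ) (j : ℕ) with hlt | heq | hgt
    · exact absurd h6 (hmono _ _ hlt).ne
    · exact Fin.ext heq
    · exact absurd h6 (hmono _ _ hgt).ne'
  refine ⟨z, hinj, ?_, ?_⟩
  · intro i
    show ‖(Real.sqrt q : ℂ) * Complex.exp (θ i * Complex.I)‖ ^ 2 = q
    rw [norm_mul, Complex.norm_exp_ofReal_mul_I, mul_one, Complex.norm_real, Real.norm_eq_abs,
      sq_abs, Real.sq_sqrt hq'.le]
  · have hm1 : (∏ i, (X - C (z i))).Monic := monic_prod_of_monic _ _ fun i _ => monic_X_sub_C _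
    have hd1 : (∏ i, (X - C (z i))).natDegree = 4 := by
      rw [natDegree_prod_of_monic _ _ fun i _ => monic_X_sub_C _]
      simp
    obtain ⟨hm2, hd2⟩ := half_monic q e t
    have hdeg : (∏ i, (X - C (z i)) - half q e t).degree < (∏ i, (X - C (z i))).degree := by
      refine degree_sub_lt_left ?_ hm1.ne_zero ?_
      · rw [degree_eq_natDegree hm1.ne_zero, degree_eq_natDegree hm2.ne_zero, hd1, hd2]
      · rw [hm1.leadingCoeff, hm2.leadingCoeff]
    rw [← sub_eq_zero]
    refine eq_zero_of_degree_lt_of_eval_finset_eq_zero (Finset.univ.image z) ?_ ?_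
    · rw [Finset.card_image_of_injective _ hinj, Finset.card_univ, Fintype.card_fin]
      rwa [degree_eq_natDegree hm1.ne_zero, hd1] at hdeg
    · intro x hx
      obtain ⟨i, -, rfl⟩ := Finset.mem_image.1 hx
      rw [eval_sub, eval_prod]
      have k1 : ∏ j, eval (z i) (X - C (z j)) = 0 := by
        refine Finset.prod_eq_zero (Finset.mem_univ i) ?_
        simp
      have k2 : (half q e t).eval (z i) = 0 := by
        rw [he']
        exact eval_half hq _ _ _ _ (h3 i)
      rw [k1, k2, sub_zero]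

end Pool.Agent.H230.EFs20b
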