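import Pool.Agent.H857.EF.Core

/-!
# Statement S21b: counting bad parameters
-/

set_option autoImplicit false

namespace Pool.Agent.H662.EF

open Module Polynomial Pool.Agent.W521.Descent Pool.Agent.W521.Density Pool.Agent.W521.Count
  Pool.Agent.X297.UB Pool.Agent.H857.PB Pool.Agent.H857.PA Pool.Agent.H857.HK
open Pool.Agent.H857.EF

/-- the equation -/
def Eqn (q : ℕ) (ζ : ℂ) (x : ℤ × ℤ × ℤ) : Prop :=
  (x.1 : ℝ) ^ 2 = 2 * (1 + ζ.re) * (x.2.1 + 2 * (1 - ζ.re) * (x.2.2 - 2 * q * ζ.re))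

theorem eqn_inj (q : ℕ) (ζ : ℂ) (x y : ℤ × ℤ × ℤ) (hx : 1 ≤ x.1) (h1 : Eqn q ζ x)
    (h2 : Eqn q ζ y) (ha : x.1 = y.1) (ht : x.2.2 = y.2.2) : x = y := by
  unfold Eqn at h1 h2
  rw [← ha, ← ht] at h2
  have hA : (1 : ℝ) ≤ (x.1 : ℝ) := by exact_mod_cast hx
  have hA2 : (0 : ℝ) < (x.1 : ℝ) ^ 2 := by positivity
  have hne : 2 * (1 + ζ.re) ≠ 0 := by
    intro h0
    rw [h0, zero_mul] at h1
    linarith
  have h3 := h1.symm.trans h2
  have h4 := mul_left_cancel₀ hne h3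
  have h5 : (x.2.1 : ℝ) = (y.2.1 : ℝ) := by linarith
  have h6 : x.2.1 = y.2.1 := by exact_mod_cast h5
  exact Prod.ext ha (Prod.ext h6 ht)

theorem s21b : S21b := by
  classical
  set R : Finset ℂ := (rou_finite 64).toFinset with hR
  refine ⟨(R.card : ℝ) + 1, by positivity, ?_⟩
  intro q hq
  set P : Finset (ℤ × ℤ × ℤ) :=
    ((Finset.Icc 1 (Nat.sqrt q : ℤ)) ×ˢ ((Finset.Icc 0 (q : ℤ)) ×ˢ (Finset.Icc 1 (q : ℤ)))) with hP
  have hmemP : ∀ x : ℤ × ℤ × ℤ, Par q x.1 x.2.1 x.2.2 → x ∈ P := by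
    rintro ⟨A, n, t⟩ ⟨h1, h2, h3, h4, h5, h6⟩
    simp only at h1 h2 h3 h4 h5 h6
    have hA : A ≤ (Nat.sqrt q : ℤ) := by
      obtain ⟨m, rfl⟩ := Int.eq_ofNat_of_zero_le (by omega : (0 : ℤ) ≤ A)
      have h7 : m * m ≤ q := by
        have h8 : (m : ℤ) ^ 2 ≤ q := by
          have : (0 : ℤ) ≤ (m : ℤ) ^ 2 := sq_nonneg _
          linarith
        have h9 : ((m * m : ℕ) : ℤ) ≤ (q : ℤ) := by
          push_cast
          rw [← sq]
          exact h8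
        exact_mod_cast h9
      exact_mod_cast Nat.le_sqrt.2 h7
    rw [hP, Finset.mem_product, Finset.mem_product, Finset.mem_Icc, Finset.mem_Icc,
      Finset.mem_Icc]
    refine ⟨⟨h1, hA⟩, ⟨?_, ?_⟩, ⟨h5, ?_⟩⟩
    · show (0 : ℤ) ≤ n
      omega
    · show n ≤ (q : ℤ)
      omega
    · show t ≤ (q : ℤ)
      omega
  have hsub : {x : ℤ × ℤ × ℤ | Par q x.1 x.2.1 x.2.2 ∧ ∃ ζ : ℂ, ζ ∈ rou 64 ∧ (x.1 : ℝ) ^ 2 =
      2 * (1 + ζ.re) * (x.2.1 + 2 * (1 - ζ.re) * (x.2.2 - 2 * q * ζ.re))} ⊆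
      ((R.biUnion fun ζ => P.filter fun x => Eqn q ζ x : Finset (ℤ × ℤ × ℤ)) :
        Set (ℤ × ℤ × ℤ)) := by
    rintro x ⟨h1, ζ, h2, h3⟩
    rw [Finset.mem_coe, Finset.mem_biUnion]
    refine ⟨ζ, (rou_finite 64).mem_toFinset.2 h2, ?_⟩
    rw [Finset.mem_filter]
    exact ⟨hmemP x h1, h3⟩
  have hcard : ∀ ζ : ℂ, (P.filter fun x => Eqn q ζ x).card ≤ Nat.sqrt q * q := by
    intro ζ
    have h1 : (P.filter fun x => Eqn q ζ x).card ≤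
        ((Finset.Icc 1 (Nat.sqrt q : ℤ)) ×ˢ (Finset.Icc 1 (q : ℤ))).card := by
      apply Finset.card_le_card_of_injOn (fun x => (x.1, x.2.2))
      · intro x hx
        rw [Finset.mem_coe, Finset.mem_filter, hP, Finset.mem_product, Finset.mem_product] at hx
        rw [Finset.mem_coe, Finset.mem_product]
        exact ⟨hx.1.1, hx.1.2.2⟩
      · intro x hx y hy hxy
        rw [Finset.mem_coe, Finset.mem_filter, hP, Finset.mem_product, Finset.mem_Icc] at hx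
        rw [Finset.mem_coe, Finset.mem_filter] at hy
        have hxy' : (x.1, x.2.2) = (y.1, y.2.2) := hxy
        rw [Prod.mk.injEq] at hxy'
        exact eqn_inj q ζ x y hx.1.1.1 hx.2 hy.2 hxy'.1 hxy'.2
    refine h1.trans ?_
    rw [Finset.card_product, Int.card_Icc, Int.card_Icc]
    apply Nat.mul_le_mul
    · omega
    · omega
  have h1 : {x : ℤ × ℤ × ℤ | Par q x.1 x.2.1 x.2.2 ∧ ∃ ζ : ℂ, ζ ∈ rou 64 ∧ (x.1 : ℝ) ^ 2 =
      2 * (1 + ζ.re) * (x.2.1 + 2 * (1 - ζ.re) * (x.2.2 - 2 * q * ζ.re))}.ncard ≤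
      R.card * (Nat.sqrt q * q) := by
    refine (Set.ncard_le_ncard hsub (Finset.finite_toSet _)).trans ?_
    rw [Set.ncard_coe_finset]
    refine Finset.card_biUnion_le.trans ?_
    refine (Finset.sum_le_card_nsmul _ _ _ fun ζ _ => hcard ζ).trans ?_
    rw [smul_eq_mul]
  have hs : (Nat.sqrt q : ℝ) ≤ Real.sqrt q := Real.nat_sqrt_le_real_sqrt
  have hq2 : (q : ℝ) = Real.sqrt q ^ 2 := (Real.sq_sqrt (Nat.cast_nonneg q)).symm
  have hs0 : 0 ≤ Real.sqrt q := Real.sqrt_nonneg _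
  calc ({x : ℤ × ℤ × ℤ | Par q x.1 x.2.1 x.2.2 ∧ ∃ ζ : ℂ, ζ ∈ rou 64 ∧ (x.1 : ℝ) ^ 2 =
      2 * (1 + ζ.re) * (x.2.1 + 2 * (1 - ζ.re) * (x.2.2 - 2 * q * ζ.re))}.ncard : ℝ) ≤
      ((R.card * (Nat.sqrt q * q) : ℕ) : ℝ) := by exact_mod_cast h1
    _ = (R.card : ℝ) * ((Nat.sqrt q : ℝ) * q) := by rw [Nat.cast_mul, Nat.cast_mul]
    _ ≤ (R.card : ℝ) * (Real.sqrt q * q) :=
        mul_le_mul_of_nonneg_left (mul_le_mul_of_nonneg_right hs (Nat.cast_nonneg q))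
          (Nat.cast_nonneg _)
    _ = (R.card : ℝ) * Real.sqrt q ^ 3 := by
        conv_lhs => rw [hq2, Real.sqrt_sq hs0]
        ring
    _ ≤ ((R.card : ℝ) + 1) * Real.sqrt q ^ 3 := by
        have : 0 ≤ Real.sqrt q ^ 3 := by positivity
        linarith

end Pool.Agent.H662.EF
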