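import Pool.Agent.H857.EF.Core

/-!
# The lower bound for the number of the abelian fourfolds with exotic Tate classes: assembly
-/

set_option autoImplicit false

namespace Pool.Agent.H687.EF

open Module Polynomial Pool.Agent.W521.Frob Pool.Agent.W521.Descent Pool.Agent.W521.Density
  Pool.Agent.W521.Count Pool.Agent.X297.UB Pool.Agent.H857.PB Pool.Agent.H857.PA Pool.Agent.H857.HK
  Pool.Agent.H857.EF

lemma cf_inj {q : ℕ} {A n t A' n' t' : ℤ} (hA : 1 ≤ A) (h : cf q A n t = cf q A' n' t') :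
    A = A' ∧ n = n' ∧ t = t' := by
  have h3 : -A = -A' := congrFun h 3
  have h1 : -(A * (t - 2 * q)) = -(A' * (t' - 2 * q)) := congrFun h 1
  have h2 : 2 * (t - 2 * q) + n = 2 * (t' - 2 * q) + n' := congrFun h 2
  have e1 : A = A' := by omega
  subst e1
  have e2 : A * (t - 2 * q) = A * (t' - 2 * q) := by linarith
  have e3 : t - 2 * q = t' - 2 * q := mul_left_cancel₀ (by omega) e2
  have e4 : t = t' := by linarith
  subst e4
  exact ⟨rfl, by linarith, rfl⟩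

lemma ordinary {p a : ℕ} (hp : p.Prime) {A n t : ℤ} (ht : ¬ (p : ℤ) ∣ t)
    (h : wp (p ^ a) 4 (cf (p ^ a) A n t) ∈ weilPolys (p ^ a) 4) :
    wp (p ^ a) 4 (cf (p ^ a) A n t) ∈ ordinaryWeilPolys (p ^ a) 4 := by
  refine ⟨h, ?_⟩
  have h8 := W521.Lower.weil_coeff_mid (p ^ a) (mkPoly 4 (cf (p ^ a) A n t))
  rw [mkPoly_natDegree] at h8
  have h9 : (mkPoly 4 (cf (p ^ a) A n t)).coeff 0 = cf (p ^ a) A n t 0 :=
    mkPoly_coeff 4 (cf (p ^ a) A n t) 0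
  have h10 : cf (p ^ a) A n t 0 =
    (t - 2 * ((p ^ a : ℕ) : ℤ)) ^ 2 + ((p ^ a : ℕ) : ℤ) * (A ^ 2 - 4 * n) := rfl
  rw [h9, h10] at h8
  obtain ⟨k, hk⟩ := h8
  have h11 : (wp (p ^ a) 4 (cf (p ^ a) A n t)).coeff 4 =
      t ^ 2 + ((p ^ a : ℕ) : ℤ) * (k - 4 * t + 4 * ((p ^ a : ℕ) : ℤ) + (A ^ 2 - 4 * n)) := by
    have h12 : (wp (p ^ a) 4 (cf (p ^ a) A n t)).coeff 4 =
      (weil (p ^ a) (mkPoly 4 (cf (p ^ a) A n t))).coeff 4 := rfl
    rw [h12]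
    linear_combination hk
  rw [h11]
  have h13 : IsCoprime t ((p ^ a : ℕ) : ℤ) := by
    push_cast
    refine IsCoprime.pow_right ?_
    rw [isCoprime_comm, Prime.coprime_iff_not_dvd (Nat.prime_iff_prime_int.1 hp)]
    exact ht
  exact (IsCoprime.pow_left h13).add_mul_left_left _

lemma prod_eq {q : ℕ} {A n t : ℤ} {e : ℂ} {z : Fin 4 → ℂ} (h : IsHalf q A n t e z) :
    ∏ i, z i = (q : ℂ) ^ 2 := by
  have h1 := congrArg (Polynomial.eval 0) h.eq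
  rw [eval_prod] at h1
  have h2 : (half q e (t : ℂ)).eval 0 = (q : ℂ) ^ 2 := by
    unfold half
    simp
  rw [h2] at h1
  rw [← h1]
  simp only [Fin.prod_univ_four, eval_sub, eval_X, eval_C]
  ring

lemma exotic (h19 : S19) (h20 : S20) (h21a : S21a) {q : ℕ} (hq : 0 < q) {A n t : ℤ}
    (hpar : Par q A n t)
    (hgood : ¬ ∃ ζ : ℂ, ζ ∈ rou 64 ∧ (A : ℝ) ^ 2 =
      2 * (1 + ζ.re) * (n + 2 * (1 - ζ.re) * (t - 2 * q * ζ.re))) :
    IsExotic q (wp q 4 (cf q A n t)) := by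
  obtain ⟨_, e, z, hz, hinj⟩ := h20 q A n t hq hpar
  refine h19 q _ z hq hinj hz.root (prod_eq hz) ?_
  intro i j hij hrel
  exact hgood (h21a q A n t e z i j hq hz hij hrel)

/-- The parameters as triples of natural numbers. -/
def box (p a : ℕ) : Finset (ℕ × ℕ × ℕ) :=
  Finset.Icc 1 (Nat.sqrt (p ^ a) / 8) ×ˢ (Finset.Ioc (p ^ a / 32) (p ^ a / 16) ×ˢ
    (Finset.Icc 1 (p ^ a / 2)).filter (fun e => ¬ p ∣ e))

/-- The cast. -/
def cst (x : ℕ × ℕ × ℕ) : ℤ × ℤ × ℤ := ((x.1 : ℤ), (x.2.1 : ℤ), (x.2.2 : ℤ))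

lemma cst_inj : Function.Injective cst := by
  rintro ⟨a, b, c⟩ ⟨a', b', c'⟩ h
  have h1 : (a : ℤ) = a' := congrArg (fun x => x.1) h
  have h2 : (b : ℤ) = b' := congrArg (fun x => x.2.1) h
  have h3 : (c : ℤ) = c' := congrArg (fun x => x.2.2) h
  have e1 : a = a' := by exact_mod_cast h1
  have e2 : b = b' := by exact_mod_cast h2
  have e3 : c = c' := by exact_mod_cast h3
  rw [e1, e2, e3]

lemma par_of_mem {p a : ℕ} {x : ℕ × ℕ × ℕ} (h : x ∈ box p a) :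
    Par (p ^ a) (cst x).1 (cst x).2.1 (cst x).2.2 ∧ ¬ p ∣ x.2.2 := by
  obtain ⟨A, n, t⟩ := x
  simp only [box, Finset.mem_product, Finset.mem_Icc, Finset.mem_Ioc, Finset.mem_filter] at h
  obtain ⟨⟨h1, h2⟩, ⟨h3, h4⟩, ⟨h5, h6⟩, h7⟩ := h
  refine ⟨⟨?_, ?_, ?_, ?_, ?_, ?_⟩, h7⟩
  · show (1 : ℤ) ≤ (A : ℤ)
    exact_mod_cast h1
  · show (64 : ℤ) * (A : ℤ) ^ 2 ≤ ((p ^ a : ℕ) : ℤ)
    have h8 : 8 * A ≤ Nat.sqrt (p ^ a) := by omega
    have h9 : (8 * A) * (8 * A) ≤ p ^ a := (Nat.mul_le_mul h8 h8).trans (Nat.sqrt_le _)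
    have h10 : 64 * A ^ 2 ≤ p ^ a := by nlinarith
    exact_mod_cast h10
  · show ((p ^ a : ℕ) : ℤ) < 32 * (n : ℤ)
    have h8 : p ^ a < 32 * n := by omega
    exact_mod_cast h8
  · show 16 * (n : ℤ) ≤ ((p ^ a : ℕ) : ℤ)
    have h8 : 16 * n ≤ p ^ a := by omega
    exact_mod_cast h8
  · show (1 : ℤ) ≤ (t : ℤ)
    exact_mod_cast h5
  · show 2 * (t : ℤ) ≤ ((p ^ a : ℕ) : ℤ)
    have h8 : 2 * t ≤ p ^ a := by omega
    exact_mod_cast h8

lemma par_finite (q : ℕ) (P : ℤ × ℤ × ℤ → Prop) :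
    {x : ℤ × ℤ × ℤ | Par q x.1 x.2.1 x.2.2 ∧ P x}.Finite := by
  have h1 : (Set.Icc (1 : ℤ) q ×ˢ (Set.Icc (0 : ℤ) q ×ˢ Set.Icc (1 : ℤ) q)).Finite :=
    (Set.finite_Icc _ _).prod ((Set.finite_Icc _ _).prod (Set.finite_Icc _ _))
  refine h1.subset ?_
  rintro ⟨A, n, t⟩ ⟨⟨h1, h2, h3, h4, h5, h6⟩, -⟩
  have hq : (0 : ℤ) ≤ q := Int.natCast_nonneg q
  dsimp only at h1 h2 h3 h4 h5 h6
  refine ⟨⟨h1, ?_⟩, ⟨?_, ?_⟩, ⟨h5, ?_⟩⟩
  · show A ≤ q
    nlinarith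
  · show 0 ≤ n
    omega
  · show n ≤ q
    omega
  · show t ≤ q
    omega

/-- The number of the parameters. -/
lemma box_card {p a : ℕ} (hp : p.Prime) (hq : 324 ≤ p ^ a) :
    Real.sqrt ((p : ℝ) ^ a) ^ 5 ≤ 8192 * ((box p a).card : ℝ) := by
  set q : ℕ := p ^ a with hqdef
  have hqR : ((q : ℕ) : ℝ) = (p : ℝ) ^ a := by rw [hqdef]; push_cast; rfl
  rw [← hqR]
  set s := Real.sqrt (q : ℝ) with hs
  have hs0 : 0 ≤ s := Real.sqrt_nonneg _
  have hq' : (324 : ℝ) ≤ q := by exact_mod_cast hq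
  have hs2 : s ^ 2 = q := Real.sq_sqrt (by linarith)
  have hs18 : 18 ≤ s := by
    rw [hs]
    apply Real.le_sqrt_of_sq_le
    linarith
  have hcard : (box p a).card = (Nat.sqrt q / 8) * ((q / 16 - q / 32) *
      ((Finset.Icc 1 (q / 2)).filter (fun e => ¬ p ∣ e)).card) := by
    rw [box, Finset.card_product, Finset.card_product, Nat.card_Icc, Nat.card_Ioc,
      Nat.add_sub_cancel]
  have hc := card_prime_to p (q / 2) hp
  set c := ((Finset.Icc 1 (q / 2)).filter (fun e => ¬ p ∣ e)).card with hcdef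
  have hc1 : q ≤ 8 * c := by omega
  have hc2 : q ≤ 64 * (q / 16 - q / 32) := by omega
  have hc3 : s ≤ 16 * ((Nat.sqrt q / 8 : ℕ) : ℝ) := by
    have h1 : s < Nat.sqrt q + 1 := by
      rw [hs]
      have := Nat.lt_succ_sqrt q
      have h2 : (q : ℝ) < ((Nat.sqrt q : ℝ) + 1) ^ 2 := by
        have h3 : q < (Nat.sqrt q + 1) * (Nat.sqrt q + 1) := this
        have h4 : (q : ℝ) < ((Nat.sqrt q : ℝ) + 1) * ((Nat.sqrt q : ℝ) + 1) := by exact_mod_cast h3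
        linarith [h4, sq ((Nat.sqrt q : ℝ) + 1)]
      rw [Real.sqrt_lt' (by positivity)]
      exact h2
    have h18 : 18 ≤ Nat.sqrt q := by
      rw [Nat.le_sqrt]
      omega
    have h5 : Nat.sqrt q + 1 ≤ 16 * (Nat.sqrt q / 8) := by omega
    have h6 : ((Nat.sqrt q : ℝ) + 1) ≤ 16 * ((Nat.sqrt q / 8 : ℕ) : ℝ) := by exact_mod_cast h5
    linarith
  have hc1' : (q : ℝ) ≤ 8 * (c : ℝ) := by exact_mod_cast hc1
  have hc2' : (q : ℝ) ≤ 64 * ((q / 16 - q / 32 : ℕ) : ℝ) := by exact_mod_cast hc2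
  rw [hcard]
  rw [Nat.cast_mul, Nat.cast_mul]
  have h1 : s ^ 5 = s * (q * q) := by rw [← hs2]; ring
  rw [h1]
  have h2 : (q : ℝ) * q ≤ (64 * ((q / 16 - q / 32 : ℕ) : ℝ)) * (8 * (c : ℝ)) :=
    mul_le_mul hc2' hc1' (by positivity) (by positivity)
  have h3 : s * (q * q) ≤ (16 * ((Nat.sqrt q / 8 : ℕ) : ℝ)) *
      ((64 * ((q / 16 - q / 32 : ℕ) : ℝ)) * (8 * (c : ℝ))) :=
    mul_le_mul hc3 h2 (by positivity) (by positivity)
  refine h3.trans (le_of_eq ?_)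
  ring

theorem s22 (h19 : S19) (h20 : S20) (h21a : S21a) (h21b : S21b) : S22 := by
  classical
  obtain ⟨C, hC, hC'⟩ := h21b
  refine ⟨16384 * (1 + C), by positivity, fun p _ a ha hlarge => ?_⟩
  have hp : p.Prime := Fact.out
  have hq0 : 0 < p ^ a := pow_pos hp.pos a
  have hqR : ((p ^ a : ℕ) : ℝ) = (p : ℝ) ^ a := by push_cast; rfl
  have hq324 : 324 ≤ p ^ a := by
    have h1 : (324 : ℝ) ≤ ((p ^ a : ℕ) : ℝ) := by
      rw [hqR]
      nlinarith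
    exact_mod_cast h1
  have hbox := box_card (p := p) (a := a) hp hq324
  have hbad := hC' (p ^ a) hq0
  set q : ℕ := p ^ a with hqdef
  set B : Set (ℤ × ℤ × ℤ) := {x : ℤ × ℤ × ℤ | Par q x.1 x.2.1 x.2.2 ∧ ∃ ζ : ℂ, ζ ∈ rou 64 ∧
    (x.1 : ℝ) ^ 2 = 2 * (1 + ζ.re) * (x.2.1 + 2 * (1 - ζ.re) * (x.2.2 - 2 * q * ζ.re))} with hB
  have hBfin : B.Finite := par_finite q _
  set E := {f ∈ newtonWeil p a 4 | IsExotic (p ^ a) f} with hE
  have hEfin : E.Finite := newtonWeil_finite.subset fun _ h => h.1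
  set T : Set (ℤ × ℤ × ℤ) := cst '' (box p a : Set (ℕ × ℕ × ℕ)) with hT
  have hTcard : T.ncard = (box p a).card := by
    rw [hT, Set.ncard_image_of_injective _ cst_inj, Set.ncard_coe_finset]
  have hTfin : T.Finite := (Finset.finite_toSet _).image _
  have hle : (T \ B).ncard ≤ E.ncard := by
    refine Set.ncard_le_ncard_of_injOn (fun x => wp q 4 (cf q x.1 x.2.1 x.2.2)) ?_ ?_ hEfin
    · rintro x ⟨⟨y, hy, rfl⟩, hx⟩
      have hy' := par_of_mem (p := p) (a := a) (x := y) (by exact_mod_cast hy)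
      obtain ⟨hpar, hyt⟩ := hy'
      have hw : wp q 4 (cf q (cst y).1 (cst y).2.1 (cst y).2.2) ∈ weilPolys q 4 :=
        (h20 q _ _ _ hq0 hpar).1
      refine ⟨ordinary_mem ha (ordinary hp ?_ hw), ?_⟩
      · show ¬ (p : ℤ) ∣ (y.2.2 : ℤ)
        exact_mod_cast hyt
      · refine exotic h19 h20 h21a hq0 hpar ?_
        intro h
        exact hx ⟨hpar, h⟩
    · rintro x ⟨⟨y, hy, rfl⟩, -⟩ x' ⟨⟨y', hy', rfl⟩, -⟩ h
      have h1 := par_of_mem (p := p) (a := a) (x := y) (by exact_mod_cast hy)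
      have h2 := wp_injective hq0.ne' 4 h
      obtain ⟨e1, e2, e3⟩ := cf_inj h1.1.1 h2
      exact Prod.ext e1 (Prod.ext e2 e3)
  have h1 : T.ncard ≤ (T \ B).ncard + B.ncard := Set.ncard_le_ncard_sdiff_add_ncard T B hBfin
  have h2 : ((box p a).card : ℝ) ≤ (E.ncard : ℝ) + B.ncard := by
    rw [← hTcard]
    exact_mod_cast h1.trans (Nat.add_le_add_right hle _)
  rw [hqR] at hbad
  set s := Real.sqrt ((p : ℝ) ^ a) with hs
  have hs0 : 0 ≤ s := Real.sqrt_nonneg _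
  have hs2 : s ^ 2 = (p : ℝ) ^ a := Real.sq_sqrt (by positivity)
  have h3 : s ^ 3 * (16384 * C) ≤ s ^ 5 := by
    have h4 : s ^ 5 = s ^ 3 * s ^ 2 := by ring
    rw [h4, hs2]
    refine mul_le_mul_of_nonneg_left ?_ (by positivity)
    linarith
  have h5 : (0 : ℝ) ≤ (E.ncard : ℝ) := Nat.cast_nonneg _
  have h6 : s ^ 5 ≤ 8192 * ((E.ncard : ℝ) + C * s ^ 3) := by
    refine hbox.trans ?_
    refine mul_le_mul_of_nonneg_left ?_ (by norm_num)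
    linarith
  have h7 : s ^ 5 ≤ 16384 * (E.ncard : ℝ) := by nlinarith
  refine h7.trans ?_
  refine mul_le_mul_of_nonneg_right ?_ h5
  linarith

end Pool.Agent.H687.EF
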