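import Pool.Agent.H857.EF.Core3
import Pool.Agent.H857.EF.P.S22

/-!
# The lower bound for the number of the simple ordinary abelian fourfolds with exotic Tate classes
(the proof of helper687, extended by irreducibility)
-/

set_option autoImplicit false

namespace Pool.Agent.H857.EF

open Module Polynomial Pool.Agent.W521.Frob Pool.Agent.W521.Descent Pool.Agent.W521.Density
  Pool.Agent.W521.Count Pool.Agent.X297.UB Pool.Agent.H857.PB Pool.Agent.H857.PA Pool.Agent.H857.HK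
  Pool.Agent.H687.EF

theorem s22i (h19 : S19) (h20 : S20) (h21a : S21a) (h21b : S21b) (h33 : S33) (h34 : S34) :
    S22i := by
  classical
  obtain ⟨C, hC, hC'⟩ := h21b
  obtain ⟨D, hD, hD'⟩ := h33
  refine ⟨16384 + 32768 * C + (32768 * D) ^ 2, by positivity, fun p _ a ha hlarge => ?_⟩
  have hp : p.Prime := Fact.out
  have hq0 : 0 < p ^ a := pow_pos hp.pos a
  have hqR : ((p ^ a : ℕ) : ℝ) = (p : ℝ) ^ a := by push_cast; rfl
  have hq324 : 324 ≤ p ^ a := by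
    have h1 : (324 : ℝ) ≤ ((p ^ a : ℕ) : ℝ) := by
      rw [hqR]
      nlinarith [sq_nonneg (32768 * D)]
    exact_mod_cast h1
  have hbox := box_card (p := p) (a := a) hp hq324
  have hbad := hC' (p ^ a) hq0
  have hred := hD' (p ^ a) hq0
  set q : ℕ := p ^ a with hqdef
  set B1 : Set (ℤ × ℤ × ℤ) := {x : ℤ × ℤ × ℤ | Par q x.1 x.2.1 x.2.2 ∧
    ¬ Irreducible (mkPoly 4 (cf q x.1 x.2.1 x.2.2))} with hB1
  have hB1fin : B1.Finite := par_finite q _
  set B : Set (ℤ × ℤ × ℤ) := {x : ℤ × ℤ × ℤ | Par q x.1 x.2.1 x.2.2 ∧ ∃ ζ : ℂ, ζ ∈ rou 64 ∧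
    (x.1 : ℝ) ^ 2 = 2 * (1 + ζ.re) * (x.2.1 + 2 * (1 - ζ.re) * (x.2.2 - 2 * q * ζ.re))} with hB
  have hBfin : B.Finite := par_finite q _
  set E := {f ∈ ordinaryWeilPolys q 4 | Irreducible f ∧ IsExotic q f} with hE
  have hEfin : E.Finite := newtonWeil_finite.subset fun _ h => ordinary_mem ha h.1
  set T : Set (ℤ × ℤ × ℤ) := cst '' (H687.EF.box p a : Set (ℕ × ℕ × ℕ)) with hT
  have hTcard : T.ncard = (H687.EF.box p a).card := by
    rw [hT, Set.ncard_image_of_injective _ cst_inj, Set.ncard_coe_finset]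
  have hTfin : T.Finite := (Finset.finite_toSet _).image _
  have hle : ((T \ B) \ B1).ncard ≤ E.ncard := by
    refine Set.ncard_le_ncard_of_injOn (fun x => wp q 4 (cf q x.1 x.2.1 x.2.2)) ?_ ?_ hEfin
    · rintro x ⟨⟨⟨y, hy, rfl⟩, hx⟩, hx1⟩
      have hy' := par_of_mem (p := p) (a := a) (x := y) (by exact_mod_cast hy)
      obtain ⟨hpar, hyt⟩ := hy'
      have hw : wp q 4 (cf q (cst y).1 (cst y).2.1 (cst y).2.2) ∈ weilPolys q 4 :=
        (h20 q _ _ _ hq0 hpar).1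
      refine ⟨ordinary hp ?_ hw, ?_, ?_⟩
      · show ¬ (p : ℤ) ∣ (y.2.2 : ℤ)
        exact_mod_cast hyt
      · refine h34 q hq0 _ hw ?_
        by_contra hc
        exact hx1 ⟨hpar, hc⟩
      · refine exotic h19 h20 h21a hq0 hpar ?_
        intro h
        exact hx ⟨hpar, h⟩
    · rintro x ⟨⟨⟨y, hy, rfl⟩, -⟩, -⟩ x' ⟨⟨⟨y', hy', rfl⟩, -⟩, -⟩ h
      have h1 := par_of_mem (p := p) (a := a) (x := y) (by exact_mod_cast hy)
      have h2 := wp_injective hq0.ne' 4 h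
      obtain ⟨e1, e2, e3⟩ := cf_inj h1.1.1 h2
      exact Prod.ext e1 (Prod.ext e2 e3)
  have h1 : T.ncard ≤ (T \ B).ncard + B.ncard := Set.ncard_le_ncard_sdiff_add_ncard T B hBfin
  have h1' : (T \ B).ncard ≤ ((T \ B) \ B1).ncard + B1.ncard :=
    Set.ncard_le_ncard_sdiff_add_ncard (T \ B) B1 hB1fin
  have h2 : ((H687.EF.box p a).card : ℝ) ≤ (E.ncard : ℝ) + B.ncard + B1.ncard := by
    rw [← hTcard]
    have h0 : T.ncard ≤ E.ncard + B.ncard + B1.ncard := by omega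
    exact_mod_cast h0
  rw [hqR] at hbad hred
  set s := Real.sqrt ((p : ℝ) ^ a) with hs
  have hs0 : 0 ≤ s := Real.sqrt_nonneg _
  have hs2 : s ^ 2 = (p : ℝ) ^ a := Real.sq_sqrt (by positivity)
  have hsD : 32768 * D ≤ s := by
    rw [hs]
    apply Real.le_sqrt_of_sq_le
    nlinarith
  have h3 : s ^ 3 * (32768 * C) ≤ s ^ 5 := by
    have h4 : s ^ 5 = s ^ 3 * s ^ 2 := by ring
    rw [h4, hs2]
    refine mul_le_mul_of_nonneg_left ?_ (by positivity)
    nlinarith [sq_nonneg (32768 * D)]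
  have h3' : s ^ 4 * (32768 * D) ≤ s ^ 5 := by
    have h4 : s ^ 5 = s ^ 4 * s := by ring
    rw [h4]
    exact mul_le_mul_of_nonneg_left hsD (by positivity)
  have h5 : (0 : ℝ) ≤ (E.ncard : ℝ) := Nat.cast_nonneg _
  have h6 : s ^ 5 ≤ 8192 * ((E.ncard : ℝ) + C * s ^ 3 + D * s ^ 4) := by
    refine hbox.trans ?_
    refine mul_le_mul_of_nonneg_left ?_ (by norm_num)
    linarith
  have h7 : s ^ 5 ≤ 16384 * (E.ncard : ℝ) := by nlinarith
  refine h7.trans ?_
  refine mul_le_mul_of_nonneg_right ?_ h5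
  nlinarith [sq_nonneg (32768 * D)]

end Pool.Agent.H857.EF
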