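import Pool.Agent.H857.EF.Core

/-!
# The number of all the Weil polynomials of degree eight
-/

set_option autoImplicit false

namespace Pool.Agent.H740.EF

open Module Polynomial Pool.Agent.W521.Descent Pool.Agent.W521.Density Pool.Agent.W521.Count
  Pool.Agent.X297.UB Pool.Agent.H857.PB Pool.Agent.H857.PA Pool.Agent.H857.HK
  Pool.Agent.H857.EF

lemma tot_four : tot 4 = 10 := rfl

/-- The upper bound for the number of all Weil polynomials. -/
lemma newtonWeil_upper {p : ℕ} [Fact p.Prime] {a : ℕ} (g : ℕ) :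
    ((newtonWeil p a g).ncard : ℝ) ≤ (3 * (4 : ℝ) ^ g) ^ g *
      Real.sqrt ((p : ℝ) ^ a) ^ tot g := by
  classical
  have hp : p.Prime := Fact.out
  have hq : 0 < p ^ a := pow_pos hp.pos _
  have h2 : (newtonWeil p a g) ⊆ (((Fintype.piFinset (box (p ^ a) g)).image
      (wp (p ^ a) g) : Finset ℤ[X]) : Set ℤ[X]) := by
    intro f hf
    obtain ⟨x, hx, -⟩ := Pool.Agent.W521.Count.exists_point hq.ne' hf.1
    rw [Finset.mem_coe, Finset.mem_image]
    have hfx : f = wp (p ^ a) g x := hx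
    exact ⟨x, mem_box hq.ne' (hfx ▸ hf.1), hfx.symm⟩
  have h3 := Set.ncard_le_ncard h2 (Finset.finite_toSet _)
  rw [Set.ncard_coe_finset] at h3
  have h4 := card_all_box (g := g) hq
  rw [ncast_pow] at h4
  refine le_trans ?_ h4
  exact_mod_cast h3.trans Finset.card_image_le

/-- S23. -/
theorem s23 : S23 := by
  refine ⟨4 * 2 ^ (4 ^ 2) + (3 * (4 : ℝ) ^ 4) ^ 4, by positivity, ?_⟩
  intro p _ a ha
  have h1 := newtonWeil_lower (p := p) ha 4
  have h2 := newtonWeil_upper (p := p) (a := a) 4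
  rw [tot_four] at h1 h2
  have hn : (0 : ℝ) ≤ ((newtonWeil p a 4).ncard : ℝ) := Nat.cast_nonneg _
  have hs : (0 : ℝ) ≤ Real.sqrt ((p : ℝ) ^ a) ^ 10 := by positivity
  refine ⟨newtonWeil_finite, h1.trans ?_, h2.trans ?_⟩
  · refine mul_le_mul_of_nonneg_right ?_ hn
    have : (0 : ℝ) ≤ (3 * (4 : ℝ) ^ 4) ^ 4 := by positivity
    linarith
  · refine mul_le_mul_of_nonneg_right ?_ hs
    have : (0 : ℝ) ≤ 4 * 2 ^ (4 ^ 2) := by positivity
    linarith

end Pool.Agent.H740.EF
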