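import Pool.Agent.H857.EF.Core2

/-! Project ExoticFourfolds of helper857, tasks S26, S29, S30. -/

set_option autoImplicit false

namespace Pool.Agent.H962.EF26

open Module Polynomial Pool.Agent.W521.Frob Pool.Agent.W521.Descent Pool.Agent.W521.Density
  Pool.Agent.W521.Count Pool.Agent.X297.UB Pool.Agent.H857.PB Pool.Agent.H857.PA
  Pool.Agent.H857.HK Pool.Agent.H857.EF

/-! ### S26 -/

/-- The degree of the quotient of a product of roots of a polynomial of degree eight. -/
theorem deg_le {f : ℤ[X]} (hf : f.Monic) (hd : f.natDegree = 8) {n : ℕ} (x : Fin n → ℂ)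
    (hx : ∀ i, aeval (x i) f = 0) (c : ℕ) :
    (minpoly ℚ ((∏ i, x i) / (c : ℂ))).natDegree ≤ 8 ^ n := by
  classical
  have h0 : ∀ i, IsIntegral ℚ (x i) ∧ (minpoly ℚ (x i)).natDegree ≤ 8 := fun i => by
    have := root_data hf (hx i)
    rwa [hd] at this
  obtain ⟨h1, h2⟩ := finrank_adjoin_le x 8 (fun i => (h0 i).1) (fun i => (h0 i).2) Finset.univ
  rw [Finset.card_univ, Fintype.card_fin] at h2
  have hmem : ∀ i, x i ∈ IntermediateField.adjoin ℚ (x '' (Finset.univ : Finset (Fin n))) :=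
    fun i => IntermediateField.subset_adjoin _ _ ⟨i, by simp, rfl⟩
  have h4 : (∏ i, x i) / (c : ℂ) ∈
      IntermediateField.adjoin ℚ (x '' (Finset.univ : Finset (Fin n))) :=
    div_mem (prod_mem fun i _ => hmem i) (natCast_mem _ c)
  exact (natDegree_minpoly_le _ h4).trans h2

/-- A common exponent of the roots of unity of bounded degree. -/
theorem exists_exponent (K : ℕ) : ∃ m : ℕ, 0 < m ∧ ∀ ζ ∈ rou K, ζ ^ m = 1 := by
  classical
  refine ⟨∏ ζ ∈ (rou_finite K).toFinset, orderOf ζ, ?_, fun ζ hζ => ?_⟩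
  · refine Finset.prod_pos fun ζ hζ => ?_
    rw [Set.Finite.mem_toFinset] at hζ
    obtain ⟨⟨n, hn, hz⟩, -⟩ := hζ
    exact orderOf_pos_iff.2 (isOfFinOrder_iff_pow_eq_one.2 ⟨n, hn, hz⟩)
  · exact orderOf_dvd_iff_pow_eq_one.1 (Finset.dvd_prod_of_mem orderOf
      ((rou_finite K).mem_toFinset.2 hζ))

theorem s26 : S26 := by
  obtain ⟨m, hm, hroot⟩ := exists_exponent 4096
  refine ⟨m, ⟨hm, ?_⟩, ⟨hm, ?_⟩⟩
  · rintro q hq f hf y z hy hz ⟨N, hN, hr⟩
    have hq0 : (q : ℂ) ≠ 0 := Nat.cast_ne_zero.2 hq.ne'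
    have hx : ∀ i, aeval (![y, z] i) f = 0 := by
      intro i
      fin_cases i
      · exact hy
      · exact hz
    have h1 := deg_le hf.1 hf.2.1 ![y, z] hx q
    rw [Fin.prod_univ_two] at h1
    have h1' : (minpoly ℚ (y * z / (q : ℂ))).natDegree ≤ 8 ^ 2 := h1
    have h2 : y * z / (q : ℂ) ∈ rou 4096 := by
      refine ⟨⟨N, hN, ?_⟩, h1'.trans (by norm_num)⟩
      rw [div_pow, hr, div_self (pow_ne_zero _ hq0)]
    have h3 := hroot _ h2
    rwa [div_pow, div_eq_one_iff_eq (pow_ne_zero _ hq0)] at h3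
  · rintro q hq f hf a b c d ha hb hc hd ⟨N, hN, hr⟩
    have hq0 : ((q : ℂ) ^ 2) ≠ 0 := pow_ne_zero _ (Nat.cast_ne_zero.2 hq.ne')
    have hx : ∀ i, aeval (![a, b, c, d] i) f = 0 := by
      intro i
      fin_cases i
      · exact ha
      · exact hb
      · exact hc
      · exact hd
    have h1 := deg_le hf.1 hf.2.1 ![a, b, c, d] hx (q ^ 2)
    rw [Fin.prod_univ_four, Nat.cast_pow] at h1
    have h1' : (minpoly ℚ (a * b * c * d / (q : ℂ) ^ 2)).natDegree ≤ 8 ^ 4 := h1
    have h2 : a * b * c * d / (q : ℂ) ^ 2 ∈ rou 4096 := by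
      refine ⟨⟨N, hN, ?_⟩, h1'.trans (by norm_num)⟩
      rw [div_pow, hr, div_self (pow_ne_zero _ hq0)]
    have h3 := hroot _ h2
    rwa [div_pow, div_eq_one_iff_eq (pow_ne_zero _ hq0)] at h3

/-! ### S29 -/

theorem exists_list {f g : ℤ[X]} {m : ℕ} (hg : IsPowerPoly f m g) (L : List ℂ)
    (hL : ∀ z ∈ L, aeval z g = 0) :
    ∃ L0 : List ℂ, (∀ y ∈ L0, aeval y f = 0) ∧ L0.map (· ^ m) = L := by
  induction L with
  | nil => exact ⟨[], by simp, rfl⟩
  | cons z L ih =>
    obtain ⟨L0, h1, h2⟩ := ih fun w hw => hL w (List.mem_cons_of_mem _ hw)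
    have h3 : z ∈ (g.map (Int.castRingHom ℂ)).roots := by
      rw [mem_roots (hg.1.map _).ne_zero, IsRoot.def, eval_map]
      exact hL z List.mem_cons_self
    rw [hg.2, Multiset.mem_map] at h3
    obtain ⟨y, hy, hyz⟩ := h3
    have h4 : aeval y f = 0 := by
      have := (mem_roots'.1 hy).2
      rw [IsRoot.def, eval_map] at this
      exact this
    refine ⟨y :: L0, ?_, ?_⟩
    · intro w hw
      rcases List.mem_cons.1 hw with h | h
      · rw [h]
        exact h4
      · exact h1 w h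
    · rw [List.map_cons, h2]
      exact congrArg (· :: L) hyz

theorem list_prod_pow (L : List ℂ) (n : ℕ) : (L.map (· ^ n)).prod = L.prod ^ n := by
  induction L with
  | nil => simp
  | cons a L ih => rw [List.map_cons, List.prod_cons, List.prod_cons, ih, mul_pow]

theorem transport {q m : ℕ} (hq : 0 < q) (h1 : KillsPairs m) (h2 : KillsQuads m) {f : ℤ[X]}
    (hf : f ∈ weilPolys q 4) {L : List ℂ} (hL : Matched4 (PairRel q) (QuadRel q) L) :
    (∀ z ∈ L, aeval z f = 0) →
    Matched4 (fun y z => y * z = ((q ^ m : ℕ) : ℂ))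
      (fun a b c d => a * b * c * d = ((q ^ m : ℕ) : ℂ) ^ 2) (L.map (· ^ m)) := by
  induction hL with
  | nil => intro _; exact Matched4.nil
  | @pair a b L L' hP _ hperm ih =>
    intro hroot
    have hr : ∀ z ∈ a :: b :: L, aeval z f = 0 := fun z hz => hroot z (hperm.mem_iff.2 hz)
    have ha := hr a (by simp)
    have hb := hr b (by simp)
    refine Matched4.pair (a := a ^ m) (b := b ^ m) (L := L.map (· ^ m)) ?_
      (ih fun z hz => hr z (by simp [hz])) ?_
    · have := h1.2 q hq f hf a b ha hb hP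
      rw [mul_pow] at this
      rw [this]
      push_cast
      rfl
    · exact hperm.map (· ^ m)
  | @quad a b c d L L' hR _ hperm ih =>
    intro hroot
    have hr : ∀ z ∈ a :: b :: c :: d :: L, aeval z f = 0 := fun z hz =>
      hroot z (hperm.mem_iff.2 hz)
    have ha := hr a (by simp)
    have hb := hr b (by simp)
    have hc := hr c (by simp)
    have hd := hr d (by simp)
    refine Matched4.quad (a := a ^ m) (b := b ^ m) (c := c ^ m) (d := d ^ m)
      (L := L.map (· ^ m)) ?_ (ih fun z hz => hr z (by simp [hz])) ?_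
    · have := h2.2 q hq f hf a b c d ha hb hc hd hR
      rw [mul_pow, mul_pow, mul_pow] at this
      rw [this]
      push_cast
      ring
    · exact hperm.map (· ^ m)

theorem s29 (h25 : S25) : S29 := by
  intro p _ a m ha h1 h2 x hx hirr g hg
  have hq : 0 < p ^ a := pow_pos (Fact.out : p.Prime).pos a
  have hf : wp (p ^ a) 4 x ∈ weilPolys (p ^ a) 4 := hx.1
  refine ⟨hg.1, ?_⟩
  intro s hs L hL c N hN hrel
  obtain ⟨L0, h3, h4⟩ := exists_list hg L hL
  have h5 := h25 p a ha x hx hirr L0 h3 ⟨m * s * N, by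
    have := h1.1
    positivity, c, by
    have e1 : ((L.map (· ^ s)).prod) ^ N = L0.prod ^ (m * s * N) := by
      rw [list_prod_pow, ← h4, list_prod_pow, ← pow_mul, ← pow_mul, mul_assoc]
    have e2 : (((((p ^ a) ^ m : ℕ) : ℂ) ^ s) ^ c) ^ N =
        ((p ^ a : ℕ) : ℂ) ^ (c * ((m * s * N : ℕ) : ℤ)) := by
      rw [Nat.cast_pow, ← zpow_natCast, ← zpow_natCast, ← zpow_natCast, ← zpow_mul, ← zpow_mul,
        ← zpow_mul]
      congr 1
      push_cast
      ring
    rw [← e1, hrel]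
    exact e2⟩
  rw [← h4]
  exact transport hq h1 h2 hf h5 h3

/-! ### S30 -/

theorem weil_mul (q : ℕ) {h h' : ℤ[X]} (hm : h.Monic) (hm' : h'.Monic) :
    weil q (h * h') = weil q h * weil q h' := by
  apply Polynomial.map_injective (Int.castRingHom ℂ) (RingHom.injective_int (Int.castRingHom ℂ))
  have key : ∀ α : ℂ, α ≠ 0 → aeval α (weil q (h * h')) = aeval α (weil q h * weil q h') := by
    intro α hα
    have hθ : α ^ 2 + q = ((α ^ 2 + q) / α) * α := by rw [div_mul_cancel₀ _ hα]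
    rw [map_mul, aeval_weil q (h * h') α _ hθ, aeval_weil q h α _ hθ, aeval_weil q h' α _ hθ,
      map_mul, hm.natDegree_mul hm', pow_add]
    ring
  refine Polynomial.eq_of_infinite_eval_eq _ _ ?_
  refine Set.Infinite.mono (s := {α : ℂ | α ≠ 0}) (fun α hα => ?_) ?_
  · have h1 := key α hα
    rw [aeval_def, aeval_def, eval₂_eq_eval_map, eval₂_eq_eval_map] at h1
    exact h1
  · exact (Set.finite_singleton (0 : ℂ)).infinite_compl

theorem s30 : S30 := by
  intro q hq f hf hirr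
  obtain ⟨x, hfx, -⟩ := exists_point hq.ne' hf
  refine ⟨x, hfx, ?_⟩
  obtain ⟨P, hP⟩ : ∃ P, P = mkPoly 4 x := ⟨_, rfl⟩
  have hPm : P.Monic := by rw [hP]; exact mkPoly_monic 4 x
  have hPd : P.natDegree = 4 := by rw [hP]; exact mkPoly_natDegree 4 x
  have hP1 : P ≠ 1 := by
    intro h
    rw [h, natDegree_one] at hPd
    omega
  rw [← hP, hPm.irreducible_iff_natDegree]
  refine ⟨hP1, fun u v hu hv huv => ?_⟩
  have hw : f = weil q u * weil q v := by
    rw [hfx, ← hP, ← huv, weil_mul q hu hv]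
  rw [hf.1.irreducible_iff_natDegree] at hirr
  have h1 := hirr.2 (weil q u) (weil q v) (weil_monic q hu) (weil_monic q hv) hw.symm
  rw [weil_natDegree q hu, weil_natDegree q hv] at h1
  omega

end Pool.Agent.H962.EF26
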