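import Pool.Agent.H857.EF.Core

/-!
# Slopes of a Weil polynomial of degree eight with integral Newton polygon
-/

set_option autoImplicit false

namespace Pool.Agent.H996.EFs2a

open Module Polynomial Pool.Agent.W521.Descent Pool.Agent.W521.Density Pool.Agent.W521.Count
  Pool.Agent.X297.UB Pool.Agent.H857.PB Pool.Agent.H857.PA Pool.Agent.H857.HK
  Pool.Agent.H857.EF

lemma hp_map {K : Type} [Field K] [CharZero K] (τ : QB →+* K) {q : ℕ} {x : Fin 4 → ℤ}
    {β β' : Fin 4 → QB} (hβ : ∀ i, (β i : ℂ) = labA q 4 x i)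
    (hβ' : ∀ i, (β' i : ℂ) = labB q 4 x i) :
    hp (fun i => (x i : K)) = ∏ j, (Polynomial.X - C (τ (β j) + τ (β' j))) := by
  have h1 : (mkPoly 4 x).map (algebraMap ℤ QB) =
      ∏ j, (Polynomial.X - C (β j + β' j)) := by
    apply Polynomial.map_injective (algebraMap QB ℂ) (algebraMap QB ℂ).injective
    rw [Polynomial.map_map, Polynomial.map_prod]
    have h2 : (algebraMap QB ℂ).comp (algebraMap ℤ QB) = algebraMap ℤ ℂ := RingHom.ext_int _ _
    rw [h2, ← hp_eq_map, lab_hp]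
    refine Finset.prod_congr rfl fun j _ => ?_
    rw [Polynomial.map_sub, Polynomial.map_X, Polynomial.map_C, ← hβ, ← hβ']
    rfl
  have h3 := congrArg (Polynomial.map τ) h1
  rw [Polynomial.map_map, Polynomial.map_prod] at h3
  have h4 : τ.comp (algebraMap ℤ QB) = algebraMap ℤ K := RingHom.ext_int _ _
  rw [h4, ← hp_eq_map] at h3
  rw [h3]
  refine Finset.prod_congr rfl fun j _ => ?_
  rw [Polynomial.map_sub, Polynomial.map_X, Polynomial.map_C, map_add]

lemma mem_qb {q : ℕ} {x : Fin 4 → ℤ} {z : ℂ} (hz : aeval z (wp q 4 x) = 0) :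
    z ∈ algebraicClosure ℚ ℂ := by
  rw [mem_algebraicClosure_iff]
  refine IsIntegral.isAlgebraic ?_
  have h1 : IsIntegral ℤ z := ⟨wp q 4 x, wp_monic q 4 x, hz⟩
  exact IsIntegral.tower_top (R := ℤ) h1

lemma exists_lift {q : ℕ} (hq : q ≠ 0) (x : Fin 4 → ℤ) : ∃ β β' : Fin 4 → QB,
    (∀ i, (β i : ℂ) = labA q 4 x i) ∧ ∀ i, (β' i : ℂ) = labB q 4 x i :=
  ⟨fun i => ⟨labA q 4 x i, mem_qb ((lab_root hq x _).2 ⟨i, Or.inl rfl⟩)⟩,
    fun i => ⟨labB q 4 x i, mem_qb ((lab_root hq x _).2 ⟨i, Or.inr rfl⟩)⟩,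
    fun _ => rfl, fun _ => rfl⟩

lemma lift_mul {q : ℕ} {x : Fin 4 → ℤ} {β β' : Fin 4 → QB}
    (hβ : ∀ i, (β i : ℂ) = labA q 4 x i) (hβ' : ∀ i, (β' i : ℂ) = labB q 4 x i) (i : Fin 4) :
    β i * β' i = (q : QB) := by
  apply (algebraMap QB ℂ).injective
  rw [map_mul, map_natCast]
  have h1 := lab_mul q 4 x i
  rw [← hβ, ← hβ'] at h1
  exact h1

lemma lift_root {q : ℕ} {x : Fin 4 → ℤ} {z : QB} (hz : aeval (z : ℂ) (wp q 4 x) = 0) :
    aeval z (wp q 4 x) = 0 := by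
  apply (algebraMap QB ℂ).injective
  rw [map_zero]
  have h1 : algebraMap QB ℂ (aeval z (wp q 4 x)) = aeval (z : ℂ) (wp q 4 x) := by
    rw [aeval_def, Polynomial.hom_eval₂, aeval_def]
    congr 1
  rw [h1]
  exact hz

section

variable {p : ℕ} [hp : Fact p.Prime] {a : ℕ}

lemma norm_eq_iff (ha : 0 < a) {y : PadicAlgCl p} (hy : y ≠ 0) (r : ℝ) :
    ‖y‖ = ((p : ℝ) ^ a) ^ (-r) ↔ slp p y / a = r := by
  have hp1 : (1 : ℝ) < p := one_lt_p
  have hp0 : (0 : ℝ) < p := by linarith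
  have ha' : (a : ℝ) ≠ 0 := by exact_mod_cast ha.ne'
  have h1 : ((p : ℝ) ^ a) ^ (-r) = (p : ℝ) ^ (-(a * r)) := by
    rw [← Real.rpow_natCast, ← Real.rpow_mul hp0.le]
    congr 1
    ring
  rw [norm_of_slp hy, h1, Real.rpow_right_inj hp0 hp1.ne', neg_inj, div_eq_iff ha']
  constructor
  · intro h
    rw [h]
    ring
  · intro h
    rw [h]
    ring

lemma slp_AB {A B : PadicAlgCl p} (hab : A * B = ((p ^ a : ℕ) : PadicAlgCl p)) :
    A ≠ 0 ∧ B ≠ 0 ∧ slp p A + slp p B = a := by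
  have hp0 : (p : PadicAlgCl p) ≠ 0 := Nat.cast_ne_zero.2 hp.out.ne_zero
  have hne : ((p ^ a : ℕ) : PadicAlgCl p) ≠ 0 := by
    push_cast
    exact pow_ne_zero _ hp0
  have hA : A ≠ 0 := by
    rintro rfl
    rw [zero_mul] at hab
    exact hne hab.symm
  have hB : B ≠ 0 := by
    rintro rfl
    rw [mul_zero] at hab
    exact hne hab.symm
  refine ⟨hA, hB, ?_⟩
  rw [← slp_mul hA hB, hab]
  push_cast
  rw [slp_pow, slp_p, mul_one]

/-- The number of the roots of a given slope. -/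
lemma slopeCount_eq (ha : 0 < a) {x : Fin 4 → ℤ} {l : Fin 4 → ℝ}
    (hl : l ∈ slopes p a (labA (p ^ a) 4 x)) (r : ℝ) :
    slopeCount p (wp (p ^ a) 4 x) ((p : ℝ) ^ a) r =
      (Finset.univ.filter fun i => 1 / 2 + l i = r).card +
        (Finset.univ.filter fun i => 1 / 2 - l i = r).card := by
  classical
  have hq : p ^ a ≠ 0 := pow_ne_zero _ hp.out.ne_zero
  have ha' : (a : ℝ) ≠ 0 := by exact_mod_cast ha.ne'
  obtain ⟨β, τ, hβ, hl⟩ := hl
  obtain ⟨-, β', -, hβ'⟩ := exists_lift hq x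
  have hab : ∀ i, τ (β i) * τ (β' i) = ((p ^ a : ℕ) : PadicAlgCl p) := by
    intro i
    rw [← map_mul, lift_mul hβ hβ', map_natCast]
  have h1 := slopeCount_wp (p := p) (a := a) hab
    (hp_map (τ : QB →+* PadicAlgCl p) hβ hβ') ((p : ℝ) ^ a) r
  rw [h1, Finset.sum_add_distrib, ← Finset.card_filter, ← Finset.card_filter]
  congr 2
  · refine Finset.filter_congr fun i _ => ?_
    obtain ⟨h2, h3, h4⟩ := slp_AB (hab i)
    rw [norm_eq_iff ha h2, hl i]
    constructor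
    · intro h
      linarith
    · intro h
      linarith
  · refine Finset.filter_congr fun i _ => ?_
    obtain ⟨h2, h3, h4⟩ := slp_AB (hab i)
    have h5 : slp p (τ (β' i)) / a = 1 - slp p (τ (β i)) / a := by
      field_simp
      linarith
    rw [norm_eq_iff ha h3, hl i, h5]
    constructor
    · intro h
      linarith
    · intro h
      linarith

lemma cnt_pos (ha : 0 < a) {x : Fin 4 → ℤ} {l : Fin 4 → ℝ}
    (hl : l ∈ slopes p a (labA (p ^ a) 4 x)) {c : ℝ} (hc : 0 < c) :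
    slopeCount p (wp (p ^ a) 4 x) ((p : ℝ) ^ a) (1 / 2 - c) = cnt l c := by
  classical
  rw [slopeCount_eq ha hl, cnt, ← Finset.card_union_of_disjoint]
  · rw [← Finset.filter_or]
    congr 1
    refine Finset.ext fun i => ?_
    rw [Finset.mem_filter, Finset.mem_filter]
    refine and_congr Iff.rfl ?_
    constructor
    · rintro (h | h)
      · have h1 : l i = -c := by linarith
        rw [h1, abs_neg, abs_of_pos hc]
      · have h1 : l i = c := by linarith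
        rw [h1, abs_of_pos hc]
    · intro h
      rcases abs_choice (l i) with h1 | h1
      · right
        linarith
      · left
        linarith
  · rw [Finset.disjoint_left]
    intro i h1 h2
    have h3 := (Finset.mem_filter.1 h1).2
    have h4 := (Finset.mem_filter.1 h2).2
    linarith

lemma cnt_zero (ha : 0 < a) {x : Fin 4 → ℤ} {l : Fin 4 → ℝ}
    (hl : l ∈ slopes p a (labA (p ^ a) 4 x)) :
    slopeCount p (wp (p ^ a) 4 x) ((p : ℝ) ^ a) (1 / 2) = 2 * cnt l 0 := by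
  classical
  rw [slopeCount_eq ha hl, cnt, two_mul]
  congr 2
  · refine Finset.ext fun i => ?_
    rw [Finset.mem_filter, Finset.mem_filter]
    refine and_congr Iff.rfl ?_
    rw [abs_eq_zero]
    constructor
    · intro h
      linarith
    · intro h
      linarith
  · refine Finset.ext fun i => ?_
    rw [Finset.mem_filter, Finset.mem_filter]
    refine and_congr Iff.rfl ?_
    rw [abs_eq_zero]
    constructor
    · intro h
      linarith
    · intro h
      linarith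

lemma cnt_neg (l : Fin 4 → ℝ) {c : ℝ} (hc : c < 0) : cnt l c = 0 := by
  classical
  rw [cnt, Finset.card_eq_zero, Finset.filter_eq_empty_iff]
  intro i _ h
  have := abs_nonneg (l i)
  linarith

lemma abs_le_half (ha : 0 < a) {x : Fin 4 → ℤ} {l : Fin 4 → ℝ}
    (hl : l ∈ slopes p a (labA (p ^ a) 4 x)) (i : Fin 4) : |l i| ≤ 1 / 2 := by
  have hq : p ^ a ≠ 0 := pow_ne_zero _ hp.out.ne_zero
  have ha' : (0 : ℝ) < a := by exact_mod_cast ha
  obtain ⟨β, τ, hβ, hl⟩ := hl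
  obtain ⟨-, β', -, hβ'⟩ := exists_lift hq x
  have hab : ∀ i, τ (β i) * τ (β' i) = ((p ^ a : ℕ) : PadicAlgCl p) := by
    intro i
    rw [← map_mul, lift_mul hβ hβ', map_natCast]
  obtain ⟨h2, h3, h4⟩ := slp_AB (hab i)
  have hr1 : aeval (β i) (wp (p ^ a) 4 x) = 0 := by
    apply lift_root
    rw [hβ i]
    exact (lab_root hq x _).2 ⟨i, Or.inl rfl⟩
  have hr2 : aeval (β' i) (wp (p ^ a) 4 x) = 0 := by
    apply lift_root
    rw [hβ' i]
    exact (lab_root hq x _).2 ⟨i, Or.inr rfl⟩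
  have h5 := (slp_nonneg_iff h2).2
    (norm_le_one_of_integral p (wp_monic _ _ _) (aeval_hom (τ : QB →+* PadicAlgCl p) hr1))
  have h6 := (slp_nonneg_iff h3).2
    (norm_le_one_of_integral p (wp_monic _ _ _) (aeval_hom (τ : QB →+* PadicAlgCl p) hr2))
  rw [hl i, abs_le]
  constructor
  · have : 0 ≤ slp p (τ (β i)) / a := div_nonneg h5 ha'.le
    linarith
  · have : slp p (τ (β i)) / a ≤ 1 := by
      rw [div_le_one ha']
      linarith
    linarith

lemma normal_QB : Normal ℚ QB := by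
  have h := algebraicClosure.isAlgClosure ℚ ℂ
  exact @IsAlgClosure.normal ℚ (algebraicClosure ℚ ℂ) _ _ (algebraicClosure ℚ ℂ).algebra' h

lemma slopes_nonempty (x : Fin 4 → ℤ) :
    (slopes p a (labA (p ^ a) 4 x)).Nonempty := by
  have hnorm := normal_QB
  have hq : p ^ a ≠ 0 := pow_ne_zero _ hp.out.ne_zero
  obtain ⟨β, β', hβ, hβ'⟩ := exists_lift hq x
  have τ : QB →ₐ[ℚ] PadicAlgCl p := IsAlgClosed.lift
  exact ⟨_, β, τ, hβ, fun _ => rfl⟩

/-- The exponents. -/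
def ex (e : Fin 4 → ℤ) (y : Fin 4 × Bool) : ℕ :=
  if y.2 then 2 * (-e y.1).toNat else 2 * (e y.1).toNat

/-- The sum of the absolute values. -/
def tot (e : Fin 4 → ℤ) : ℕ := ∑ i, ((e i).toNat + (-e i).toNat)

lemma sum_ex (e : Fin 4 → ℤ) : ∑ y, ex e y * (fun _ : Fin 4 × Bool => 1) y = 2 * tot e := by
  rw [Fintype.sum_prod_type, tot, Finset.mul_sum]
  refine Finset.sum_congr rfl fun i _ => ?_
  rw [Fintype.sum_bool]
  simp only [ex, if_true, mul_one]
  rw [if_neg Bool.false_ne_true]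
  ring

/-- The numbers. -/
def fam (β β' : Fin 4 → QB) (y : Fin 4 × Bool) : QB := if y.2 then β' y.1 else β y.1

lemma weil_fam {x : Fin 4 → ℤ} (hx : wp (p ^ a) 4 x ∈ weilPolys (p ^ a) 4)
    {β β' : Fin 4 → QB} (hβ : ∀ i, (β i : ℂ) = labA (p ^ a) 4 x i)
    (hβ' : ∀ i, (β' i : ℂ) = labB (p ^ a) 4 x i) :
    Weil p a (fam β β') (fun _ => 1) := by
  have hq : p ^ a ≠ 0 := pow_ne_zero _ hp.out.ne_zero
  refine ⟨fun y => ⟨wp (p ^ a) 4 x, wp_monic _ _ _, ?_, fun z hz => ?_⟩⟩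
  · obtain ⟨i, b⟩ := y
    apply lift_root
    cases b
    · have h1 : fam β β' (i, false) = β i := if_neg Bool.false_ne_true
      rw [h1, hβ i]
      exact (lab_root hq x _).2 ⟨i, Or.inl rfl⟩
    · have h1 : fam β β' (i, true) = β' i := if_pos rfl
      rw [h1, hβ' i]
      exact (lab_root hq x _).2 ⟨i, Or.inr rfl⟩
  · rw [pow_one, hx.2.2.2 z hz]
    push_cast
    rfl

lemma factor {A B Q : ℂ} (hA : A ≠ 0) (hB : B ≠ 0) (h : A * B = Q) (n : ℤ) :
    A ^ (2 * n.toNat) * B ^ (2 * (-n).toNat) =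
      A ^ (2 * n) * (Q ^ (n.toNat + (-n).toNat) / Q ^ n) := by
  subst h
  have hAB : A * B ≠ 0 := mul_ne_zero hA hB
  obtain ⟨k, rfl | rfl⟩ := Int.eq_nat_or_neg n
  · have h1 : ((k : ℤ)).toNat = k := Int.toNat_natCast k
    have h2 : (-(k : ℤ)).toNat = 0 := by omega
    rw [h1, h2, mul_zero, pow_zero, mul_one, add_zero, zpow_natCast, div_self (pow_ne_zero _ hAB),
      mul_one]
    exact_mod_cast (zpow_natCast A (2 * k)).symm
  · have h1 : (-(k : ℤ)).toNat = 0 := by omega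
    have h2 : (-(-(k : ℤ))).toNat = k := by omega
    have h3 : A ^ (2 * -(k : ℤ)) = (A ^ (2 * k))⁻¹ := by
      rw [mul_neg, zpow_neg]
      congr 1
    rw [h1, h2, h3, mul_zero, pow_zero, one_mul, zero_add, zpow_neg, zpow_natCast, div_inv_eq_mul,
      ← pow_add, ← two_mul, mul_pow, inv_mul_cancel_left₀ (pow_ne_zero _ hA)]

lemma prod_fam {x : Fin 4 → ℤ} {β β' : Fin 4 → QB}
    (hβ : ∀ i, (β i : ℂ) = labA (p ^ a) 4 x i) (hβ' : ∀ i, (β' i : ℂ) = labB (p ^ a) 4 x i)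
    (e : Fin 4 → ℤ) : algebraMap QB ℂ (∏ y, fam β β' y ^ ex e y) =
      (∏ i, labA (p ^ a) 4 x i ^ (2 * e i)) *
        (((p ^ a : ℕ) : ℂ) ^ tot e / ((p ^ a : ℕ) : ℂ) ^ (∑ i, e i)) := by
  have hq : ((p ^ a : ℕ) : ℂ) ≠ 0 := by
    exact_mod_cast pow_ne_zero _ hp.out.ne_zero
  have h1 : ((p ^ a : ℕ) : ℂ) ^ (∑ i, e i) = ∏ i, ((p ^ a : ℕ) : ℂ) ^ e i := by
    rw [Fin.sum_univ_four, Fin.prod_univ_four, zpow_add₀ hq, zpow_add₀ hq, zpow_add₀ hq]
  rw [map_prod, Fintype.prod_prod_type, tot, ← Finset.prod_pow_eq_pow_sum, h1,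
    ← Finset.prod_div_distrib, ← Finset.prod_mul_distrib]
  refine Finset.prod_congr rfl fun i _ => ?_
  have h2 := lab_mul (p ^ a) 4 x i
  have hA : labA (p ^ a) 4 x i ≠ 0 := by
    intro h0
    rw [h0, zero_mul] at h2
    exact hq h2.symm
  have hB : labB (p ^ a) 4 x i ≠ 0 := by
    intro h0
    rw [h0, mul_zero] at h2
    exact hq h2.symm
  rw [← factor hA hB h2, Fintype.prod_bool, mul_comm, map_pow, map_pow]
  have h3 : algebraMap QB ℂ (fam β β' (i, false)) = labA (p ^ a) 4 x i := by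
    rw [← hβ]
    have h1 : fam β β' (i, false) = β i := if_neg Bool.false_ne_true
    rw [h1]
    rfl
  have h4 : algebraMap QB ℂ (fam β β' (i, true)) = labB (p ^ a) 4 x i := by
    rw [← hβ']
    have h1 : fam β β' (i, true) = β' i := if_pos rfl
    rw [h1]
    rfl
  have h5 : ex e (i, false) = 2 * (e i).toNat := if_neg Bool.false_ne_true
  have h6 : ex e (i, true) = 2 * (-e i).toNat := if_pos rfl
  rw [h3, h4, h5, h6]

lemma rel_iff_fam {x : Fin 4 → ℤ} {β β' : Fin 4 → QB}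
    (hβ : ∀ i, (β i : ℂ) = labA (p ^ a) 4 x i) (hβ' : ∀ i, (β' i : ℂ) = labB (p ^ a) 4 x i)
    (e : Fin 4 → ℤ) : RelZ (p ^ a) (labA (p ^ a) 4 x) e ↔
      ∃ s, 0 < s ∧ (∏ y, fam β β' y ^ ex e y) ^ s = (p : QB) ^ (a * s * tot e) := by
  have hq : ((p ^ a : ℕ) : ℂ) ≠ 0 := by
    exact_mod_cast pow_ne_zero _ hp.out.ne_zero
  rw [RelZ]
  refine exists_congr fun s => and_congr Iff.rfl ?_
  have h1 := prod_fam hβ hβ' e
  have h2 : algebraMap QB ℂ ((p : QB) ^ (a * s * tot e)) =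
      (((p ^ a : ℕ) : ℂ) ^ tot e) ^ s := by
    rw [map_pow, map_natCast]
    push_cast
    rw [← pow_mul, ← pow_mul]
    congr 1
    ring
  have h3 : (∏ y, fam β β' y ^ ex e y) ^ s = (p : QB) ^ (a * s * tot e) ↔
      algebraMap QB ℂ ((∏ y, fam β β' y ^ ex e y) ^ s) =
        algebraMap QB ℂ ((p : QB) ^ (a * s * tot e)) :=
    (algebraMap QB ℂ).injective.eq_iff.symm
  rw [h3, h2, map_pow, h1, mul_pow, div_pow]
  have h4 : (((p ^ a : ℕ) : ℂ) ^ tot e) ^ s ≠ 0 := pow_ne_zero _ (pow_ne_zero _ hq)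
  have h5 : (((p ^ a : ℕ) : ℂ) ^ (∑ i, e i)) ^ s ≠ 0 := pow_ne_zero _ (zpow_ne_zero _ hq)
  rw [mul_div_assoc', div_eq_iff h5, mul_comm ((((p ^ a : ℕ) : ℂ) ^ tot e) ^ s)]
  exact (mul_left_inj' h4).symm

lemma sum_fam (ha : 0 < a) {x : Fin 4 → ℤ} {β β' : Fin 4 → QB}
    (hβ : ∀ i, (β i : ℂ) = labA (p ^ a) 4 x i) (hβ' : ∀ i, (β' i : ℂ) = labB (p ^ a) 4 x i)
    (e : Fin 4 → ℤ) (τ : QB →ₐ[ℚ] PadicAlgCl p) :
    ∑ y, (ex e y : ℝ) * slp p (τ (fam β β' y)) = a * tot e ↔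
      ∑ i, (e i : ℝ) * (slp p (τ (β i)) / a - 1 / 2) = 0 := by
  have ha' : (a : ℝ) ≠ 0 := by exact_mod_cast ha.ne'
  have hab : ∀ i, τ (β i) * τ (β' i) = ((p ^ a : ℕ) : PadicAlgCl p) := by
    intro i
    rw [← map_mul, lift_mul hβ hβ', map_natCast]
  have h1 : ∑ y, (ex e y : ℝ) * slp p (τ (fam β β' y)) - a * tot e =
      2 * a * ∑ i, (e i : ℝ) * (slp p (τ (β i)) / a - 1 / 2) := by
    rw [Fintype.sum_prod_type, tot, Nat.cast_sum, Finset.mul_sum, Finset.mul_sum,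
      ← Finset.sum_sub_distrib]
    refine Finset.sum_congr rfl fun i _ => ?_
    obtain ⟨h2, h3, h4⟩ := slp_AB (hab i)
    have h7 : fam β β' (i, false) = β i := if_neg Bool.false_ne_true
    have h8 : fam β β' (i, true) = β' i := if_pos rfl
    have h5 : ex e (i, false) = 2 * (e i).toNat := if_neg Bool.false_ne_true
    have h6 : ex e (i, true) = 2 * (-e i).toNat := if_pos rfl
    have h9 : (((e i).toNat : ℤ) - ((-e i).toNat : ℤ)) = e i := by omega
    have h10 : (((e i).toNat : ℝ) - ((-e i).toNat : ℝ)) = (e i : ℝ) := by exact_mod_cast h9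
    have h11 : slp p (τ (β' i)) = a - slp p (τ (β i)) := by linarith
    rw [Fintype.sum_bool, h5, h6, h7, h8, h11, ← h10]
    push_cast
    field_simp
    ring
  constructor
  · intro h
    rw [h, sub_self] at h1
    have h2 : 2 * (a : ℝ) ≠ 0 := mul_ne_zero two_ne_zero ha'
    exact (mul_eq_zero.1 h1.symm).resolve_left h2
  · intro h
    rw [h, mul_zero] at h1
    linarith

end

/-- **S2a.** -/
theorem s2a : S2a := by
  intro p hp a ha x hx
  have hnorm := normal_QB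
  have hq : p ^ a ≠ 0 := pow_ne_zero _ hp.out.ne_zero
  refine ⟨slopes_nonempty x, fun l hl => ⟨abs_le_half ha hl, fun c hc => ?_⟩,
    fun l hl l' hl' c => ?_, fun e => ?_⟩
  · rw [← cnt_pos ha hl hc]
    exact hx.2 (1 / 2 - c)
  · rcases lt_trichotomy c 0 with hc | rfl | hc
    · rw [cnt_neg l hc, cnt_neg l' hc]
    · have h1 := cnt_zero ha hl
      have h2 := cnt_zero ha hl'
      omega
    · rw [← cnt_pos ha hl hc, ← cnt_pos ha hl' hc]
  · obtain ⟨β, β', hβ, hβ'⟩ := exists_lift hq x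
    rw [rel_iff_fam hβ hβ' e, (weil_fam hx.1 hβ hβ').rel_iff (ex e) (tot e) (sum_ex e)]
    constructor
    · rintro h l ⟨β₁, τ, hβ₁, hl⟩
      have h1 : β₁ = β := by
        funext i
        apply Subtype.ext
        rw [hβ₁ i, hβ i]
      subst h1
      have h2 := (sum_fam ha hβ₁ hβ' e τ).1 (h τ)
      rw [← h2]
      refine Finset.sum_congr rfl fun i _ => ?_
      rw [hl i]
    · intro h τ
      exact (sum_fam ha hβ hβ' e τ).2 (h _ ⟨β, τ, hβ, fun _ => rfl⟩)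

end Pool.Agent.H996.EFs2a
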