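import Pool.Agent.H857.EF.Core2

/-!
# S31: the exotic class lives on `A` itself
-/

set_option autoImplicit false

namespace Pool.Agent.H218.EF

open Module Polynomial Pool.Agent.W521.Descent Pool.Agent.W521.Density Pool.Agent.W521.Count
  Pool.Agent.X297.UB Pool.Agent.H857.PB Pool.Agent.H857.PA Pool.Agent.H857.HK
  Pool.Agent.H857.EF

theorem root_pow {f g : ℤ[X]} {m : ℕ} (hf : f.Monic) (hg : IsPowerPoly f m g) {z : ℂ}
    (hz : aeval z f = 0) : aeval (z ^ m) g = 0 := by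
  have h0 : f.map (Int.castRingHom ℂ) ≠ 0 := (hf.map _).ne_zero
  have h1 : z ∈ (f.map (Int.castRingHom ℂ)).roots := by
    rw [mem_roots h0, IsRoot.def, eval_map]
    exact hz
  have h2 : z ^ m ∈ (g.map (Int.castRingHom ℂ)).roots := by
    rw [hg.2]
    exact Multiset.mem_map_of_mem _ h1
  have h3 := (mem_roots'.1 h2).2
  rw [IsRoot.def, eval_map] at h3
  exact h3

theorem s31 (h4 : S4m) (h19 : S19) : S31 := by
  intro p _ a m ha hkp hkq x hx hirr hex g hg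
  obtain ⟨L, hL0, hLr, hLp, hLpair⟩ := hex
  obtain ⟨β, hQ, -, hβN⟩ := h4 p a ha x hx hirr L hL0 hLr hLp hLpair
  have hp : p.Prime := Fact.out
  have hq : 0 < p ^ a := pow_pos hp.pos a
  have hroot : ∀ i, aeval (β i) (wp (p ^ a) 4 x) = 0 := fun i =>
    (lab_root hq.ne' x (β i)).2 ⟨i, hQ.mem i⟩
  have hw : wp (p ^ a) 4 x ∈ weilPolys (p ^ a) 4 := hx.1
  refine h19 ((p ^ a) ^ m) g (fun i => β i ^ m) (pow_pos hq m) ?_ ?_ ?_ ?_
  · intro i j hij
    by_contra hne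
    exact hβN i j hne m hkp.1 hij
  · intro i
    exact root_pow hw.1 hg (hroot i)
  · obtain ⟨N, hN, hprod⟩ := hQ.prod
    rw [Fin.prod_univ_four] at hprod
    have h1 := hkq.2 (p ^ a) hq _ hw (β 0) (β 1) (β 2) (β 3) (hroot 0) (hroot 1) (hroot 2)
      (hroot 3) ⟨N, hN, hprod⟩
    rw [Fin.prod_univ_four, ← mul_pow, ← mul_pow, ← mul_pow, h1, Nat.cast_pow (p ^ a) m,
      ← pow_mul, ← pow_mul, mul_comm 2 m]
  · rintro i j hij ⟨N, hN, h1⟩
    refine hQ.pair i j ⟨m * N, Nat.mul_pos hkp.1 hN, ?_⟩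
    rw [pow_mul, pow_mul, mul_pow (β i) (β j) m, h1, Nat.cast_pow ((p ^ a : ℕ))]

end Pool.Agent.H218.EF
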