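import Pool.Agent.H857.EF.Core3

/-!
# Irreducibility of Weil polynomials and the number of the reducible ones
-/

set_option autoImplicit false

namespace Pool.Agent.H294.EFirr

open Module Polynomial Pool.Agent.W521.Frob Pool.Agent.W521.Descent Pool.Agent.W521.Density
  Pool.Agent.W521.Count
  Pool.Agent.X297.UB Pool.Agent.H857.PB Pool.Agent.H857.PA Pool.Agent.H857.HK
  Pool.Agent.H857.EF

open IntermediateField in
/-- S34 -/
theorem s34 : S34 := by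
  intro q hq x hW hirr
  have hq0 : q ≠ 0 := hq.ne'
  have hm : (mkPoly 4 x).Monic := mkPoly_monic 4 x
  have hfm : (wp q 4 x).Monic := wp_monic q 4 x
  have hfd : (wp q 4 x).natDegree = 8 := wp_natDegree q 4 x
  -- a root
  obtain ⟨α, hα⟩ : ∃ α : ℂ, aeval α (wp q 4 x) = 0 := by
    obtain ⟨α, hα⟩ := IsAlgClosed.exists_aeval_eq_zero ℂ ((wp q 4 x).map (algebraMap ℤ ℚ)) (by
      rw [hfm.degree_map, degree_eq_natDegree hfm.ne_zero, hfd]
      norm_num)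
    rw [aeval_map_algebraMap] at hα
    exact ⟨α, hα⟩
  have hnorm : ‖α‖ ^ 2 = q := hW.2.2.2 α hα
  obtain ⟨hα0, hs⟩ := (root_iff hq0 hm α).1 hα
  have hconj : (q : ℂ) / α = (starRingEnd ℂ) α := by
    rw [div_eq_iff hα0, mul_comm, Complex.mul_conj, Complex.normSq_eq_norm_sq, hnorm]
    push_cast
    rfl
  obtain ⟨s, hsdef⟩ : ∃ s : ℂ, s = α + q / α := ⟨_, rfl⟩
  rw [← hsdef] at hs
  -- the minimal polynomial of `s`
  have hirrQ : Irreducible ((mkPoly 4 x).map (algebraMap ℤ ℚ)) :=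
    (hm.irreducible_iff_irreducible_map_fraction_map).1 hirr
  have hsQ : aeval s ((mkPoly 4 x).map (algebraMap ℤ ℚ)) = 0 := by
    rw [aeval_map_algebraMap]
    exact hs
  have hmin : (mkPoly 4 x).map (algebraMap ℤ ℚ) = minpoly ℚ s :=
    minpoly.eq_of_irreducible_of_monic hirrQ hsQ (hm.map _)
  have hsint : IsIntegral ℚ s := ⟨_, hm.map (algebraMap ℤ ℚ), by
    rw [← aeval_def]
    exact hsQ⟩
  have hsdeg : (minpoly ℚ s).natDegree = 4 := by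
    rw [← hmin, hm.natDegree_map, mkPoly_natDegree]
  -- `α` is not real
  have hreal : ∀ r : ℝ, α ≠ (r : ℂ) := by
    intro r hr
    have h1 : s = 2 * α := by
      rw [hsdef, hconj, hr, Complex.conj_ofReal]
      ring
    have h2 : α ^ 2 = q := by
      have h3 : α * (starRingEnd ℂ) α = q := by
        rw [← hconj, mul_div_cancel₀ _ hα0]
      rw [hr, Complex.conj_ofReal] at h3
      rw [hr, sq, h3]
    have h4 : aeval s (X ^ 2 - C (4 * q : ℚ)) = 0 := by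
      simp only [map_sub, map_pow, aeval_X, aeval_C, h1]
      rw [mul_pow, h2]
      simp only [eq_ratCast]
      push_cast
      ring
    have h5 : (X ^ 2 - C (4 * q : ℚ)).Monic := monic_X_pow_sub_C _ two_ne_zero
    have h6 := natDegree_le_of_dvd (minpoly.dvd ℚ s h4) h5.ne_zero
    rw [hsdeg, natDegree_X_pow_sub_C] at h6
    omega
  -- degrees
  have hαQ : aeval α ((wp q 4 x).map (algebraMap ℤ ℚ)) = 0 := by
    rw [aeval_map_algebraMap]
    exact hα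
  have hαint : IsIntegral ℚ α := ⟨_, hfm.map (algebraMap ℤ ℚ), by
    rw [← aeval_def]
    exact hαQ⟩
  have hle : ℚ⟮s⟯ ≤ ℚ⟮α⟯ := by
    rw [adjoin_simple_le_iff, hsdef]
    have h1 : α ∈ ℚ⟮α⟯ := mem_adjoin_simple_self ℚ α
    exact add_mem h1 (div_mem (_root_.natCast_mem _ q) h1)
  have hfin : FiniteDimensional ℚ ℚ⟮α⟯ := adjoin.finiteDimensional hαint
  have hd1 : finrank ℚ ℚ⟮s⟯ = 4 := by rw [adjoin.finrank hsint, hsdeg]
  have hd2 := finrank_dvd_of_le_right hle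
  rw [hd1] at hd2
  have hd3 : finrank ℚ ℚ⟮α⟯ ≤ 8 := by
    rw [adjoin.finrank hαint]
    refine (natDegree_le_of_dvd (minpoly.dvd ℚ α hαQ) (hfm.map _).ne_zero).trans ?_
    rw [hfm.natDegree_map, hfd]
  have hd4 : finrank ℚ ℚ⟮α⟯ ≠ 4 := by
    intro h
    have h1 : ℚ⟮s⟯ = ℚ⟮α⟯ := eq_of_le_of_finrank_eq hle (by rw [hd1, h])
    have h2 : α ∈ ℚ⟮s⟯ := by
      rw [h1]
      exact mem_adjoin_simple_self ℚ α
    have h3 : ℚ⟮s⟯ ≤ (Complex.ofRealAm.restrictScalars ℚ).fieldRange := by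
      rw [adjoin_simple_le_iff]
      refine ⟨2 * α.re, ?_⟩
      have h4 : s = ((2 * α.re : ℝ) : ℂ) := by
        rw [hsdef, hconj, Complex.add_conj]
      rw [h4]
      rfl
    obtain ⟨r, hr⟩ := h3 h2
    exact hreal r hr.symm
  have hd5 : finrank ℚ ℚ⟮α⟯ = 8 := by
    obtain ⟨c, hc⟩ := hd2
    have hpos : 0 < finrank ℚ ℚ⟮α⟯ := finrank_pos
    rw [hc] at hd3 hd4 hpos ⊢
    have h1 : c ≤ 2 := by omega
    interval_cases c
    · omega
    · omega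
    · rfl
  rw [adjoin.finrank hαint] at hd5
  have heq : (wp q 4 x).map (algebraMap ℤ ℚ) = minpoly ℚ α := by
    refine (eq_of_monic_of_dvd_of_natDegree_le (minpoly.monic hαint) (hfm.map _)
      (minpoly.dvd ℚ α hαQ) ?_)
    rw [hfm.natDegree_map, hfd, hd5]
  refine (hfm.irreducible_iff_irreducible_map_fraction_map (K := ℚ)).2 ?_
  rw [heq]
  exact minpoly.irreducible hαint

/-- S32 -/
theorem s32 (h8 : S8) (h34 : S34) : S32 := by
  refine ⟨(3 * 4 ^ 1) ^ 1 * (3 * 4 ^ 3) ^ 3 + (3 * 4 ^ 2) ^ 2 * (3 * 4 ^ 2) ^ 2, by norm_num, ?_⟩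
  intro p hp a ha
  have hq : 0 < p ^ a := pow_pos hp.out.pos a
  obtain ⟨q, hqdef⟩ : ∃ q : ℕ, q = p ^ a := ⟨_, rfl⟩
  have hcast : ((p : ℝ) ^ a) = (q : ℝ) := by
    rw [hqdef]
    push_cast
    rfl
  rw [hcast]
  rw [← hqdef] at hq
  have hsq : (1 : ℝ) ≤ Real.sqrt q := by
    rw [Real.one_le_sqrt]
    exact_mod_cast hq
  classical
  let B : ∀ g : ℕ, Finset (Fin g → ℤ) := fun g => Fintype.piFinset (box q g)
  have hsub : {f ∈ newtonWeil p a 4 | ¬ Irreducible f} ⊆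
      (((B 1 ×ˢ B 3).image (fun yz => wp q 1 yz.1 * wp q 3 yz.2) ∪
        (B 2 ×ˢ B 2).image (fun yz => wp q 2 yz.1 * wp q 2 yz.2) : Finset ℤ[X]) : Set ℤ[X]) := by
    rintro f ⟨⟨hf, -⟩, hirr⟩
    rw [← hqdef] at hf
    obtain ⟨x, hx, -⟩ := exists_point hq.ne' hf
    have hx' : f = wp q 4 x := hx
    subst hx'
    have hnot : ¬ Irreducible (mkPoly 4 x) := fun h => hirr (h34 q hq x hf h)
    rw [Finset.coe_union, Finset.coe_image, Finset.coe_image]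
    rcases h8 q hq x hf hnot with ⟨y, z, h1, h2, h3⟩ | ⟨y, z, h1, h2, h3⟩
    · exact Or.inl ⟨(y, z), Finset.mem_coe.2 (Finset.mem_product.2
        ⟨mem_box hq.ne' h2, mem_box hq.ne' h3⟩), h1.symm⟩
    · exact Or.inr ⟨(y, z), Finset.mem_coe.2 (Finset.mem_product.2
        ⟨mem_box hq.ne' h2, mem_box hq.ne' h3⟩), h1.symm⟩
  have hcard := Set.ncard_le_ncard hsub (Finset.finite_toSet _)
  rw [Set.ncard_coe_finset] at hcard
  have h1 : (((B 1 ×ˢ B 3).image (fun yz => wp q 1 yz.1 * wp q 3 yz.2) ∪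
        (B 2 ×ˢ B 2).image (fun yz => wp q 2 yz.1 * wp q 2 yz.2) : Finset ℤ[X])).card ≤
      (B 1).card * (B 3).card + (B 2).card * (B 2).card := by
    refine (Finset.card_union_le _ _).trans ?_
    refine add_le_add ?_ ?_
    · refine Finset.card_image_le.trans ?_
      rw [Finset.card_product]
    · refine Finset.card_image_le.trans ?_
      rw [Finset.card_product]
  have h2 : ({f ∈ newtonWeil p a 4 | ¬ Irreducible f}.ncard : ℝ) ≤
      ((B 1).card : ℝ) * (B 3).card + (B 2).card * (B 2).card := by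
    exact_mod_cast hcard.trans h1
  have c1 : ((B 1).card : ℝ) ≤ (3 * 4 ^ 1) ^ 1 * Real.sqrt q ^ 1 := card_all_box (g := 1) hq
  have c2 : ((B 2).card : ℝ) ≤ (3 * 4 ^ 2) ^ 2 * Real.sqrt q ^ 3 := card_all_box (g := 2) hq
  have c3 : ((B 3).card : ℝ) ≤ (3 * 4 ^ 3) ^ 3 * Real.sqrt q ^ 6 := card_all_box (g := 3) hq
  refine h2.trans ?_
  have e1 : ((B 1).card : ℝ) * (B 3).card ≤
      ((3 * 4 ^ 1) ^ 1 * Real.sqrt q ^ 1) * ((3 * 4 ^ 3) ^ 3 * Real.sqrt q ^ 6) :=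
    mul_le_mul c1 c3 (Nat.cast_nonneg _) (by positivity)
  have e2 : ((B 2).card : ℝ) * (B 2).card ≤
      ((3 * 4 ^ 2) ^ 2 * Real.sqrt q ^ 3) * ((3 * 4 ^ 2) ^ 2 * Real.sqrt q ^ 3) :=
    mul_le_mul c2 c2 (Nat.cast_nonneg _) (by positivity)
  have e3 : Real.sqrt q ^ 6 ≤ Real.sqrt q ^ 7 := pow_le_pow_right₀ hsq (by norm_num)
  calc ((B 1).card : ℝ) * (B 3).card + (B 2).card * (B 2).card ≤
      ((3 * 4 ^ 1) ^ 1 * Real.sqrt q ^ 1) * ((3 * 4 ^ 3) ^ 3 * Real.sqrt q ^ 6) +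
      ((3 * 4 ^ 2) ^ 2 * Real.sqrt q ^ 3) * ((3 * 4 ^ 2) ^ 2 * Real.sqrt q ^ 3) :=
        add_le_add e1 e2
    _ = (3 * 4 ^ 1) ^ 1 * (3 * 4 ^ 3) ^ 3 * Real.sqrt q ^ 7 +
      (3 * 4 ^ 2) ^ 2 * (3 * 4 ^ 2) ^ 2 * Real.sqrt q ^ 6 := by ring
    _ ≤ (3 * 4 ^ 1) ^ 1 * (3 * 4 ^ 3) ^ 3 * Real.sqrt q ^ 7 +
      (3 * 4 ^ 2) ^ 2 * (3 * 4 ^ 2) ^ 2 * Real.sqrt q ^ 7 := by gcongr
    _ = _ := by ring

end Pool.Agent.H294.EFirr
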