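import Pool.Agent.H857.EF.Core2
import Pool.Agent.H857.EF.P.S3

/-!
# From a list of Weil numbers to an exponent vector (stronger version; the proof of helper233)
-/

set_option autoImplicit false

namespace Pool.Agent.H857.EF

open Module Polynomial Pool.Agent.H233.EF

theorem s3m : S3m := by
  intro ι _ _ q hq α hα L hL hmem ⟨N, hN, n, hn⟩ hpair
  have hq0 : (0 : ℝ) < q := by exact_mod_cast (by omega : 0 < q)
  have hq1 : (1 : ℝ) < q := by exact_mod_cast hq
  have hqc : (q : ℂ) ≠ 0 := by exact_mod_cast (by omega : q ≠ 0)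
  have hα0 : ∀ i, α i ≠ 0 := by
    intro i h
    have := hα i
    rw [h, norm_zero] at this
    norm_num at this
    linarith
  set m := L.length with hm
  set w : Fin m → ℂ := L.get with hw
  have hw1 : ∀ k, w k ∈ L := fun k => L.get_mem k
  have hpw : ∀ k l : Fin m, k ≠ l → ¬ PairRel q (w k) (w l) := by
    have h0 := List.pairwise_iff_get.1 hpair
    intro k l hkl
    rcases lt_or_gt_of_ne hkl with h | h
    · exact h0 k l h
    · exact fun h' => h0 l k h (pairRel_symm h')
  have hprod : L.prod = ∏ k, w k := by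
    rw [← List.prod_ofFn, hw, List.ofFn_get]
  have hch : ∀ k : Fin m, ∃ (i : ι) (s : ℤ), (s = 1 ∧ w k = α i) ∨ (s = -1 ∧ w k = q / α i) := by
    intro k
    obtain ⟨i, h | h⟩ := hmem (w k) (hw1 k)
    · exact ⟨i, 1, Or.inl ⟨rfl, h⟩⟩
    · exact ⟨i, -1, Or.inr ⟨rfl, h⟩⟩
  choose lab s hls using hch
  have hs1 : ∀ k, s k = 1 ∨ s k = -1 := fun k => (hls k).imp And.left And.left
  have hsq : ∀ k, w k ^ 2 = α (lab k) ^ (2 * s k) * (q : ℂ) ^ (1 - s k) := by
    intro k
    have h0 := hα0 (lab k)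
    rcases hls k with ⟨h1, h2⟩ | ⟨h1, h2⟩
    · rw [h1, h2, show (2 : ℤ) * 1 = ((2 : ℕ) : ℤ) by norm_num,
        show (1 : ℤ) - 1 = 0 by norm_num, zpow_natCast, zpow_zero, mul_one]
    · rw [h1, h2, show (2 : ℤ) * -1 = -((2 : ℕ) : ℤ) by norm_num,
        show (1 : ℤ) - -1 = ((2 : ℕ) : ℤ) by norm_num, zpow_neg, zpow_natCast, zpow_natCast,
        div_pow]
      field_simp
  have hss : ∀ k l, lab k = lab l → s k = s l := by
    intro k l hkl
    by_contra hne
    have hkl' : k ≠ l := fun h => hne (by rw [h])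
    refine hpw k l hkl' ⟨1, one_pos, ?_⟩
    rw [pow_one, pow_one]
    have h0 := hα0 (lab l)
    rcases hls k with ⟨h1, h2⟩ | ⟨h1, h2⟩
    · rcases hls l with ⟨h3, h4⟩ | ⟨h3, h4⟩
      · exact absurd (h1.trans h3.symm) hne
      · rw [h2, h4, hkl]
        field_simp
    · rcases hls l with ⟨h3, h4⟩ | ⟨h3, h4⟩
      · rw [h2, h4, hkl]
        field_simp
      · exact absurd (h1.trans h3.symm) hne
  -- the length
  have hnw : ∀ k, ‖w k‖ ^ 2 = q := by
    intro k
    rcases hls k with ⟨h1, h2⟩ | ⟨h1, h2⟩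
    · rw [h2, hα]
    · rw [h2, norm_div, div_pow, hα, Complex.norm_natCast]
      field_simp
  have hlen : (m : ℤ) = 2 * n := by
    have h1 : ‖L.prod‖ ^ 2 = (q : ℝ) ^ m := by
      rw [hprod, norm_prod, ← Finset.prod_pow, Finset.prod_congr rfl fun k _ => hnw k]
      simp
    have h2 : (‖L.prod‖ ^ 2) ^ N = ((q : ℝ) ^ (n * N)) ^ 2 := by
      rw [← pow_mul, mul_comm 2 N, pow_mul, ← norm_pow, hn, norm_zpow, Complex.norm_natCast]
    rw [h1, ← pow_mul, ← zpow_natCast, ← zpow_natCast, ← zpow_mul] at h2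
    have h3 := zpow_right_injective₀ hq0 hq1.ne' h2
    push_cast at h3
    have h4 : (N : ℤ) ≠ 0 := by exact_mod_cast hN.ne'
    have h5 : (N : ℤ) * m = N * (2 * n) := by linarith
    exact mul_left_cancel₀ h4 h5
  refine ⟨ex lab s, ?_, ⟨N, hN, ?_⟩, ?_, ?_, ?_, ?_⟩
  · -- nonzero
    have hmpos : 0 < m := List.length_pos_iff.2 hL
    refine ⟨lab ⟨0, hmpos⟩, ?_⟩
    rw [ex_eq lab s hss]
    have h1 := card_pos lab ⟨0, hmpos⟩
    refine mul_ne_zero ?_ (by exact_mod_cast h1.ne')
    rcases hs1 ⟨0, hmpos⟩ with h | h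
    · rw [h]; norm_num
    · rw [h]; norm_num
  · -- relation
    rw [prod_ex lab s α hα0, sum_ex]
    have h1 : (∏ k, w k) ^ 2 = (∏ k, α (lab k) ^ (2 * s k)) * (q : ℂ) ^ ((m : ℤ) - ∑ k, s k) := by
      rw [← Finset.prod_pow, Finset.prod_congr rfl fun k _ => hsq k, Finset.prod_mul_distrib]
      congr 1
      have h2 : ∀ t : Finset (Fin m), ∏ k ∈ t, (q : ℂ) ^ (1 - s k) =
          (q : ℂ) ^ ((t.card : ℤ) - ∑ k ∈ t, s k) := by
        intro t
        induction t using Finset.induction_on with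
        | empty => simp
        | insert a t ha ih =>
          rw [Finset.prod_insert ha, ih, ← zpow_add₀ hqc, Finset.card_insert_of_notMem ha,
            Finset.sum_insert ha]
          congr 1
          push_cast
          ring
      rw [h2 Finset.univ, Finset.card_univ, Fintype.card_fin]
    have h2 : ((∏ k, w k) ^ 2) ^ N = ((q : ℂ) ^ (m : ℤ)) ^ N := by
      rw [← pow_mul, mul_comm 2 N, pow_mul, ← hprod, hn, ← zpow_natCast, ← zpow_mul,
        ← zpow_natCast, ← zpow_mul, hlen]
      congr 1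
      push_cast
      ring
    rw [h1, mul_pow] at h2
    have h3 : (q : ℂ) ^ (m : ℤ) = (q : ℂ) ^ (∑ k, s k) * (q : ℂ) ^ ((m : ℤ) - ∑ k, s k) := by
      rw [← zpow_add₀ hqc]
      congr 1
      ring
    rw [h3, mul_pow] at h2
    exact mul_right_cancel₀ (pow_ne_zero _ (zpow_ne_zero _ hqc)) h2
  · -- parity
    rw [sum_ex]
    have h1 : ∀ k, ∃ b : ℤ, s k = 1 - 2 * b := by
      intro k
      rcases hs1 k with h | h
      · exact ⟨0, by rw [h]; norm_num⟩
      · exact ⟨1, by rw [h]; norm_num⟩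
    choose b hb using h1
    rw [Finset.sum_congr rfl fun k _ => hb k, Finset.sum_sub_distrib, ← Finset.mul_sum]
    simp only [Finset.sum_const, Finset.card_univ, Fintype.card_fin, nsmul_eq_mul, mul_one]
    rw [hlen]
    exact ⟨n - ∑ k, b k, by ring⟩
  · -- pairs
    intro i j hij hi hj ⟨N', hN', hrel⟩
    obtain ⟨k, hk⟩ := exists_of_ne lab s i hi
    obtain ⟨l, hl⟩ := exists_of_ne lab s j hj
    have hkl : k ≠ l := fun h => hij (by rw [← hk, ← hl, h])
    subst hk
    subst hl
    rw [sign_ex lab s hss hs1, sign_ex lab s hss hs1] at hrel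
    have e1 : ∏ t, α t ^ (2 * ((Pi.single (lab k) (s k) + Pi.single (lab l) (s l) : ι → ℤ) t)) =
        α (lab k) ^ (2 * s k) * α (lab l) ^ (2 * s l) := by
      have e2 : ∀ t, α t ^ (2 * ((Pi.single (lab k) (s k) + Pi.single (lab l) (s l) : ι → ℤ) t)) =
          (if t = lab k then α (lab k) ^ (2 * s k) else 1) *
            (if t = lab l then α (lab l) ^ (2 * s l) else 1) := by
        intro t
        rw [Pi.add_apply, mul_add, zpow_add₀ (hα0 t)]
        congr 1
        · by_cases h : t = lab k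
          · rw [if_pos h, h, Pi.single_eq_same]
          · rw [if_neg h, Pi.single_eq_of_ne h, mul_zero, zpow_zero]
        · by_cases h : t = lab l
          · rw [if_pos h, h, Pi.single_eq_same]
          · rw [if_neg h, Pi.single_eq_of_ne h, mul_zero, zpow_zero]
      rw [Finset.prod_congr rfl fun t _ => e2 t, Finset.prod_mul_distrib]
      simp
    have e3 : ∑ t, (Pi.single (lab k) (s k) + Pi.single (lab l) (s l) : ι → ℤ) t =
        s k + s l := by
      simp only [Pi.add_apply]
      rw [Finset.sum_add_distrib]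
      simp
    rw [e1, e3] at hrel
    refine hpw k l hkl ⟨2 * N', by omega, ?_⟩
    have e4 : (w k * w l) ^ 2 = (α (lab k) ^ (2 * s k) * α (lab l) ^ (2 * s l)) *
        (q : ℂ) ^ (2 - (s k + s l)) := by
      rw [mul_pow, hsq, hsq]
      have : (q : ℂ) ^ (2 - (s k + s l)) = (q : ℂ) ^ (1 - s k) * (q : ℂ) ^ (1 - s l) := by
        rw [← zpow_add₀ hqc]
        congr 1
        ring
      rw [this]
      ring
    rw [pow_mul, e4, mul_pow, hrel, ← mul_pow, ← zpow_add₀ hqc, pow_mul]
    congr 1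
    rw [show s k + s l + (2 - (s k + s l)) = 2 by ring]
    norm_cast
  · -- multiplicity
    intro i hi ⟨N', hN', hrel⟩
    have hi0 : ex lab s i ≠ 0 := by
      intro h
      rw [h] at hi
      norm_num at hi
    obtain ⟨k, hk⟩ := exists_of_ne lab s i hi0
    subst hk
    have hcard : 2 ≤ (Finset.univ.filter fun l => lab l = lab k).card := by
      rw [ex_eq lab s hss, abs_mul] at hi
      have : |s k| = 1 := by
        rcases hs1 k with h | h
        · rw [h]; rfl
        · rw [h]; rfl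
      rw [this, one_mul, Nat.abs_cast] at hi
      exact_mod_cast hi
    obtain ⟨l, hl, hlk⟩ := Finset.exists_mem_ne
      (show 1 < (Finset.univ.filter fun l => lab l = lab k).card by omega) k
    have hl' := (Finset.mem_filter.1 hl).2
    have e1 : ∏ t, α t ^ (2 * ((Pi.single (lab k) 1 : ι → ℤ) t)) = α (lab k) ^ 2 := by
      have e2 : ∀ t, α t ^ (2 * ((Pi.single (lab k) 1 : ι → ℤ) t)) =
          (if t = lab k then α (lab k) ^ 2 else 1) := by
        intro t
        by_cases h : t = lab k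
        · rw [if_pos h, h, Pi.single_eq_same]
          norm_cast
        · rw [if_neg h, Pi.single_eq_of_ne h, mul_zero, zpow_zero]
      rw [Finset.prod_congr rfl fun t _ => e2 t]
      simp
    have e3 : ∑ t, (Pi.single (lab k) 1 : ι → ℤ) t = 1 := by simp
    rw [e1, e3, zpow_one] at hrel
    refine hpw l k hlk ⟨N', hN', ?_⟩
    have h0 := hα0 (lab k)
    have hsl := hss l k hl'
    rcases hls k with ⟨h1, h2⟩ | ⟨h1, h2⟩
    · rcases hls l with ⟨h3, h4⟩ | ⟨h3, h4⟩
      · rw [h2, h4, hl', ← pow_two, hrel]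
      · rw [h1, h3] at hsl
        norm_num at hsl
    · rcases hls l with ⟨h3, h4⟩ | ⟨h3, h4⟩
      · rw [h1, h3] at hsl
        norm_num at hsl
      · have e5 : w l * w k = (q : ℂ) ^ 2 / α (lab k) ^ 2 := by
          rw [h2, h4, hl']
          field_simp
        rw [e5, div_pow, hrel, ← pow_mul, two_mul, pow_add]
        field_simp

  · -- membership
    intro i hi
    obtain ⟨k, hk⟩ := exists_of_ne lab s i hi
    subst hk
    have hsg := sign_ex lab s hss hs1 k
    rcases hls k with ⟨h1, h2⟩ | ⟨h1, h2⟩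
    · have h3 : 0 < ex lab s (lab k) := Int.sign_eq_one_iff_pos.1 (hsg.trans h1)
      rw [if_pos h3, ← h2]
      exact hw1 k
    · have h3 : ex lab s (lab k) < 0 := Int.sign_eq_neg_one_iff_neg.1 (hsg.trans h1)
      rw [if_neg (by omega), ← h2]
      exact hw1 k

end Pool.Agent.H857.EF
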