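import Pool.Agent.H857.EF.Core2
import Pool.Agent.H857.HK.Zeta

set_option autoImplicit false
set_option linter.unusedVariables false

namespace Pool.Agent.H588.EF

open Module Polynomial Pool.Agent.W521.Descent Pool.Agent.W521.Density Pool.Agent.W521.Count
  Pool.Agent.X297.UB Pool.Agent.H857.PB Pool.Agent.H857.PA Pool.Agent.H857.HK
  Pool.Agent.H857.EF

lemma prod_single (A : Fin 4 → ℂ) (i : Fin 4) (c : ℤ) :
    ∏ k, A k ^ (2 * (Pi.single i c : Fin 4 → ℤ) k) = A i ^ (2 * c) := by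
  rw [Finset.prod_eq_single i]
  · rw [Pi.single_eq_same]
  · intro k _ hk
    rw [Pi.single_eq_of_ne hk, mul_zero, zpow_zero]
  · intro h
    exact absurd (Finset.mem_univ i) h

lemma sum_single (i : Fin 4) (c : ℤ) : ∑ k, (Pi.single i c : Fin 4 → ℤ) k = c := by
  rw [Finset.sum_eq_single i]
  · rw [Pi.single_eq_same]
  · intro k _ hk
    rw [Pi.single_eq_of_ne hk]
  · intro h
    exact absurd (Finset.mem_univ i) h

lemma sum_single_mul (i : Fin 4) (c : ℤ) (l : Fin 4 → ℝ) :
    ∑ k, (((Pi.single i c : Fin 4 → ℤ) k : ℤ) : ℝ) * l k = (c : ℝ) * l i := by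
  rw [Finset.sum_eq_single i]
  · rw [Pi.single_eq_same]
  · intro k _ hk
    rw [Pi.single_eq_of_ne hk, Int.cast_zero, zero_mul]
  · intro h
    exact absurd (Finset.mem_univ i) h

lemma sum_two (i j : Fin 4) (c d : ℤ) (l : Fin 4 → ℝ) :
    ∑ k, (((Pi.single i c + Pi.single j d : Fin 4 → ℤ) k : ℤ) : ℝ) * l k =
      (c : ℝ) * l i + (d : ℝ) * l j := by
  rw [← sum_single_mul i c l, ← sum_single_mul j d l, ← Finset.sum_add_distrib]
  refine Finset.sum_congr rfl fun k _ => ?_
  rw [Pi.add_apply, Int.cast_add, add_mul]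

/-- The algebra of one root. -/
lemma beta_sq (q : ℕ) (hq : (q : ℂ) ≠ 0) (A B : ℂ) (hA : A ≠ 0) (hAB : A * B = q) (e : ℤ)
    (he : e ≠ 0) :
    (if 0 < e then A else B) ^ 2 = A ^ (2 * e.sign) * (q : ℂ) ^ (1 - e.sign) := by
  by_cases h : 0 < e
  · rw [if_pos h, Int.sign_eq_one_of_pos h]
    norm_num
  · have h2 : e < 0 := lt_of_le_of_ne (not_lt.1 h) he
    rw [if_neg h, Int.sign_eq_neg_one_of_neg h2]
    have h3 : B = q / A := by
      rw [eq_div_iff hA, mul_comm]
      exact hAB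
    rw [h3]
    have h4 : A ^ (2 * (-1) : ℤ) = (A ^ 2)⁻¹ := by
      rw [show (2 * (-1) : ℤ) = -((2 : ℕ) : ℤ) by norm_num, zpow_neg, zpow_natCast]
    have h5 : (q : ℂ) ^ (1 - (-1) : ℤ) = (q : ℂ) ^ 2 := by
      rw [show (1 - (-1) : ℤ) = ((2 : ℕ) : ℤ) by norm_num, zpow_natCast]
    rw [h4, h5, div_pow]
    field_simp

theorem s4m (h1 : S1m) (h2a : S2a) (h2b : S2b) (h3 : S3m) : S4m := by
  intro p hp a ha x hx hirr L hL hroot hprod hpair
  have hq1 : 1 < p ^ a := Nat.one_lt_pow ha.ne' hp.out.one_lt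
  have hq0 : p ^ a ≠ 0 := by omega
  have hqC : ((p ^ a : ℕ) : ℂ) ≠ 0 := Nat.cast_ne_zero.2 hq0
  obtain ⟨q, hq⟩ : ∃ q : ℕ, q = p ^ a := ⟨_, rfl⟩
  obtain ⟨hne, hint, hcnt, hrel⟩ := h2a p a ha x hx
  obtain ⟨hinj, habs⟩ := h2b p a ha x hx hirr
  rw [← hq] at hq1 hq0 hqC hx hroot hprod hpair hne hint hcnt hrel hinj habs ⊢
  have hx' : wp q 4 x ∈ weilPolys q 4 := by
    have h := hx.1
    rw [← hq] at h
    exact h
  have hmul := lab_mul q 4 x
  have hA0 : ∀ i, labA q 4 x i ≠ 0 := fun i h => hqC (by rw [← hmul i, h, zero_mul])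
  have hnorm : ∀ i, ‖labA q 4 x i‖ ^ 2 = q := fun i =>
    hx'.2.2.2 _ ((lab_root hq0 x _).2 ⟨i, Or.inl rfl⟩)
  have hB : ∀ i, labB q 4 x i = q / labA q 4 x i := fun i => by
    rw [eq_div_iff (hA0 i), mul_comm]
    exact hmul i
  obtain ⟨e, he0, hrelE, heven, hpr, hsg, hmemL⟩ := h3 (Fin 4) q hq1 (labA q 4 x) hnorm L hL
    (fun z hz => by
      obtain ⟨i, hi⟩ := (lab_root hq0 x z).1 (hroot z hz)
      rw [hB i] at hi
      exact ⟨i, hi⟩) hprod hpair
  have hk := h1 (slopes p a (labA q 4 x)) hne hint hcnt habs e he0 ((hrel e).1 hrelE) heven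
    (fun i j hij hi hj => by
      by_contra hcon
      push Not at hcon
      refine hpr i j hij hi hj ((hrel _).2 fun l hl => ?_)
      rw [sum_two]
      exact hcon l hl)
    (fun i hi => by
      by_contra hcon
      push Not at hcon
      refine hsg i hi ((hrel _).2 fun l hl => ?_)
      rw [sum_single_mul, hcon l hl, mul_zero])
  obtain ⟨hall, hsame, hnz, hdiff⟩ := hk
  have hsq : ∀ i, (if 0 < e i then labA q 4 x i else labB q 4 x i) ^ 2 =
      labA q 4 x i ^ (2 * (e i).sign) * (q : ℂ) ^ (1 - (e i).sign) := fun i =>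
    beta_sq q hqC _ _ (hA0 i) (hmul i) (e i) (hall i)
  refine ⟨fun i => if 0 < e i then labA q 4 x i else labB q 4 x i, ⟨?_, ?_, ?_, ?_⟩, ?_, ?_⟩
  · intro i
    split_ifs
    · exact Or.inl rfl
    · exact Or.inr rfl
  · have hadd : ∀ i, (if 0 < e i then labA q 4 x i else labB q 4 x i) +
        q / (if 0 < e i then labA q 4 x i else labB q 4 x i) = labA q 4 x i + labB q 4 x i := by
      intro i
      split_ifs
      · rw [hB i]
      · rw [hB i, div_div_cancel₀ hqC, add_comm]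
    intro i j hij
    beta_reduce at hij
    apply hinj
    show labA q 4 x i + labB q 4 x i = labA q 4 x j + labB q 4 x j
    rw [← hadd i, ← hadd j, hij]
  · have hs : RelZ q (labA q 4 x) (fun i => (e i).sign) := by
      refine (hrel _).2 fun l hl => ?_
      have h5 := (hrel e).1 hrelE l hl
      have hm : (0 : ℝ) < |(e 0 : ℝ)| := abs_pos.2 (by exact_mod_cast hall 0)
      have h6 : |(e 0 : ℝ)| * ∑ i, (((e i).sign : ℤ) : ℝ) * l i = 0 := by
        rw [← h5, Finset.mul_sum]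
        refine Finset.sum_congr rfl fun i _ => ?_
        have h7 : (|e 0| : ℤ) = |e i| := hsame 0 i
        have h8 : (|e 0| : ℤ) * (e i).sign = e i := by
          rw [h7, mul_comm]
          exact Int.sign_mul_abs (e i)
        have h9 : |(e 0 : ℝ)| * (((e i).sign : ℤ) : ℝ) = (e i : ℝ) := by
          rw [← Int.cast_abs, ← Int.cast_mul, h8]
        rw [← mul_assoc, h9]
      exact (mul_eq_zero.1 h6).resolve_left hm.ne'
    obtain ⟨N, hN, hNe⟩ := hs
    refine ⟨2 * N, by omega, ?_⟩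
    rw [pow_mul, ← Finset.prod_pow]
    have h5 : ∏ i, (if 0 < e i then labA q 4 x i else labB q 4 x i) ^ 2 =
        (∏ i, labA q 4 x i ^ (2 * (e i).sign)) * (q : ℂ) ^ (4 - ∑ i, (e i).sign) := by
      rw [Finset.prod_congr rfl fun i _ => hsq i, Finset.prod_mul_distrib]
      congr 1
      rw [Fin.prod_univ_four, Fin.sum_univ_four, ← zpow_add₀ hqC, ← zpow_add₀ hqC,
        ← zpow_add₀ hqC]
      congr 1
      ring
    rw [h5, mul_pow, hNe, ← mul_pow, ← zpow_add₀ hqC]
    have h6 : ∑ i, (e i).sign + (4 - ∑ i, (e i).sign) = ((4 : ℕ) : ℤ) := by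
      push_cast
      ring
    rw [h6, zpow_natCast]
    rw [← pow_mul, ← pow_mul]
    congr 1
    ring
  · intro i j
    rintro ⟨N, hN, hNe⟩
    have h5 : ((labA q 4 x i ^ (2 * (e i).sign) * (q : ℂ) ^ (1 - (e i).sign)) *
        (labA q 4 x j ^ (2 * (e j).sign) * (q : ℂ) ^ (1 - (e j).sign))) ^ N =
        ((q : ℂ) ^ 2) ^ N := by
      rw [← hsq i, ← hsq j, ← mul_pow, ← pow_mul, mul_comm 2 N, pow_mul, hNe, ← pow_mul, ← pow_mul,
        mul_comm 2 N]
    have h6 : (labA q 4 x i ^ (2 * (e i).sign) * labA q 4 x j ^ (2 * (e j).sign)) ^ N =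
        ((q : ℂ) ^ ((e i).sign + (e j).sign)) ^ N := by
      have h7 : (labA q 4 x i ^ (2 * (e i).sign) * labA q 4 x j ^ (2 * (e j).sign)) ^ N *
          ((q : ℂ) ^ (2 - ((e i).sign + (e j).sign))) ^ N =
          ((q : ℂ) ^ ((e i).sign + (e j).sign)) ^ N *
          ((q : ℂ) ^ (2 - ((e i).sign + (e j).sign))) ^ N := by
        rw [← mul_pow, ← mul_pow, ← zpow_add₀ hqC]
        have h8 : (e i).sign + (e j).sign + (2 - ((e i).sign + (e j).sign)) = ((2 : ℕ) : ℤ) := by
          push_cast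
          ring
        rw [h8, zpow_natCast, ← h5]
        congr 1
        have h9 : (q : ℂ) ^ (2 - ((e i).sign + (e j).sign)) =
            (q : ℂ) ^ (1 - (e i).sign) * (q : ℂ) ^ (1 - (e j).sign) := by
          rw [← zpow_add₀ hqC]
          congr 1
          ring
        rw [h9]
        ring
      exact mul_right_cancel₀ (pow_ne_zero _ (zpow_ne_zero _ hqC)) h7
    have h7 : RelZ q (labA q 4 x) (Pi.single i (e i).sign + Pi.single j (e j).sign) := by
      refine ⟨N, hN, ?_⟩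
      have h8 : ∏ k, labA q 4 x k ^
          (2 * (Pi.single i (e i).sign + Pi.single j (e j).sign : Fin 4 → ℤ) k) =
          labA q 4 x i ^ (2 * (e i).sign) * labA q 4 x j ^ (2 * (e j).sign) := by
        rw [← prod_single (labA q 4 x) i, ← prod_single (labA q 4 x) j,
          ← Finset.prod_mul_distrib]
        refine Finset.prod_congr rfl fun k _ => ?_
        rw [Pi.add_apply, mul_add, zpow_add₀ (hA0 k)]
      have h9 : ∑ k, (Pi.single i (e i).sign + Pi.single j (e j).sign : Fin 4 → ℤ) k =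
          (e i).sign + (e j).sign := by
        rw [← sum_single i (e i).sign, ← sum_single j (e j).sign, ← Finset.sum_add_distrib,
          sum_single, sum_single]
        rfl
      rw [h8, h9, h6]
    by_cases hij : i = j
    · subst hij
      obtain ⟨l, hl, hli⟩ := hnz i
      have h8 := (hrel _).1 h7 l hl
      rw [sum_two] at h8
      have h9 : (((e i).sign : ℤ) : ℝ) ≠ 0 := by
        exact_mod_cast (Int.sign_eq_zero_iff_zero.not).2 (hall i)
      have h10 : (((e i).sign : ℤ) : ℝ) * l i = 0 := by linarith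
      rcases mul_eq_zero.1 h10 with h | h
      · exact h9 h
      · exact hli h
    · exact hpr i j hij (hall i) (hall j) h7
  · intro i
    have h5 := hmemL i (hall i)
    rw [← hB i] at h5
    exact h5
  · intro i j hij N hN hNe
    have h5 : (labA q 4 x i ^ (2 * (e i).sign) * (q : ℂ) ^ (1 - (e i).sign)) ^ N =
        (labA q 4 x j ^ (2 * (e j).sign) * (q : ℂ) ^ (1 - (e j).sign)) ^ N := by
      rw [← hsq i, ← hsq j, ← pow_mul, ← pow_mul, mul_comm 2 N, pow_mul, pow_mul]
      exact congrArg (fun z => z ^ 2) hNe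
    have hAj0 : labA q 4 x j ^ (2 * (e j).sign) ≠ 0 := zpow_ne_zero _ (hA0 j)
    have hqi0 : (q : ℂ) ^ (1 - (e i).sign) ≠ 0 := zpow_ne_zero _ hqC
    have h6 : (labA q 4 x i ^ (2 * (e i).sign) * labA q 4 x j ^ (2 * (-(e j).sign))) ^ N =
        ((q : ℂ) ^ ((e i).sign + (-(e j).sign))) ^ N := by
      have h8 : labA q 4 x j ^ (2 * (-(e j).sign)) = (labA q 4 x j ^ (2 * (e j).sign))⁻¹ := by
        rw [mul_neg, zpow_neg]
      have h9 : (q : ℂ) ^ ((e i).sign + (-(e j).sign)) =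
          (q : ℂ) ^ (1 - (e j).sign) * ((q : ℂ) ^ (1 - (e i).sign))⁻¹ := by
        rw [← zpow_neg, ← zpow_add₀ hqC]
        congr 1
        ring
      rw [h8, h9, mul_pow, mul_pow, inv_pow, inv_pow, ← div_eq_mul_inv, ← div_eq_mul_inv,
        div_eq_div_iff (pow_ne_zero _ hAj0) (pow_ne_zero _ hqi0), ← mul_pow, ← mul_pow, h5]
      congr 1
      ring
    have h7 : RelZ q (labA q 4 x) (Pi.single i (e i).sign + Pi.single j (-(e j).sign)) := by
      refine ⟨N, hN, ?_⟩
      have h8 : ∏ k, labA q 4 x k ^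
          (2 * (Pi.single i (e i).sign + Pi.single j (-(e j).sign) : Fin 4 → ℤ) k) =
          labA q 4 x i ^ (2 * (e i).sign) * labA q 4 x j ^ (2 * (-(e j).sign)) := by
        rw [← prod_single (labA q 4 x) i, ← prod_single (labA q 4 x) j,
          ← Finset.prod_mul_distrib]
        refine Finset.prod_congr rfl fun k _ => ?_
        rw [Pi.add_apply, mul_add, zpow_add₀ (hA0 k)]
      have h9 : ∑ k, (Pi.single i (e i).sign + Pi.single j (-(e j).sign) : Fin 4 → ℤ) k =
          (e i).sign + (-(e j).sign) := by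
        rw [← sum_single i (e i).sign, ← sum_single j (-(e j).sign), ← Finset.sum_add_distrib,
          sum_single, sum_single]
        rfl
      rw [h8, h9, h6]
    obtain ⟨l, hl, hlne⟩ := hdiff i j hij
    have h8 := (hrel _).1 h7 l hl
    rw [sum_two] at h8
    apply hlne
    push_cast at h8
    linarith

/-- removing a factor. -/
lemma rest_rel {q : ℂ} (hq : q ≠ 0) {P y R : ℂ} (hP : P = y * R) {N M c : ℕ} (hN : 0 < N)
    (hM : 0 < M) {n : ℤ} (h1 : P ^ N = q ^ (n * N)) (h2 : y ^ M = (q ^ c) ^ M) :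
    ∃ N' : ℕ, 0 < N' ∧ ∃ n' : ℤ, R ^ N' = q ^ (n' * N') := by
  refine ⟨N * M, Nat.mul_pos hN hM, n - c, ?_⟩
  have h3 : y ^ (N * M) = q ^ ((c : ℤ) * ((N * M : ℕ) : ℤ)) := by
    rw [mul_comm N M, pow_mul, h2, ← pow_mul, ← pow_mul, ← zpow_natCast]
    have h3' : ((c * (M * N) : ℕ) : ℤ) = (c : ℤ) * ((M * N : ℕ) : ℤ) := by
      push_cast
      ring
    rw [h3']
  have h4 : P ^ (N * M) = q ^ (n * ((N * M : ℕ) : ℤ)) := by
    have h4' : n * (N : ℤ) * (M : ℤ) = n * ((N * M : ℕ) : ℤ) := by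
      push_cast
      ring
    rw [pow_mul, h1, ← zpow_natCast, ← zpow_mul, h4']
  have h5 : q ^ ((c : ℤ) * ((N * M : ℕ) : ℤ)) ≠ 0 := zpow_ne_zero _ hq
  apply mul_left_cancel₀ h5
  rw [← zpow_add₀ hq]
  have h6 : (c : ℤ) * ((N * M : ℕ) : ℤ) + (n - c) * ((N * M : ℕ) : ℤ) =
      n * ((N * M : ℕ) : ℤ) := by ring
  rw [h6, ← h4, hP, mul_pow, h3]

lemma perm_four {L : List ℂ} {β : Fin 4 → ℂ} (hβ : Function.Injective β) (h : ∀ i, β i ∈ L) :
    ∃ L' : List ℂ, L.Perm (β 0 :: β 1 :: β 2 :: β 3 :: L') := by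
  classical
  have hne : ∀ {i j : Fin 4}, i ≠ j → β i ≠ β j := fun hij h => hij (hβ h)
  have m1 : ∀ j : Fin 4, j ≠ 0 → β j ∈ L.erase (β 0) := fun j hj =>
    (List.mem_erase_of_ne (hne hj)).2 (h j)
  have m2 : ∀ j : Fin 4, j ≠ 0 → j ≠ 1 → β j ∈ (L.erase (β 0)).erase (β 1) := fun j hj hj1 =>
    (List.mem_erase_of_ne (hne hj1)).2 (m1 j hj)
  have m3 : β 3 ∈ ((L.erase (β 0)).erase (β 1)).erase (β 2) :=
    (List.mem_erase_of_ne (hne (by decide))).2 (m2 3 (by decide) (by decide))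
  refine ⟨(((L.erase (β 0)).erase (β 1)).erase (β 2)).erase (β 3), ?_⟩
  refine (List.perm_cons_erase (h 0)).trans (List.Perm.cons _ ?_)
  refine (List.perm_cons_erase (m1 1 (by decide))).trans (List.Perm.cons _ ?_)
  refine (List.perm_cons_erase (m2 2 (by decide) (by decide))).trans (List.Perm.cons _ ?_)
  exact List.perm_cons_erase m3

theorem s25 (h4 : S4m) : S25 := by
  intro p hp a ha x hx hirr
  have hq0 : p ^ a ≠ 0 := (Nat.pos_of_ne_zero (pow_ne_zero _ hp.out.ne_zero)).ne'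
  have hqC : ((p ^ a : ℕ) : ℂ) ≠ 0 := Nat.cast_ne_zero.2 hq0
  have key : ∀ (n : ℕ) (L : List ℂ), L.length = n → (∀ z ∈ L, aeval z (wp (p ^ a) 4 x) = 0) →
      (∃ N : ℕ, 0 < N ∧ ∃ n : ℤ, L.prod ^ N = ((p ^ a : ℕ) : ℂ) ^ (n * N)) →
      Matched4 (PairRel (p ^ a)) (QuadRel (p ^ a)) L := by
    intro n
    induction n using Nat.strong_induction_on with
    | _ n ih =>
      intro L hLn hroot hprod
      by_cases hL : L = []
      · rw [hL]
        exact Matched4.nil
      by_cases hpw : L.Pairwise fun y z => ¬ PairRel (p ^ a) y z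
      · obtain ⟨β, hβ, hmem, -⟩ := h4 p a ha x hx hirr L hL hroot hprod hpw
        obtain ⟨L', hperm⟩ := perm_four hβ.inj hmem
        obtain ⟨M, hM, hMe⟩ := hβ.prod
        rw [Fin.prod_univ_four] at hMe
        have hlen : n = L'.length + 4 := by
          rw [← hLn, hperm.length_eq]
          simp
        have hPr : L.prod = (β 0 * β 1 * β 2 * β 3) * L'.prod := by
          rw [hperm.prod_eq]
          simp only [List.prod_cons]
          ring
        obtain ⟨N, hN, m, hm⟩ := hprod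
        refine Matched4.quad (a := β 0) (b := β 1) (c := β 2) (d := β 3) (L := L')
          ⟨M, hM, hMe⟩ ?_ hperm
        refine ih L'.length (by omega) L' rfl (fun z hz => ?_) (rest_rel hqC hPr hN hM hm hMe)
        refine hroot z (hperm.mem_iff.2 ?_)
        simp [hz]
      · obtain ⟨y, y', L', hperm, hyy⟩ := exists_pair (PairRel (p ^ a)) L hpw
        obtain ⟨M, hM, hMe⟩ := hyy
        have hlen : n = L'.length + 2 := by
          rw [← hLn, hperm.length_eq]
          simp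
        have hPr : L.prod = (y * y') * L'.prod := by
          rw [hperm.prod_eq]
          simp only [List.prod_cons]
          ring
        obtain ⟨N, hN, m, hm⟩ := hprod
        refine Matched4.pair (a := y) (b := y') (L := L') ⟨M, hM, hMe⟩ ?_ hperm
        refine ih L'.length (by omega) L' rfl (fun z hz => ?_)
          (rest_rel (c := 1) hqC hPr hN hM hm (by rw [hMe, pow_one]))
        refine hroot z (hperm.mem_iff.2 ?_)
        simp [hz]
  intro L hroot hprod
  exact key L.length L rfl hroot hprod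

end Pool.Agent.H588.EF
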