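import Pool.Agent.H857.EF.Core

/-! # Project ExoticFourfolds (helper857), statement S6a -/

set_option autoImplicit false

namespace Pool.Agent.H597.EF

open Module Polynomial Pool.Agent.H857.EF

theorem isGalois_QB : IsGalois ℚ QB := by
  have : IsAlgClosure ℚ QB := algebraicClosure.isAlgClosure ℚ ℂ
  have : Normal ℚ QB := IsAlgClosure.normal ℚ QB
  exact ⟨⟩

/-- complex conjugation on the algebraic numbers -/
theorem exists_conj : ∃ c : QB ≃ₐ[ℚ] QB, ∀ x : QB, (c x : ℂ) = (starRingEnd ℂ) (x : ℂ) := by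
  have : IsAlgClosure ℚ QB := algebraicClosure.isAlgClosure ℚ ℂ
  have : Normal ℚ QB := IsAlgClosure.normal ℚ QB
  refine ⟨(Complex.conjAe.restrictScalars ℚ).restrictNormal QB, fun x => ?_⟩
  exact AlgEquiv.restrictNormal_commutes (Complex.conjAe.restrictScalars ℚ) QB x

/-- an algebraic integer which is fixed by all automorphisms is an integer -/
theorem int_of_fixed (x : QB) (hx : IsIntegral ℤ x) (h : ∀ σ : QB ≃ₐ[ℚ] QB, σ x = x) :
    ∃ n : ℤ, (x : ℂ) = n := by
  have := isGalois_QB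
  have h1 : x ∈ (⊥ : IntermediateField ℚ QB) := (InfiniteGalois.mem_bot_iff_fixed x).2 h
  obtain ⟨r, hr⟩ := IntermediateField.mem_bot.1 h1
  have h2 : IsIntegral ℤ r := by
    rw [← hr] at hx
    exact (isIntegral_algebraMap_iff (algebraMap ℚ QB).injective).1 hx
  obtain ⟨n, hn⟩ := IsIntegrallyClosed.isIntegral_iff.1 h2
  refine ⟨n, ?_⟩
  rw [← hr, ← hn]
  simp

/-- norms and traces -/
theorem norm_trace (c : QB ≃ₐ[ℚ] QB) (hc : ∀ x : QB, (c x : ℂ) = (starRingEnd ℂ) (x : ℂ))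
    (x : QB) (hx : IsIntegral ℤ x) (h : ∀ σ : QB ≃ₐ[ℚ] QB, σ x = x ∨ σ x = c x) :
    (∃ n : ℤ, (x : ℂ) + (starRingEnd ℂ) (x : ℂ) = n) ∧ ∃ n : ℤ, ‖(x : ℂ)‖ ^ 2 = n := by
  have hcx : IsIntegral ℤ (c x) := hx.map (c.restrictScalars ℤ)
  have key : ∀ σ : QB ≃ₐ[ℚ] QB, (σ x = x ∧ σ (c x) = c x) ∨ (σ x = c x ∧ σ (c x) = x) := by
    intro σ
    have h2 : σ (c x) = x ∨ σ (c x) = c x := h (c.trans σ)
    rcases h σ with h1 | h1
    · rcases h2 with h2 | h2
      · have h3 : c x = x := σ.injective (h2.trans h1.symm)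
        left
        rw [h3]
        exact ⟨h1, h1⟩
      · exact Or.inl ⟨h1, h2⟩
    · rcases h2 with h2 | h2
      · exact Or.inr ⟨h1, h2⟩
      · have h3 : x = c x := σ.injective (h1.trans h2.symm)
        left
        rw [← h3]
        rw [← h3] at h1
        exact ⟨h1, h1⟩
  constructor
  · obtain ⟨n, hn⟩ := int_of_fixed (x + c x) (hx.add hcx) fun σ => by
      rcases key σ with ⟨h1, h2⟩ | ⟨h1, h2⟩
      · rw [map_add, h1, h2]
      · rw [map_add, h1, h2, add_comm]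
    refine ⟨n, ?_⟩
    rw [← hn, ← hc x]
    rfl
  · obtain ⟨n, hn⟩ := int_of_fixed (x * c x) (hx.mul hcx) fun σ => by
      rcases key σ with ⟨h1, h2⟩ | ⟨h1, h2⟩
      · rw [map_mul, h1, h2]
      · rw [map_mul, h1, h2, mul_comm]
    refine ⟨n, ?_⟩
    have h1 : (x : ℂ) * (starRingEnd ℂ) (x : ℂ) = n := by
      rw [← hn, ← hc x]
      rfl
    rw [Complex.mul_conj] at h1
    have h2 : Complex.normSq (x : ℂ) = n := by exact_mod_cast h1
    rw [← h2, Complex.normSq_eq_norm_sq]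

theorem s6a : S6a := by
  obtain ⟨c, hc⟩ := exists_conj
  constructor
  · intro q f U V ζ hD
    have hU : ∀ σ : QB ≃ₐ[ℚ] QB, σ U = U ∨ σ U = c U := fun σ => by
      rcases hD.gal σ with h | h
      · exact Or.inl h.1
      · exact Or.inr (Subtype.ext (by rw [h.1, hc]))
    have hV : ∀ σ : QB ≃ₐ[ℚ] QB, σ V = V ∨ σ V = c V := fun σ => by
      rcases hD.gal σ with h | h
      · exact Or.inl h.2
      · exact Or.inr (Subtype.ext (by rw [h.2, hc]))
    obtain ⟨h1, h2⟩ := norm_trace c hc U hD.intU hU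
    obtain ⟨-, h3⟩ := norm_trace c hc V hD.intV hV
    exact ⟨h1, h2, h3⟩
  · intro q f f' U V V' ζ ζ' hD hD' hne
    have hd : ∀ σ : QB ≃ₐ[ℚ] QB, σ (V - V') = V - V' ∨ σ (V - V') = c (V - V') := fun σ => by
      rcases hD.gal σ with ⟨h1, h2⟩ | ⟨h1, h2⟩
      · rcases hD'.gal σ with ⟨h3, h4⟩ | ⟨h3, h4⟩
        · left
          rw [map_sub, h2, h4]
        · exact absurd (by rw [← h3, h1]) hne
      · rcases hD'.gal σ with ⟨h3, h4⟩ | ⟨h3, h4⟩
        · exact absurd (by rw [← h1, h3]) hne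
        · right
          rw [map_sub, map_sub]
          have e1 : σ V = c V := Subtype.ext (by rw [h2, hc])
          have e2 : σ V' = c V' := Subtype.ext (by rw [h4, hc])
          rw [e1, e2]
    obtain ⟨-, n, hn⟩ := norm_trace c hc (V - V') (hD.intV.sub hD'.intV) hd
    exact ⟨n, hn⟩

end Pool.Agent.H597.EF
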