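import Pool.Agent.H857.EF.Core

/-! Project ExoticFourfolds of helper857, task S6b. -/

set_option autoImplicit false

namespace Pool.Agent.H962.EF

open Module Polynomial Pool.Agent.W521.Descent Pool.Agent.W521.Density Pool.Agent.W521.Count
  Pool.Agent.X297.UB Pool.Agent.H857.PB Pool.Agent.H857.PA Pool.Agent.H857.HK Pool.Agent.H857.EF
open scoped ComplexConjugate

/-- counting with a relation -/
theorem count_rel {α β : Type*} (S : Set α) (T : Finset β) (R : α → β → Prop)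
    (h1 : ∀ a ∈ S, ∃ b ∈ T, R a b) (h2 : ∀ a a' b, R a b → R a' b → a = a') :
    S.Finite ∧ S.ncard ≤ T.card := by
  classical
  rcases S.eq_empty_or_nonempty with rfl | ⟨a0, ha0⟩
  · exact ⟨Set.finite_empty, by rw [Set.ncard_empty]; exact Nat.zero_le _⟩
  obtain ⟨b0, -, -⟩ := h1 a0 ha0
  have : Nonempty β := ⟨b0⟩
  choose! f hf1 hf2 using h1
  have hinj : Set.InjOn f S := by
    intro a ha a' ha' h
    exact h2 a a' (f a) (hf2 a ha) (by rw [h]; exact hf2 a' ha')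
  have hfin : S.Finite := by
    refine Set.Finite.of_finite_image ((T.finite_toSet).subset ?_) hinj
    rintro _ ⟨a, ha, rfl⟩
    exact hf1 a ha
  refine ⟨hfin, ?_⟩
  have h := Set.ncard_le_ncard_of_injOn f (t := (T : Set β)) (fun a ha => hf1 a ha) hinj
    (T.finite_toSet)
  rwa [Set.ncard_coe_finset] at h

/-- a square root on the unit circle -/
noncomputable def eta (ζ : ℂ) : ℂ := ζ ^ (((2 : ℕ) : ℂ)⁻¹)

theorem eta_sq (ζ : ℂ) : eta ζ ^ 2 = ζ := Complex.cpow_nat_inv_pow ζ two_ne_zero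

theorem rou_norm {ζ : ℂ} (h : ζ ∈ rou 2) : ‖ζ‖ = 1 := by
  obtain ⟨⟨n, hn, h⟩, -⟩ := h
  exact Complex.norm_eq_one_of_pow_eq_one h hn.ne'

theorem eta_norm {ζ : ℂ} (h : ζ ∈ rou 2) : ‖eta ζ‖ = 1 := by
  have h1 : ‖eta ζ‖ ^ 2 = 1 := by rw [← norm_pow, eta_sq, rou_norm h]
  exact (pow_eq_one_iff_of_nonneg (norm_nonneg _) two_ne_zero).1 h1

theorem eta_ne {ζ : ℂ} (h : ζ ∈ rou 2) : eta ζ ≠ 0 := by
  intro h0
  have h1 := eta_norm h
  rw [h0, norm_zero] at h1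
  exact zero_ne_one h1

/-- `V / eta` is real -/
theorem real_line {V ζ : ℂ} (h : ζ ∈ rou 2) (hV : V = ζ * (starRingEnd ℂ) V) :
    (((V / eta ζ).re : ℝ) : ℂ) = V / eta ζ := by
  rw [← Complex.conj_eq_iff_re, map_div₀]
  have h1 : (starRingEnd ℂ) (eta ζ) * eta ζ = 1 := by
    rw [Complex.conj_mul', eta_norm h]
    simp
  have h2 : (starRingEnd ℂ) (eta ζ) ≠ 0 := fun h0 => by
    rw [h0, zero_mul] at h1
    exact zero_ne_one h1
  have h3 := eta_ne h
  rw [div_eq_div_iff h2 h3]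
  have h4 : V = eta ζ ^ 2 * (starRingEnd ℂ) V := by
    rw [eta_sq]
    exact hV
  calc (starRingEnd ℂ) V * eta ζ = ((starRingEnd ℂ) (eta ζ) * eta ζ) * (starRingEnd ℂ) V
        * eta ζ := by rw [h1, one_mul]
    _ = (eta ζ ^ 2 * (starRingEnd ℂ) V) * (starRingEnd ℂ) (eta ζ) := by ring
    _ = V * (starRingEnd ℂ) (eta ζ) := by rw [← h4]

theorem norm_line {V ζ : ℂ} (h : ζ ∈ rou 2) (hV : V = ζ * (starRingEnd ℂ) V) :
    |(V / eta ζ).re| = ‖V‖ := by
  have h1 := congrArg norm (real_line h hV)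
  rw [Complex.norm_real, norm_div, eta_norm h, div_one, Real.norm_eq_abs] at h1
  exact h1

/-- `U` is determined by its trace, its norm and a sign -/
theorem U_det {U U' : ℂ} {A n : ℤ} (h1 : U + (starRingEnd ℂ) U = A)
    (h1' : U' + (starRingEnd ℂ) U' = A) (h2 : ‖U‖ ^ 2 = n) (h2' : ‖U'‖ ^ 2 = n)
    (h3 : 0 < U.im ↔ 0 < U'.im) : U = U' := by
  have e1 := congrArg Complex.re h1
  have e1' := congrArg Complex.re h1'
  simp only [Complex.add_re, Complex.conj_re, Complex.intCast_re] at e1 e1'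
  have e2 : U.re ^ 2 + U.im ^ 2 = n := by
    rw [← h2, ← Complex.normSq_eq_norm_sq, Complex.normSq_apply]; ring
  have e2' : U'.re ^ 2 + U'.im ^ 2 = n := by
    rw [← h2', ← Complex.normSq_eq_norm_sq, Complex.normSq_apply]; ring
  have hre : U.re = U'.re := by linarith
  rw [hre] at e2
  have him : U.im ^ 2 = U'.im ^ 2 := by linarith
  refine Complex.ext hre ?_
  rcases sq_eq_sq_iff_eq_or_eq_neg.1 him with h | h
  · exact h
  · by_cases hp : 0 < U.im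
    · have := h3.1 hp
      linarith
    · have hp' : ¬ 0 < U'.im := fun h' => hp (h3.2 h')
      linarith

theorem data_eq {q : ℕ} {f f' : ℤ[X]} {U V : QB} {ζ : ℂ} (h : Data q f U V ζ)
    (h' : Data q f' U V ζ) : f = f' := by
  have h1 := h.eq.trans h'.eq.symm
  exact Polynomial.map_injective _ (RingHom.injective_int (Int.castRingHom ℂ)) h1

theorem s6b (h6a : S6a) : S6b := by
  classical
  obtain ⟨ha, hb⟩ := h6a
  obtain ⟨R, hR⟩ : ∃ R : Finset ℂ, R = (rou_finite 2).toFinset := ⟨_, rfl⟩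
  have hRm : ∀ ζ, ζ ∈ rou 2 → ζ ∈ R := fun ζ h => by
    rw [hR]; exact (Set.Finite.mem_toFinset _).2 h
  refine ⟨10000 * (R.card + 1), by positivity, fun q hq => ?_⟩
  obtain ⟨K, hK⟩ : ∃ K : ℕ, K = ⌊8 * Real.sqrt q⌋₊ := ⟨_, rfl⟩
  have hq1 : (1 : ℝ) ≤ q := by exact_mod_cast hq
  have hs1 : 1 ≤ Real.sqrt q := by rw [Real.one_le_sqrt]; exact hq1
  have hs2 : Real.sqrt q ^ 2 = q := Real.sq_sqrt (by linarith)
  -- bounds
  have bA : ∀ {f : ℤ[X]} {U V : QB} {ζ : ℂ} {A : ℤ}, Data q f U V ζ →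
      (U : ℂ) + (starRingEnd ℂ) (U : ℂ) = A → A ∈ Finset.Icc (-(K : ℤ)) K := by
    intro f U V ζ A hd hA
    have h1 := congrArg Complex.re hA
    simp only [Complex.add_re, Complex.conj_re, Complex.intCast_re] at h1
    have h2 := Complex.abs_re_le_norm (U : ℂ)
    have h3 : |(A : ℝ)| ≤ 8 * Real.sqrt q := by
      rw [← h1, abs_le]
      have h4 := hd.le_U
      have h5 := abs_le.1 h2
      constructor <;> linarith [h5.1, h5.2]
    have h6 : A.natAbs ≤ K := by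
      rw [hK]
      refine Nat.le_floor ?_
      rw [Nat.cast_natAbs, Int.cast_abs]
      exact h3
    rw [Finset.mem_Icc]
    omega
  have bn : ∀ {f : ℤ[X]} {U V : QB} {ζ : ℂ} {n : ℤ}, Data q f U V ζ →
      ‖(U : ℂ)‖ ^ 2 = n → n ∈ Finset.Icc (0 : ℤ) (16 * q) := by
    intro f U V ζ n hd hn
    have h1 : (0 : ℝ) ≤ n := by rw [← hn]; positivity
    have h2 : (n : ℝ) ≤ 16 * q := by
      rw [← hn]
      calc ‖(U : ℂ)‖ ^ 2 ≤ (4 * Real.sqrt q) ^ 2 := pow_le_pow_left₀ (norm_nonneg _) hd.le_U 2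
        _ = 16 * q := by rw [mul_pow, hs2]; norm_num
    rw [Finset.mem_Icc]
    exact ⟨by exact_mod_cast h1, by exact_mod_cast h2⟩
  have bV : ∀ {f : ℤ[X]} {U V : QB} {ζ : ℂ} {n : ℤ}, Data q f U V ζ →
      ‖(V : ℂ)‖ ^ 2 = n → n ∈ Finset.Icc (0 : ℤ) (36 * q ^ 2) := by
    intro f U V ζ n hd hn
    have h1 : (0 : ℝ) ≤ n := by rw [← hn]; positivity
    have h2 : (n : ℝ) ≤ 36 * q ^ 2 := by
      rw [← hn]
      calc ‖(V : ℂ)‖ ^ 2 ≤ (6 * q) ^ 2 := pow_le_pow_left₀ (norm_nonneg _) hd.le_V 2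
        _ = 36 * q ^ 2 := by ring
    rw [Finset.mem_Icc]
    exact ⟨by exact_mod_cast h1, by exact_mod_cast h2⟩
  have br : ∀ {f : ℤ[X]} {U V : QB} {ζ : ℂ}, Data q f U V ζ →
      ⌊((V : ℂ) / eta ζ).re⌋ ∈ Finset.Icc (-(6 * q) : ℤ) (6 * q) := by
    intro f U V ζ hd
    have h1 := norm_line hd.zeta hd.line
    have h2 : |((V : ℂ) / eta ζ).re| ≤ 6 * q := by rw [h1]; exact hd.le_V
    rw [abs_le] at h2
    rw [Finset.mem_Icc]
    constructor
    · rw [Int.le_floor]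
      push_cast
      exact h2.1
    · have h3 := Int.floor_le ((V : ℂ) / eta ζ).re
      have h4 : ((⌊((V : ℂ) / eta ζ).re⌋ : ℤ) : ℝ) ≤ ((6 * q : ℤ) : ℝ) := by
        push_cast
        linarith
      exact_mod_cast h4
  -- class 1
  obtain ⟨S1, hS1⟩ : ∃ S1 : Set ℤ[X], S1 = {f | ∃ (U V : QB) (ζ : ℂ), Data q f U V ζ ∧
    (starRingEnd ℂ) (U : ℂ) ≠ U} := ⟨_, rfl⟩
  obtain ⟨S2, hS2⟩ : ∃ S2 : Set ℤ[X], S2 = {f | ∃ (U V : QB) (ζ : ℂ), Data q f U V ζ ∧
    (starRingEnd ℂ) (U : ℂ) = U} := ⟨_, rfl⟩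
  have c1 := count_rel S1 ((Finset.univ : Finset Bool) ×ˢ Finset.Icc (-(K : ℤ)) K ×ˢ
    Finset.Icc (0 : ℤ) (16 * q) ×ˢ Finset.Icc (-(6 * q) : ℤ) (6 * q) ×ˢ R)
    (fun f c => ∃ (U V : QB), Data q f U V c.2.2.2.2 ∧ (starRingEnd ℂ) (U : ℂ) ≠ U ∧
      (U : ℂ) + (starRingEnd ℂ) (U : ℂ) = c.2.1 ∧ ‖(U : ℂ)‖ ^ 2 = c.2.2.1 ∧
      (c.1 = true ↔ 0 < (U : ℂ).im) ∧ ⌊((V : ℂ) / eta c.2.2.2.2).re⌋ = c.2.2.2.1)
    (by
      intro f hf
      rw [hS1] at hf
      obtain ⟨U, V, ζ, hd, hU⟩ := hf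
      obtain ⟨⟨A, hA⟩, ⟨n, hn⟩, -⟩ := ha q f U V ζ hd
      refine ⟨(decide (0 < (U : ℂ).im), A, n, ⌊((V : ℂ) / eta ζ).re⌋, ζ), ?_, U, V, hd, hU, hA,
        hn, by simp, rfl⟩
      simp only [Finset.mem_product]
      exact ⟨Finset.mem_univ _, bA hd hA, bn hd hn, br hd, hRm _ hd.zeta⟩)
    (by
      rintro f f' ⟨s, A, n, k, ζ⟩ ⟨U, V, hd, hU, hA, hn, hs, hk⟩ ⟨U', V', hd', hU', hA', hn',
        hs', hk'⟩
      simp only at hd hA hn hs hk hd' hA' hn' hs' hk'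
      have e1 : (U : ℂ) = U' := U_det hA hA' hn hn' (hs.symm.trans hs')
      have e2 : U = U' := Subtype.ext e1
      subst e2
      obtain ⟨m, hm⟩ := hb q f f' U V V' ζ ζ hd hd' hU
      have r1 := real_line hd.zeta hd.line
      have r2 := real_line hd'.zeta hd'.line
      have r3 : ‖(V : ℂ) - V'‖ = |((V : ℂ) / eta ζ).re - ((V' : ℂ) / eta ζ).re| := by
        have h1 : (V : ℂ) - V' = ((((V : ℂ) / eta ζ).re - ((V' : ℂ) / eta ζ).re : ℝ) : ℂ)
            * eta ζ := by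
          rw [Complex.ofReal_sub, r1, r2]
          field_simp [eta_ne hd.zeta]
        rw [h1, norm_mul, eta_norm hd.zeta, mul_one, Complex.norm_real, Real.norm_eq_abs]
      have r4 : |((V : ℂ) / eta ζ).re - ((V' : ℂ) / eta ζ).re| < 1 :=
        Int.abs_sub_lt_one_of_floor_eq_floor (hk.trans hk'.symm)
      have r5 : (m : ℝ) < 1 := by
        rw [← hm, r3]
        have := abs_nonneg (((V : ℂ) / eta ζ).re - ((V' : ℂ) / eta ζ).re)
        nlinarith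
      have r6 : (0 : ℝ) ≤ m := by rw [← hm]; positivity
      have r7 : m = 0 := by
        have h7 : m < 1 := by exact_mod_cast r5
        have h8 : 0 ≤ m := by exact_mod_cast r6
        omega
      rw [r7, Int.cast_zero] at hm
      have r8 : (V : ℂ) - V' = 0 := norm_eq_zero.1 (pow_eq_zero_iff two_ne_zero |>.1 hm)
      have r9 : V = V' := Subtype.ext (sub_eq_zero.1 r8)
      subst r9
      exact data_eq hd hd')
  have c2 := count_rel S2 ((Finset.univ : Finset Bool) ×ˢ Finset.Icc (-(K : ℤ)) K ×ˢ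
    Finset.Icc (0 : ℤ) (36 * q ^ 2) ×ˢ R)
    (fun f c => ∃ (U V : QB), Data q f U V c.2.2.2 ∧ (starRingEnd ℂ) (U : ℂ) = U ∧
      (U : ℂ) + (starRingEnd ℂ) (U : ℂ) = c.2.1 ∧ ‖(V : ℂ)‖ ^ 2 = c.2.2.1 ∧
      (c.1 = true ↔ 0 < ((V : ℂ) / eta c.2.2.2).re))
    (by
      intro f hf
      rw [hS2] at hf
      obtain ⟨U, V, ζ, hd, hU⟩ := hf
      obtain ⟨⟨A, hA⟩, -, ⟨n, hn⟩⟩ := ha q f U V ζ hd
      refine ⟨(decide (0 < ((V : ℂ) / eta ζ).re), A, n, ζ), ?_, U, V, hd, hU, hA, hn, by simp⟩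
      simp only [Finset.mem_product]
      exact ⟨Finset.mem_univ _, bA hd hA, bV hd hn, hRm _ hd.zeta⟩)
    (by
      rintro f f' ⟨s, A, n, ζ⟩ ⟨U, V, hd, hU, hA, hn, hs⟩ ⟨U', V', hd', hU', hA', hn', hs'⟩
      simp only at hd hA hn hs hd' hA' hn' hs'
      have e1 : (U : ℂ) = U' := by
        rw [hU] at hA
        rw [hU'] at hA'
        have h1 : (2 : ℂ) * U = 2 * U' := by rw [two_mul, two_mul, hA, hA']
        exact mul_left_cancel₀ two_ne_zero h1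
      have e2 : U = U' := Subtype.ext e1
      subst e2
      have r1 := real_line hd.zeta hd.line
      have r2 := real_line hd'.zeta hd'.line
      have n1 := norm_line hd.zeta hd.line
      have n2 := norm_line hd'.zeta hd'.line
      have r3 : ((V : ℂ) / eta ζ).re ^ 2 = ((V' : ℂ) / eta ζ).re ^ 2 := by
        rw [← sq_abs, n1, ← sq_abs ((V' : ℂ) / eta ζ).re, n2, hn, hn']
      have r4 : ((V : ℂ) / eta ζ).re = ((V' : ℂ) / eta ζ).re := by
        have h3 := hs.symm.trans hs'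
        rcases sq_eq_sq_iff_eq_or_eq_neg.1 r3 with h | h
        · exact h
        · by_cases hp : 0 < ((V : ℂ) / eta ζ).re
          · have := h3.1 hp
            linarith
          · have hp' : ¬ 0 < ((V' : ℂ) / eta ζ).re := fun h' => hp (h3.2 h')
            linarith
      have r5 : (V : ℂ) / eta ζ = (V' : ℂ) / eta ζ := by rw [← r1, ← r2, r4]
      have r6 : (V : ℂ) = V' := (div_left_inj' (eta_ne hd.zeta)).1 r5
      have r9 : V = V' := Subtype.ext r6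
      subst r9
      exact data_eq hd hd')
  have hU : {f : ℤ[X] | ∃ (U V : QB) (ζ : ℂ), Data q f U V ζ} ⊆ S1 ∪ S2 := by
    rintro f ⟨U, V, ζ, hd⟩
    by_cases h : (starRingEnd ℂ) (U : ℂ) = U
    · right; rw [hS2]; exact ⟨U, V, ζ, hd, h⟩
    · left; rw [hS1]; exact ⟨U, V, ζ, hd, h⟩
  have hfin := (c1.1.union c2.1)
  refine ⟨hfin.subset hU, ?_⟩
  have hn1 := (Set.ncard_le_ncard hU hfin).trans (Set.ncard_union_le _ _)
  have hn2 := hn1.trans (add_le_add c1.2 c2.2)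
  simp only [Finset.card_product, Finset.card_univ, Fintype.card_bool, Int.card_Icc] at hn2
  have t1 : ((K : ℤ) + 1 - -(K : ℤ)).toNat = 2 * K + 1 := by omega
  have t2 : ((16 : ℤ) * q + 1 - 0).toNat = 16 * q + 1 := by omega
  have t3 : ((6 : ℤ) * q + 1 - -(6 * q)).toNat = 12 * q + 1 := by omega
  have t4 : ((36 : ℤ) * q ^ 2 + 1 - 0).toNat = 36 * q ^ 2 + 1 := by
    have : (36 : ℤ) * q ^ 2 + 1 - 0 = ((36 * q ^ 2 + 1 : ℕ) : ℤ) := by push_cast; ring
    rw [this, Int.toNat_natCast]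
  rw [t1, t2, t3, t4] at hn2
  have hn3 : ({f : ℤ[X] | ∃ (U V : QB) (ζ : ℂ), Data q f U V ζ}.ncard : ℝ)
      ≤ 2 * ((2 * K + 1) * ((16 * q + 1) * ((12 * q + 1) * R.card)))
        + 2 * ((2 * K + 1) * ((36 * q ^ 2 + 1) * R.card)) := by
    exact_mod_cast hn2
  refine hn3.trans ?_
  have k1 : (2 * (K : ℝ) + 1) ≤ 17 * Real.sqrt q := by
    have : (K : ℝ) ≤ 8 * Real.sqrt q := by rw [hK]; exact Nat.floor_le (by positivity)
    linarith
  have hc : (0 : ℝ) ≤ R.card := Nat.cast_nonneg _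
  have k2 : (16 * (q : ℝ) + 1) ≤ 17 * q := by linarith
  have k3 : (12 * (q : ℝ) + 1) ≤ 13 * q := by linarith
  have k4 : (36 * (q : ℝ) ^ 2 + 1) ≤ 37 * q ^ 2 := by nlinarith
  have hq0 : (0 : ℝ) ≤ q := by linarith
  have hs0 : 0 ≤ Real.sqrt q := by linarith
  calc 2 * ((2 * (K : ℝ) + 1) * ((16 * q + 1) * ((12 * q + 1) * R.card)))
        + 2 * ((2 * K + 1) * ((36 * q ^ 2 + 1) * R.card))
      ≤ 2 * ((17 * Real.sqrt q) * ((17 * q) * ((13 * q) * R.card)))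
        + 2 * ((17 * Real.sqrt q) * ((37 * q ^ 2) * R.card)) := by gcongr
    _ = 8772 * R.card * (Real.sqrt q * (q : ℝ) ^ 2) := by ring
    _ = 8772 * R.card * Real.sqrt q ^ 5 := by
        have h4 : (q : ℝ) ^ 2 = Real.sqrt q ^ 4 := by
          calc (q : ℝ) ^ 2 = (Real.sqrt q ^ 2) ^ 2 := by rw [hs2]
            _ = Real.sqrt q ^ 4 := by ring
        rw [h4]
        ring
    _ ≤ 10000 * (R.card + 1) * Real.sqrt q ^ 5 := by
        refine mul_le_mul_of_nonneg_right ?_ (by positivity)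
        linarith

end Pool.Agent.H962.EF
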