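import Pool.Agent.H857.EF.Core

set_option autoImplicit false
set_option linter.unusedSectionVars false

/-!
# `S7`: the number of Weil polynomials with a relation with given Weil numbers
-/

namespace Pool.Agent.H894.EF

open Module Polynomial Pool.Agent.W521.Descent Pool.Agent.W521.Density Pool.Agent.W521.Count
  Pool.Agent.X297.UB Pool.Agent.H857.PB Pool.Agent.H857.PA Pool.Agent.H857.HK Pool.Agent.H857.EF

/-- The exponents. -/
def xe {g : ℕ} {κ : Type} (e : Fin g → ℤ) (e' : κ → ℤ) : Idx (fun _ : Unit => g) κ → ℕ :=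
  Sum.elim (fun y => if y.2 then 2 * (-e y.1.2).toNat else 2 * (e y.1.2).toNat)
    (fun y => if y.2 then 2 * (-e' y.1).toNat else 2 * (e' y.1).toNat)

lemma pair_pow {q : ℕ} (hq : q ≠ 0) {x x' : ℂ} (h : x * x' = q) (n : ℤ) :
    x ^ (2 * n.toNat) * x' ^ (2 * (-n).toNat) = x ^ (2 * n) * (q : ℂ) ^ (2 * (-n).toNat) := by
  have hq' : (q : ℂ) ≠ 0 := by exact_mod_cast hq
  have hx : x ≠ 0 := by
    rintro rfl
    rw [zero_mul] at h
    exact hq' h.symm
  rw [← h, mul_pow]
  have h1 : x ^ (2 * n) * x ^ (2 * (-n).toNat) = x ^ (2 * n.toNat) := by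
    rw [← zpow_natCast x (2 * (-n).toNat), ← zpow_natCast x (2 * n.toNat), ← zpow_add₀ hx]
    congr 1
    push_cast
    omega
  rw [← h1]
  ring

lemma bridge {g : ℕ} {κ : Type} [Fintype κ] {q : ℕ} (hq : q ≠ 0) (ρ : κ → ℂ)
    (hρ : ∀ k, ρ k ≠ 0) (y : Fin g → ℤ) (e : Fin g → ℤ) (e' : κ → ℤ)
    (h : RelZ q (Sum.elim (labA q g y) ρ) (Sum.elim e e')) :
    RelExp q (wt (fun _ : Unit => g) fun _ : κ => 1)
      (num (fun _ : Unit => g) q (fun _ : κ => 1) ρ fun _ => y) (xe e e') := by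
  have hq' : (q : ℂ) ≠ 0 := by exact_mod_cast hq
  obtain ⟨N, hN, h1⟩ := h
  set A : ℕ := ∑ j, (-e j).toNat + ∑ k, (-e' k).toNat with hA
  set B : ℕ := ∑ j, (e j).toNat + ∑ k, (e' k).toNat with hB
  have hsum : ∑ i, (Sum.elim e e' : Fin g ⊕ κ → ℤ) i = (B : ℤ) - A := by
    rw [Fintype.sum_sum_type, hA, hB]
    simp only [Sum.elim_inl, Sum.elim_inr]
    push_cast
    have h2 : ∑ j, e j = ∑ j, (((e j).toNat : ℤ) - ((-e j).toNat : ℤ)) :=
      Finset.sum_congr rfl fun j _ => by omega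
    have h3 : ∑ j, e' j = ∑ j, (((e' j).toNat : ℤ) - ((-e' j).toNat : ℤ)) :=
      Finset.sum_congr rfl fun j _ => by omega
    rw [h2, h3, Finset.sum_sub_distrib, Finset.sum_sub_distrib]
    ring
  have hprod : ∏ t, num (fun _ : Unit => g) q (fun _ : κ => 1) ρ (fun _ => y) t ^ xe e e' t =
      (∏ i, (Sum.elim (labA q g y) ρ : Fin g ⊕ κ → ℂ) i ^
        (2 * (Sum.elim e e' : Fin g ⊕ κ → ℤ) i)) * (q : ℂ) ^ (2 * A) := by
    rw [prod_num, Fintype.prod_sum_type, Fintype.prod_unique, part]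
    simp only [Sum.elim_inl, Sum.elim_inr, xe, pow_one, if_true, Bool.false_eq_true, if_false]
    rw [Finset.prod_congr rfl fun j _ => pair_pow hq (lab_mul q g y j) (e j),
      Finset.prod_congr rfl fun k _ => pair_pow hq (mul_div_cancel₀ (q : ℂ) (hρ k)) (e' k),
      Finset.prod_mul_distrib, Finset.prod_mul_distrib, Finset.prod_pow_eq_pow_sum,
      Finset.prod_pow_eq_pow_sum, hA, mul_add, pow_add, Finset.mul_sum, Finset.mul_sum]
    ring
  refine ⟨A + B, ?_, N, hN, ?_⟩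
  · rw [Fintype.sum_sum_type, Fintype.sum_prod_type, Fintype.sum_prod_type, Fintype.sum_sigma,
      Fintype.sum_unique]
    simp only [xe, wt, Sum.elim_inl, Sum.elim_inr, Fintype.sum_bool, if_true, mul_one,
      Bool.false_eq_true, if_false]
    rw [Finset.sum_add_distrib, Finset.sum_add_distrib, ← Finset.mul_sum, ← Finset.mul_sum,
      ← Finset.mul_sum, ← Finset.mul_sum, hA, hB]
    ring
  · rw [hprod, mul_pow, h1, ← mul_pow, hsum]
    congr 1
    rw [← zpow_natCast (q : ℂ) (2 * A), ← zpow_natCast (q : ℂ) (A + B), ← zpow_add₀ hq']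
    congr 1
    push_cast
    ring

theorem s7 : S7 := by
  classical
  intro g hg κ _ D hD
  obtain ⟨N, hN1, hN2⟩ := exists_finite (Idx (fun _ : Unit => g) κ) D 2 hD
    (fun e => NontrivAt (fun _ : Unit => g) () e)
  choose! C hC hcount using fun (e : Idx (fun _ : Unit => g) κ → ℕ)
    (he : NontrivAt (fun _ : Unit => g) () e) =>
    exists_fibre_fam (κ := κ) (fun _ : Unit => g) () hg e he
  have hM0 : 0 ≤ ∑ e ∈ N, C e := Finset.sum_nonneg fun e he => (hC e (hN1 e he)).le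
  refine ⟨∑ e ∈ N, C e + 1, by linarith, fun p _ a ha ρ hρ => ?_⟩
  have hq : 0 < p ^ a := pow_pos (Fact.out (p := p.Prime)).pos _
  have hcast : ((p ^ a : ℕ) : ℝ) = (p : ℝ) ^ a := by push_cast; rfl
  set F : (Idx (fun _ : Unit => g) κ → ℕ) → Set (Fin g → ℤ) := fun e =>
    {y | wp (p ^ a) g y ∈ weilPolys (p ^ a) g ∧
      RelExp (p ^ a) (wt (fun _ : Unit => g) fun _ : κ => 1)
        (num (fun _ : Unit => g) (p ^ a) (fun _ : κ => 1) ρ fun _ => y) e} with hF
  have hsub : {y : Fin g → ℤ | wp (p ^ a) g y ∈ weilPolys (p ^ a) g ∧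
      (∀ z : ℂ, aeval z (wp (p ^ a) g y) = 0 → IsWeilNum p a D 1 z) ∧
      ∃ (e : Fin g → ℤ) (e' : κ → ℤ), (∃ j, e j ≠ 0) ∧
        RelZ (p ^ a) (Sum.elim (labA (p ^ a) g y) ρ) (Sum.elim e e')} ⊆ ⋃ e ∈ N, F e := by
    rintro y ⟨hy1, hy2, e, e', ⟨j0, hj0⟩, hrel⟩
    obtain ⟨e1, he1, hrel1⟩ := hN2 p a ha (wt (fun _ : Unit => g) fun _ : κ => 1)
      (num (fun _ : Unit => g) (p ^ a) (fun _ : κ => 1) ρ fun _ => y) (by
      rintro (⟨⟨i, j⟩, b⟩ | ⟨k, b⟩)
      · refine ⟨by simp [wt], ?_⟩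
        refine hy2 _ ((lab_root hq.ne' y _).2 ⟨j, ?_⟩)
        cases b
        · left
          simp [num]
        · right
          simp [num]
      · refine ⟨by simp [wt], ?_⟩
        cases b
        · simpa [num, wt] using hρ k
        · have h2 := (hρ k).conj
          have h3 : num (fun _ : Unit => g) (p ^ a) (fun _ : κ => 1) ρ (fun _ => y)
              (Sum.inr (k, true)) = (starRingEnd ℂ) (ρ k) := by
            simp only [num, Sum.elim_inr, if_true]
            rw [← (hρ k).mul_conj, mul_div_cancel_left₀ _ (hρ k).ne_zero]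
          rw [h3]
          exact h2) ⟨xe e e', ⟨j0, by
            simp only [xe, Sum.elim_inl, if_true, Bool.false_eq_true, if_false]
            omega⟩, bridge hq.ne' ρ (fun k => (hρ k).ne_zero) y e e' hrel⟩
    simp only [Set.mem_iUnion]
    exact ⟨e1, he1, hy1, hrel1⟩
  have hfin : ∀ e, (F e).Finite := by
    intro e
    refine (Finset.finite_toSet (Fintype.piFinset (box (p ^ a) g))).subset ?_
    rintro y ⟨hy, _⟩
    exact mem_box hq.ne' hy
  have h1 : ∀ e ∈ N, ((F e).ncard : ℝ) ≤ C e * Real.sqrt ((p : ℝ) ^ a) ^ expo g := by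
    intro e he
    have h3 := hcount e (hN1 e he) (p ^ a) hq (fun _ => 1) ρ (fun _ _ => 0) (F e) (by
      rintro y ⟨hy1, hy2⟩
      refine ⟨hy1, ?_⟩
      have h4 : (Function.update (fun _ _ => 0 : Unit → Fin g → ℤ) () y) = fun _ => y := by
        funext u
        cases u
        rw [Function.update_self]
      rw [h4]
      exact hy2)
    rw [hcast] at h3
    exact h3
  have h2 := Finset.set_ncard_biUnion_le N F
  have h3 := Set.ncard_le_ncard hsub (Set.Finite.biUnion (Finset.finite_toSet _) fun e _ => hfin e)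
  refine (Nat.cast_le.2 (h3.trans h2)).trans ?_
  rw [Nat.cast_sum]
  calc ∑ e ∈ N, ((F e).ncard : ℝ) ≤ ∑ e ∈ N, C e * Real.sqrt ((p : ℝ) ^ a) ^ expo g :=
        Finset.sum_le_sum h1
    _ = (∑ e ∈ N, C e) * Real.sqrt ((p : ℝ) ^ a) ^ expo g := by rw [Finset.sum_mul]
    _ ≤ _ := by
        refine mul_le_mul_of_nonneg_right (by linarith) ?_
        positivity

end Pool.Agent.H894.EF
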