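import Pool.Agent.H857.EF.Core

/-! Project ExoticFourfolds of helper857, task S8. -/

set_option autoImplicit false

namespace Pool.Agent.H962.EF8

open Module Polynomial Pool.Agent.W521.Frob Pool.Agent.W521.Descent Pool.Agent.W521.Density Pool.Agent.W521.Count
  Pool.Agent.X297.UB Pool.Agent.H857.PB Pool.Agent.H857.PA Pool.Agent.H857.HK Pool.Agent.H857.EF

theorem weil_mul (q : ℕ) {h h' : ℤ[X]} (hm : h.Monic) (hm' : h'.Monic) :
    weil q (h * h') = weil q h * weil q h' := by
  apply Polynomial.map_injective (Int.castRingHom ℂ) (RingHom.injective_int (Int.castRingHom ℂ))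
  have key : ∀ α : ℂ, α ≠ 0 → aeval α (weil q (h * h')) = aeval α (weil q h * weil q h') := by
    intro α hα
    have hθ : α ^ 2 + q = ((α ^ 2 + q) / α) * α := by rw [div_mul_cancel₀ _ hα]
    rw [map_mul, aeval_weil q (h * h') α _ hθ, aeval_weil q h α _ hθ, aeval_weil q h' α _ hθ,
      map_mul, hm.natDegree_mul hm', pow_add]
    ring
  refine Polynomial.eq_of_infinite_eval_eq _ _ ?_
  refine Set.Infinite.mono (s := {α : ℂ | α ≠ 0}) (fun α hα => ?_) ?_
  · have h1 := key α hα
    rw [aeval_def, aeval_def, eval₂_eq_eval_map, eval₂_eq_eval_map] at h1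
    exact h1
  · exact (Set.finite_singleton (0 : ℂ)).infinite_compl

theorem s8 : S8 := by
  intro q hq x hx hirr
  obtain ⟨P, hP⟩ : ∃ P, P = mkPoly 4 x := ⟨_, rfl⟩
  have hPm : P.Monic := by rw [hP]; exact mkPoly_monic 4 x
  have hPd : P.natDegree = 4 := by rw [hP]; exact mkPoly_natDegree 4 x
  have hP1 : P ≠ 1 := by
    intro h
    rw [h, natDegree_one] at hPd
    omega
  rw [← hP, hPm.irreducible_iff_natDegree] at hirr
  have hex : ∃ f g : ℤ[X], f.Monic ∧ g.Monic ∧ f * g = P ∧ f.natDegree ≠ 0 ∧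
      g.natDegree ≠ 0 := by
    by_contra hno
    refine hirr ⟨hP1, fun f g hf hg hfg => ?_⟩
    by_contra h0
    rw [not_or] at h0
    exact hno ⟨f, g, hf, hg, hfg, h0.1, h0.2⟩
  obtain ⟨f, g, hf, hg, hfg, hf0, hg0⟩ := hex
  have hdeg : f.natDegree + g.natDegree = 4 := by
    rw [← hf.natDegree_mul hg, hfg, hPd]
  -- the general splitting
  have key : ∀ (a b : ℕ) (u v : ℤ[X]), u.Monic → v.Monic → u.natDegree = a → v.natDegree = b →
      u * v = P → ∃ (y : Fin a → ℤ) (z : Fin b → ℤ), wp q 4 x = wp q a y * wp q b z ∧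
        wp q a y ∈ weilPolys q a ∧ wp q b z ∈ weilPolys q b := by
    intro a b u v hu hv hua hvb huv
    have hw : wp q 4 x = weil q u * weil q v := by
      unfold wp
      rw [← hP, ← huv, weil_mul q hu hv]
    refine ⟨fun k => u.coeff k, fun k => v.coeff k, ?_, ?_, ?_⟩
    · rw [hw]
      unfold wp
      rw [eq_mkPoly hu hua, eq_mkPoly hv hvb]
    · unfold wp
      rw [eq_mkPoly hu hua]
      refine ⟨weil_monic q hu, by rw [weil_natDegree q hu, hua], ?_, fun z hz => ?_⟩
      · rw [Pool.Agent.W521.Lower.weil_coeff_zero q hu, hua]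
      · refine hx.2.2.2 z ?_
        rw [hw, map_mul, hz, zero_mul]
    · unfold wp
      rw [eq_mkPoly hv hvb]
      refine ⟨weil_monic q hv, by rw [weil_natDegree q hv, hvb], ?_, fun z hz => ?_⟩
      · rw [Pool.Agent.W521.Lower.weil_coeff_zero q hv, hvb]
      · refine hx.2.2.2 z ?_
        rw [hw, map_mul, hz, mul_zero]
  have hcases : f.natDegree = 1 ∨ f.natDegree = 2 ∨ f.natDegree = 3 := by omega
  rcases hcases with h | h | h
  · left
    exact key 1 3 f g hf hg h (by omega) hfg
  · right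
    exact key 2 2 f g hf hg h (by omega) hfg
  · left
    exact key 1 3 g f hg hf (by omega) h (by rw [mul_comm]; exact hfg)

end Pool.Agent.H962.EF8
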